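import Mathlib
import Pool.Agent.K9h23.Bnd.Stg

/-!
Bounded holomorphic functions with a Lipschitz estimate between the sphere and the ball.
-/

set_option autoImplicit false

open MeasureTheory Set Complex Metric Filter Topology
open scoped Real

namespace Pool.Agent.K9h23.Mix

open Pool.Agent.K9h23.Hom Pool.Agent.K9h23.Bnd

variable {m N : ℕ}

/-- bounded by `b`, Lipschitz constant `L`, holomorphic in the ball -/
structure Lc (b L : ℝ) (φ : E m → ℂ) : Prop where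
  meas : Measurable φ
  dif : DifferentiableOn ℂ φ (ball 0 1)
  L0 : 0 ≤ L
  bd : ∀ z, ‖z‖ ≤ 1 → ‖φ z‖ ≤ b
  lip : ∀ v z, ‖v‖ = 1 → ‖z‖ ≤ 1 → ‖φ v - φ z‖ ≤ L * Real.sqrt ‖1 - (inner ℂ v z : ℂ)‖

variable {b L b' L' : ℝ} {φ ψ : E m → ℂ}

theorem Lc.bm (h : Lc b L φ) : Bm b φ := ⟨h.meas, h.bd⟩

theorem Lc.nonneg (h : Lc b L φ) : 0 ≤ b := h.bm.nonneg

theorem Lc.mono (h : Lc b L φ) (hb : b ≤ b') (hL : L ≤ L') : Lc b' L' φ :=
  ⟨h.meas, h.dif, h.L0.trans hL, fun z hz => (h.bd z hz).trans hb, fun v z hv hz =>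
    (h.lip v z hv hz).trans (mul_le_mul_of_nonneg_right hL (Real.sqrt_nonneg _))⟩

theorem Lc.const (c : ℂ) : Lc ‖c‖ 0 (fun _ : E m => c) :=
  ⟨measurable_const, differentiableOn_const c, le_rfl, fun _ _ => le_rfl, fun v z _ _ => by simp⟩

theorem Lc.add (h : Lc b L φ) (h' : Lc b' L' ψ) : Lc (b + b') (L + L') (fun z => φ z + ψ z) := by
  refine ⟨h.meas.add h'.meas, h.dif.add h'.dif, add_nonneg h.L0 h'.L0, fun z hz =>
    (norm_add_le _ _).trans (add_le_add (h.bd z hz) (h'.bd z hz)), fun v z hv hz => ?_⟩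
  have e : φ v + ψ v - (φ z + ψ z) = (φ v - φ z) + (ψ v - ψ z) := by ring
  rw [e, add_mul]
  exact (norm_add_le _ _).trans (add_le_add (h.lip v z hv hz) (h'.lip v z hv hz))

theorem Lc.neg (h : Lc b L φ) : Lc b L (fun z => -φ z) := by
  refine ⟨h.meas.neg, h.dif.neg, h.L0, fun z hz => by rw [norm_neg]; exact h.bd z hz,
    fun v z hv hz => ?_⟩
  have e : -φ v - -φ z = -(φ v - φ z) := by ring
  rw [e, norm_neg]
  exact h.lip v z hv hz

theorem Lc.sub (h : Lc b L φ) (h' : Lc b' L' ψ) : Lc (b + b') (L + L') (fun z => φ z - ψ z) := by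
  have := h.add h'.neg
  simpa only [← sub_eq_add_neg] using this

theorem Lc.mul (h : Lc b L φ) (h' : Lc b' L' ψ) :
    Lc (b * b') (b * L' + b' * L) (fun z => φ z * ψ z) := by
  have hb := h.nonneg
  have hb' := h'.nonneg
  have hL := h.L0
  have hL' := h'.L0
  refine ⟨h.meas.mul h'.meas, h.dif.mul h'.dif, by positivity, fun z hz => ?_,
    fun v z hv hz => ?_⟩
  · rw [norm_mul]
    exact mul_le_mul (h.bd z hz) (h'.bd z hz) (norm_nonneg _) hb
  · have e : φ v * ψ v - φ z * ψ z = φ v * (ψ v - ψ z) + (φ v - φ z) * ψ z := by ring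
    rw [e]
    refine (norm_add_le _ _).trans ?_
    rw [norm_mul, norm_mul]
    have a1 := mul_le_mul (h.bd v hv.le) (h'.lip v z hv hz) (norm_nonneg _) hb
    have a2 := mul_le_mul (h.lip v z hv hz) (h'.bd z hz) (norm_nonneg _) (by positivity)
    calc _ ≤ b * (L' * Real.sqrt ‖1 - (inner ℂ v z : ℂ)‖) +
          (L * Real.sqrt ‖1 - (inner ℂ v z : ℂ)‖) * b' := add_le_add a1 a2
      _ = _ := by ring

theorem Lc.inv (h : Lc b L φ) {c : ℝ} (hc : 0 < c) (hl : ∀ z, ‖z‖ ≤ 1 → c ≤ ‖φ z‖) :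
    Lc (1 / c) (L / c ^ 2) (fun z => (φ z)⁻¹) := by
  have hL := h.L0
  have h0 : ∀ z, ‖z‖ ≤ 1 → φ z ≠ 0 := fun z hz => norm_pos_iff.1 (hc.trans_le (hl z hz))
  refine ⟨h.meas.inv, h.dif.inv fun z hz => h0 z (by
    rw [mem_ball_zero_iff] at hz; exact hz.le), by positivity, fun z hz => ?_,
    fun v z hv hz => ?_⟩
  · rw [norm_inv, inv_eq_one_div]
    exact one_div_le_one_div_of_le hc (hl z hz)
  · have e : (φ v)⁻¹ - (φ z)⁻¹ = -(φ v - φ z) / (φ v * φ z) := by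
      have := h0 v hv.le
      have := h0 z hz
      field_simp
      ring
    rw [e, norm_div, norm_neg, norm_mul]
    have h3 : c ^ 2 ≤ ‖φ v‖ * ‖φ z‖ := by
      rw [sq]
      exact mul_le_mul (hl v hv.le) (hl z hz) hc.le (norm_nonneg _)
    calc ‖φ v - φ z‖ / (‖φ v‖ * ‖φ z‖) ≤ L * Real.sqrt ‖1 - (inner ℂ v z : ℂ)‖ / c ^ 2 :=
          div_le_div₀ (by positivity) (h.lip v z hv hz) (by positivity) h3
      _ = _ := by ring

theorem Lc.sum {ι : Type*} (T : Finset ι) {u : ι → E m → ℂ} (hb : 0 ≤ b)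
    (h : ∀ i ∈ T, Lc b L (u i)) : Lc (T.card * b) (T.card * L) (fun z => ∑ i ∈ T, u i z) := by
  classical
  induction T using Finset.induction_on with
  | empty =>
    simp only [Finset.sum_empty, Finset.card_empty, Nat.cast_zero, zero_mul]
    have := Lc.const (m := m) 0
    rwa [norm_zero] at this
  | insert i T hi ih =>
    have h1 := (h i (Finset.mem_insert_self _ _)).add
      (ih fun j hj => h j (Finset.mem_insert_of_mem hj))
    simp only [Finset.sum_insert hi]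
    refine h1.mono (le_of_eq ?_) (le_of_eq ?_)
    · rw [Finset.card_insert_of_notMem hi]
      push_cast
      ring
    · rw [Finset.card_insert_of_notMem hi]
      push_cast
      ring

theorem Lc.of_gr {D : ℕ} (hD : 1 ≤ D) {R : E m → ℂ} (h : Gr 0 D R) (hb : 0 ≤ b)
    (hR : ∀ z, ‖z‖ ≤ 1 → ‖R z‖ ≤ b) : Lc b (12 * b * Real.sqrt D) R := by
  refine ⟨h.diff.continuous.measurable, h.diff.differentiableOn, by positivity, hR,
    fun v z hv hz => ?_⟩
  rw [norm_sub_rev]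
  refine (h.lip hD hb hR hv hz).trans (le_of_eq ?_)
  rw [Real.sqrt_mul (Nat.cast_nonneg _)]
  ring

/-- the iteration, with polynomials of controlled degrees -/
theorem iter2 {A B : ℝ} {D : ℕ} {G Φ : E m → Fin N → ℂ} (S : Sd A B D G Φ) {M p : ℕ}
    (hM : 1 ≤ M) (hB : 0 ≤ B) (hq : 48 * (CT m * 2 ^ (m + 1)) * N * A * B *
      (Real.sqrt D / Real.sqrt M) ≤ 1 / 2) (hDM : D ≤ 2 ^ p * M) {R0 : E m → ℂ}
    (hR : Gr (2 * M) (2 ^ p * M) R0) {β : ℝ}
    (hβ : ∀ z, ‖z‖ ≤ 1 → ‖R0 z‖ ≤ β) (J : ℕ) :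
    ∃ (V : Fin N → E m → ℂ) (R : E m → ℂ), (∀ j, Gr 0 (2 * (2 ^ (p + 2 * J) * M)) (V j)) ∧
      Gr (2 * M) (2 ^ (p + 2 * J) * M) R ∧ (∀ z, ‖z‖ ≤ 1 → ‖R z‖ ≤ (1 / 2) ^ J * β) ∧
      (∀ j z, ‖z‖ ≤ 1 → ‖V j z‖ ≤ J * (p + 2 * J) * (CT m * 2 ^ (m + 1) * (B * β))) ∧
      ∀ z, ∑ j, G z j * V j z = R0 z - R z := by
  have hβ0 : 0 ≤ β := (norm_nonneg _).trans (hβ 0 (by simp))
  have hCT := CT_pos m
  induction J with
  | zero =>
    refine ⟨fun _ _ => 0, R0, fun _ => Gr.zero _ _, by simpa using hR,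
      by simpa using hβ, fun j z _ => ?_, fun z => ?_⟩
    · simp
    · simp
  | succ J ih =>
    obtain ⟨V, R, hVd, hRg, hRb, hVb, hVe⟩ := ih
    obtain ⟨W, hWg, hWb, hWe⟩ := S.step hM hB hRg hRb
    have e : 2 ^ (p + 2 * (J + 1)) * M = 4 * (2 ^ (p + 2 * J) * M) := by ring
    refine ⟨fun j z => V j z + W j z, fun z => R z - ∑ j, G z j * W j z,
      fun j => ?_, ?_, fun z hz => ?_, fun j z hz => ?_, fun z => ?_⟩
    · rw [e]
      exact ((hVd j).mono le_rfl (by omega)).add ((hWg j).mono (Nat.zero_le _) (by omega))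
    · rw [e]
      refine Gr.sub (hRg.mono le_rfl (by omega)) (Gr.sum _ fun j _ => ?_)
      have h1 := (S.Gg j).mul (hWg j)
      refine h1.mono (by omega) ?_
      have h2 : 2 ^ p * M ≤ 2 ^ (p + 2 * J) * M :=
        Nat.mul_le_mul_right _ (Nat.pow_le_pow_right (by norm_num) (by omega))
      omega
    · have h1 := hWe z hz
      have h2 : ‖R z - ∑ j, G z j * W j z‖ = ‖∑ j, G z j * W j z - R z‖ := norm_sub_rev _ _
      rw [h2]
      refine h1.trans ?_
      have h3 : 0 ≤ (1 / 2 : ℝ) ^ J * β := by positivity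
      calc _ ≤ 1 / 2 * ((1 / 2) ^ J * β) := mul_le_mul_of_nonneg_right hq h3
        _ = _ := by rw [pow_succ]; ring
    · refine (norm_add_le _ _).trans ((add_le_add (hVb j z hz) (hWb j z hz)).trans ?_)
      set c := CT m * 2 ^ (m + 1) with hc
      have hc0 : 0 < c := by positivity
      have h1 : (1 / 2 : ℝ) ^ J * β ≤ β := by
        have : (1 / 2 : ℝ) ^ J ≤ 1 := pow_le_one₀ (by norm_num) (by norm_num)
        nlinarith
      have h2 : c * (B * ((1 / 2 : ℝ) ^ J * β)) ≤ c * (B * β) :=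
        mul_le_mul_of_nonneg_left (mul_le_mul_of_nonneg_left h1 hB) hc0.le
      have h3 : 0 ≤ c * (B * β) := by positivity
      push_cast
      have hJ : (0:ℝ) ≤ J := Nat.cast_nonneg _
      have hp : (0:ℝ) ≤ p := Nat.cast_nonneg _
      calc (J:ℝ) * (p + 2 * J) * (c * (B * β)) +
            (p + 2 * J) * (c * (B * ((1 / 2 : ℝ) ^ J * β)))
          ≤ (J:ℝ) * (p + 2 * J) * (c * (B * β)) + (p + 2 * J) * (c * (B * β)) := by
            gcongr
        _ ≤ ((J:ℝ) + 1) * (p + 2 * (J + 1)) * (c * (B * β)) := by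
            have : (J:ℝ) * (p + 2 * J) + (p + 2 * J) ≤ ((J:ℝ) + 1) * (p + 2 * (J + 1)) := by
              nlinarith
            calc _ = ((J:ℝ) * (p + 2 * J) + (p + 2 * J)) * (c * (B * β)) := by ring
              _ ≤ _ := mul_le_mul_of_nonneg_right this h3
    · have h1 : ∑ j, G z j * (V j z + W j z) = ∑ j, G z j * V j z + ∑ j, G z j * W j z := by
        rw [← Finset.sum_add_distrib]
        exact Finset.sum_congr rfl fun j _ => by ring
      rw [h1, hVe]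
      ring

end Pool.Agent.K9h23.Mix
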