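import Mathlib
import Pool.Agent.K9h23.Hom.BL
import Pool.Agent.K9h23.Lac.Stp

/-!
The pieces of the step as bounded Lipschitz functions.
-/

set_option autoImplicit false

open Complex Set

namespace Pool.Agent.K9h23.Mix

open Pool.Agent.K9h23.Hom
open Pool.Agent.K9h23.Lac (nsq nsq_nonneg nsq_c nn nn_nonneg nn_sq nn_add_le le_nsq nsq_smul' bd
  bd_le_nn comp_le_nn nsq_conj xx EE UU th yh sg ww cc GG th_mem)

variable {N : ℕ}

/-- the set of triples `(a, H, v)` -/
def TS (N : ℕ) (A B : ℝ) : Set ((Fin N → ℂ) × (Fin N → ℂ) × (Fin N → ℂ)) :=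
  {x | 16 ≤ A * nsq x.1 ∧ nsq x.1 ≤ 4 ∧ nn x.2.1 ≤ B ∧ nsq x.2.2 * (100 * A ^ 2) ^ 2 ≤ 1}

noncomputable def p1 (A : ℝ) (j : Fin N) (a H v : Fin N → ℂ) : ℂ :=
  th A (nsq H) * ((EE A (xx a v) - 1) * H j)

noncomputable def p2 (A : ℝ) (j : Fin N) (a H v : Fin N → ℂ) : ℂ :=
  th A (nsq H) * (-(bd H v + (EE A (xx a v) - 1) + bd H v * (EE A (xx a v) - 1)) *
    ((1 / sg (nsq a) (nsq H) : ℝ) : ℂ) * UU a H j)

noncomputable def pW (a H v : Fin N → ℂ) : ℂ := ww (nsq a) (nsq H) (xx a v) (bd H v)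

noncomputable def p3 (A : ℝ) (j : Fin N) (H v : Fin N → ℂ) : ℂ :=
  (1 - th A (nsq H)) * (H j * yh A (nsq H) (bd H v))

noncomputable def pY (A : ℝ) (H v : Fin N → ℂ) : ℂ := yh A (nsq H) (bd H v)

section aux

variable {X : Type*} [PseudoMetricSpace X] {T : Set X}

/-- composition with a Lipschitz function of a real variable -/
theorem BL_rcomp {u : X → ℝ} (hu : BL T (fun x => (u x : ℂ))) {φ : ℝ → ℝ}
    (hφ : ∀ s t, |φ s - φ t| ≤ |s - t|) : BL T (fun x => (φ (u x) : ℂ)) := by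
  obtain ⟨M, hM, h1, h2⟩ := hu
  refine ⟨|φ 0| + M, by positivity, fun x hx => ?_, fun x hx y hy => ?_⟩
  · rw [Complex.norm_real, Real.norm_eq_abs]
    have h3 := h1 x hx
    rw [Complex.norm_real, Real.norm_eq_abs] at h3
    have h4 := hφ (u x) 0
    rw [sub_zero] at h4
    have h5 : |φ (u x)| ≤ |φ (u x) - φ 0| + |φ 0| := by
      have := abs_add_le (φ (u x) - φ 0) (φ 0)
      rwa [sub_add_cancel] at this
    linarith
  · rw [← Complex.ofReal_sub, Complex.norm_real, Real.norm_eq_abs]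
    have h3 := h2 x hx y hy
    rw [← Complex.ofReal_sub, Complex.norm_real, Real.norm_eq_abs] at h3
    have h4 : 0 ≤ |φ 0| * dist x y := by positivity
    rw [add_mul]
    linarith [hφ (u x) (u y)]

theorem max_lip (c s t : ℝ) : |max s c - max t c| ≤ |s - t| := by
  have := abs_max_sub_max_le_abs s t c
  exact this

theorem min_lip (c s t : ℝ) : |min c s - min c t| ≤ |s - t| := by
  have := abs_inf_sub_inf_le_abs s t c
  rw [inf_comm s c, inf_comm t c] at this
  exact this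

theorem th_lip {A : ℝ} (hA : 4 ≤ A) (s t : ℝ) : |th A s - th A t| ≤ |s - t| := by
  unfold th
  rw [max_comm 0 _, max_comm 0 _]
  refine (max_lip _ _ _).trans ((min_lip _ _ _).trans ?_)
  have e : (s - 25 * A) / (75 * A) - (t - 25 * A) / (75 * A) = (s - t) / (75 * A) := by ring
  rw [e, abs_div, abs_of_pos (by positivity : 0 < 75 * A)]
  exact div_le_self (abs_nonneg _) (by linarith)

theorem sg_lip (s t : ℝ) : |max (s - 1) 1 - max (t - 1) 1| ≤ |s - t| := by
  refine (max_lip _ _ _).trans (le_of_eq ?_)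
  congr 1
  ring

theorem BL_nsq3 {u : Fin N → X → ℂ} (h : ∀ j, BL T (u j)) :
    BL T (fun x => (nsq (fun j => u j x) : ℂ)) :=
  (BL.sum Finset.univ fun j _ => (h j).mul (h j).conj).congr fun x =>
    (nsq_c (fun j => u j x)).symm

theorem BL_bd3 {u v : Fin N → X → ℂ} (hu : ∀ j, BL T (u j)) (hv : ∀ j, BL T (v j)) :
    BL T (fun x => bd (fun j => u j x) (fun j => v j x)) :=
  BL.sum Finset.univ fun j _ => (hu j).mul (hv j)

theorem BL_xx3 {u v : Fin N → X → ℂ} (hu : ∀ j, BL T (u j)) (hv : ∀ j, BL T (v j)) :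
    BL T (fun x => xx (fun j => u j x) (fun j => v j x)) :=
  BL.sum Finset.univ fun j _ => (hu j).conj.mul (hv j)

theorem BL_EE3 (A : ℝ) {u : X → ℂ} (hu : BL T u) : BL T (fun x => EE A (u x)) := by
  have h1 : BL T (fun x => (A : ℂ) * u x) := (BL.const (A : ℂ)).mul hu
  have h2 := ((BL.const (T := T) 1).add h1).add ((h1.mul h1).mul (BL.const (1 / 2)))
  exact h2.congr fun x => by unfold EE; ring

end aux

theorem BLa {A B : ℝ} (_hA : 4 ≤ A) (_hB : 1 ≤ B) (j : Fin N) : BL (TS N A B) (fun x => x.1 j) := by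
  refine ⟨2, by norm_num, fun x hx => ?_, fun x _ y _ => ?_⟩
  · have h1 := le_nsq x.1 j
    have h2 : ‖x.1 j‖ ^ 2 ≤ 2 ^ 2 := by
      have := hx.2.1
      linarith
    exact le_of_sq_le_sq h2 (by norm_num)
  · have h1 : ‖x.1 j - y.1 j‖ ≤ dist x y := by
      rw [← Pi.sub_apply]
      refine (norm_le_pi_norm _ j).trans ?_
      rw [← dist_eq_norm]
      exact le_max_left _ _
    have := dist_nonneg (x := x) (y := y)
    linarith

theorem BLH {A B : ℝ} (_hA : 4 ≤ A) (hB : 1 ≤ B) (j : Fin N) :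
    BL (TS N A B) (fun x => x.2.1 j) := by
  refine ⟨B, by linarith, fun x hx => (comp_le_nn x.2.1 j).trans hx.2.2.1, fun x _ y _ => ?_⟩
  have h1 : ‖x.2.1 j - y.2.1 j‖ ≤ dist x y := by
    rw [← Pi.sub_apply]
    refine (norm_le_pi_norm _ j).trans ?_
    rw [← dist_eq_norm]
    exact (le_max_left _ _).trans (le_max_right _ _)
  have := dist_nonneg (x := x) (y := y)
  nlinarith

theorem BLv {A B : ℝ} (hA : 4 ≤ A) (_hB : 1 ≤ B) (j : Fin N) :
    BL (TS N A B) (fun x => x.2.2 j) := by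
  refine ⟨1, by norm_num, fun x hx => ?_, fun x _ y _ => ?_⟩
  · have h1 := le_nsq x.2.2 j
    have h3 := hx.2.2.2
    have h4 : nsq x.2.2 ≤ 1 := by
      have h5 : 1 ≤ (100 * A ^ 2) ^ 2 := by
        have : 1 ≤ 100 * A ^ 2 := by nlinarith
        nlinarith
      nlinarith [nsq_nonneg x.2.2]
    have h2 : ‖x.2.2 j‖ ^ 2 ≤ 1 ^ 2 := by linarith
    exact le_of_sq_le_sq h2 (by norm_num)
  · have h1 : ‖x.2.2 j - y.2.2 j‖ ≤ dist x y := by
      rw [← Pi.sub_apply]
      refine (norm_le_pi_norm _ j).trans ?_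
      rw [← dist_eq_norm]
      exact (le_max_right _ _).trans (le_max_right _ _)
    linarith

theorem BLna {A B : ℝ} (hA : 4 ≤ A) (hB : 1 ≤ B) :
    BL (TS N A B) (fun x => (nsq x.1 : ℂ)) := BL_nsq3 (BLa hA hB)

theorem BLnH {A B : ℝ} (hA : 4 ≤ A) (hB : 1 ≤ B) :
    BL (TS N A B) (fun x => (nsq x.2.1 : ℂ)) := BL_nsq3 (BLH hA hB)

theorem BLbd {A B : ℝ} (hA : 4 ≤ A) (hB : 1 ≤ B) :
    BL (TS N A B) (fun x => bd x.2.1 x.2.2) := BL_bd3 (BLH hA hB) (BLv hA hB)

theorem BLxx {A B : ℝ} (hA : 4 ≤ A) (hB : 1 ≤ B) :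
    BL (TS N A B) (fun x => xx x.1 x.2.2) := BL_xx3 (BLa hA hB) (BLv hA hB)

theorem BLth {A B : ℝ} (hA : 4 ≤ A) (hB : 1 ≤ B) :
    BL (TS N A B) (fun x => (th A (nsq x.2.1) : ℂ)) := BL_rcomp (BLnH hA hB) (th_lip hA)

theorem BLEE {A B : ℝ} (hA : 4 ≤ A) (hB : 1 ≤ B) :
    BL (TS N A B) (fun x => EE A (xx x.1 x.2.2) - 1) :=
  (BL_EE3 A (BLxx hA hB)).sub (BL.const 1)

theorem BLsg {A B : ℝ} (hA : 4 ≤ A) (hB : 1 ≤ B) :
    BL (TS N A B) (fun x => ((sg (nsq x.1) (nsq x.2.1) : ℂ))⁻¹) := by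
  have h1 : BL (TS N A B) (fun x => ((nsq x.1 * nsq x.2.1 : ℝ) : ℂ)) :=
    ((BLna hA hB).mul (BLnH hA hB)).congr fun x => by push_cast; rfl
  have h2 : BL (TS N A B) (fun x => (sg (nsq x.1) (nsq x.2.1) : ℂ)) :=
    BL_rcomp h1 (φ := fun r => max (r - 1) 1) sg_lip
  refine h2.inv one_pos fun x _ => ?_
  have h3 : 1 ≤ sg (nsq x.1) (nsq x.2.1) := le_max_right _ _
  rw [Complex.norm_real, Real.norm_of_nonneg (by linarith)]
  exact h3

theorem BLU {A B : ℝ} (hA : 4 ≤ A) (hB : 1 ≤ B) (j : Fin N) :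
    BL (TS N A B) (fun x => UU x.1 x.2.1 j) :=
  ((BLnH hA hB).mul (BLa hA hB j).conj).sub (BLH hA hB j)

theorem BLmx {A B : ℝ} (hA : 4 ≤ A) (hB : 1 ≤ B) :
    BL (TS N A B) (fun x => ((100 * A / max (100 * A) (nsq x.2.1) : ℝ) : ℂ)) := by
  have h2 : BL (TS N A B) (fun x => ((max (nsq x.2.1) (100 * A) : ℝ) : ℂ)) :=
    BL_rcomp (BLnH hA hB) (φ := fun r => max r (100 * A)) (max_lip _)
  have h3 := h2.inv one_pos fun x _ => by
    have h3 : 1 ≤ max (nsq x.2.1) (100 * A) := le_max_of_le_right (by linarith)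
    rw [Complex.norm_real, Real.norm_of_nonneg (by linarith)]
    exact h3
  refine ((BL.const ((100 * A : ℝ) : ℂ)).mul h3).congr fun x => ?_
  rw [max_comm (100 * A) _, Complex.ofReal_div, div_eq_mul_inv]

theorem BL_pY0 {A B : ℝ} (hA : 4 ≤ A) (hB : 1 ≤ B) :
    BL (TS N A B) (fun x => pY A x.2.1 x.2.2) :=
  (BLmx hA hB).mul (BLbd hA hB)

theorem GG_split (A : ℝ) (a H v : Fin N → ℂ) (j : Fin N) :
    GG A a H v j = H j + p1 A j a H v + p2 A j a H v * (1 / (1 - pW a H v)) -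
      p3 A j H v * (1 / (1 + pY A H v)) := by
  unfold GG p1 p2 pW p3 pY cc
  ring

theorem BL_p1 {A B : ℝ} (hA : 4 ≤ A) (hB : 1 ≤ B) (j : Fin N) :
    BL (TS N A B) (fun x => p1 A j x.1 x.2.1 x.2.2) := by
  exact (BLth hA hB).mul ((BLEE hA hB).mul (BLH hA hB j))

theorem BL_p2 {A B : ℝ} (hA : 4 ≤ A) (hB : 1 ≤ B) (j : Fin N) :
    BL (TS N A B) (fun x => p2 A j x.1 x.2.1 x.2.2) := by
  have h1 := BLEE (N := N) hA hB
  have h2 := BLbd (N := N) hA hB
  have h3 := ((h2.add h1).add (h2.mul h1)).neg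
  refine ((BLth hA hB).mul ((h3.mul (BLsg hA hB)).mul (BLU hA hB j))).congr fun x => ?_
  unfold p2
  rw [one_div, Complex.ofReal_inv]

theorem BL_pW {A B : ℝ} (hA : 4 ≤ A) (hB : 1 ≤ B) :
    BL (TS N A B) (fun x => pW x.1 x.2.1 x.2.2) := by
  have h1 := (BLbd (N := N) hA hB).sub ((BLnH hA hB).mul (BLxx hA hB))
  exact (h1.mul (BLsg hA hB)).congr fun x => by unfold pW ww; rw [div_eq_mul_inv]

theorem BL_p3 {A B : ℝ} (hA : 4 ≤ A) (hB : 1 ≤ B) (j : Fin N) :
    BL (TS N A B) (fun x => p3 A j x.2.1 x.2.2) := by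
  have h1 := (BL.const (T := TS N A B) 1).sub (BLth hA hB)
  exact h1.mul ((BLH hA hB j).mul (BL_pY0 hA hB))

theorem BL_pY {A B : ℝ} (hA : 4 ≤ A) (hB : 1 ≤ B) :
    BL (TS N A B) (fun x => pY A x.2.1 x.2.2) := by
  exact BL_pY0 hA hB

section meas

variable {α : Type*} [MeasurableSpace α] {a H v : α → Fin N → ℂ}

theorem mnH {u : α → Fin N → ℂ} (hu : ∀ j, Measurable (fun x => u x j)) :
    Measurable (fun x => nsq (u x)) := by
  unfold Pool.Agent.K9h23.Lac.nsq
  exact Finset.measurable_fun_sum _ fun j _ => (hu j).norm.pow_const 2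

theorem mbd {u w : α → Fin N → ℂ} (hu : ∀ j, Measurable (fun x => u x j))
    (hw : ∀ j, Measurable (fun x => w x j)) : Measurable (fun x => bd (u x) (w x)) := by
  unfold Pool.Agent.K9h23.Lac.bd
  exact Finset.measurable_fun_sum _ fun j _ => (hu j).mul (hw j)

theorem mxx {u w : α → Fin N → ℂ} (hu : ∀ j, Measurable (fun x => u x j))
    (hw : ∀ j, Measurable (fun x => w x j)) : Measurable (fun x => xx (u x) (w x)) := by
  unfold Pool.Agent.K9h23.Lac.xx
  exact Finset.measurable_fun_sum _ fun j _ =>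
    (Complex.continuous_conj.measurable.comp (hu j)).mul (hw j)

theorem mEE (A : ℝ) {u : α → ℂ} (hu : Measurable u) : Measurable (fun x => EE A (u x)) := by
  unfold Pool.Agent.K9h23.Lac.EE
  exact (measurable_const.add (measurable_const.mul hu)).add
    (((measurable_const.mul hu).pow_const 2).div_const 2)

theorem mth (A : ℝ) {u : α → ℝ} (hu : Measurable u) :
    Measurable (fun x => ((th A (u x) : ℝ) : ℂ)) := by
  unfold Pool.Agent.K9h23.Lac.th
  exact Complex.measurable_ofReal.comp (measurable_const.max (measurable_const.min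
    ((hu.sub measurable_const).div_const _)))

theorem msg {u w : α → ℝ} (hu : Measurable u) (hw : Measurable w) :
    Measurable (fun x => sg (u x) (w x)) := by
  unfold Pool.Agent.K9h23.Lac.sg
  exact ((hu.mul hw).sub measurable_const).max measurable_const

theorem myh (A : ℝ) {u w : α → Fin N → ℂ} (hu : ∀ j, Measurable (fun x => u x j))
    (hw : ∀ j, Measurable (fun x => w x j)) :
    Measurable (fun x => yh A (nsq (u x)) (bd (u x) (w x))) := by
  unfold Pool.Agent.K9h23.Lac.yh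
  exact (Complex.measurable_ofReal.comp (measurable_const.div
    (measurable_const.max (mnH hu)))).mul (mbd hu hw)

theorem meas_p1 (A : ℝ) (j : Fin N) (ha : ∀ j, Measurable (fun x => a x j))
    (hH : ∀ j, Measurable (fun x => H x j)) (hv : ∀ j, Measurable (fun x => v x j)) :
    Measurable (fun x => p1 A j (a x) (H x) (v x)) := by
  unfold p1
  exact (mth A (mnH hH)).mul (((mEE A (mxx ha hv)).sub measurable_const).mul (hH j))

theorem meas_p2 (A : ℝ) (j : Fin N) (ha : ∀ j, Measurable (fun x => a x j))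
    (hH : ∀ j, Measurable (fun x => H x j)) (hv : ∀ j, Measurable (fun x => v x j)) :
    Measurable (fun x => p2 A j (a x) (H x) (v x)) := by
  unfold p2
  have h1 : Measurable (fun x => EE A (xx (a x) (v x)) - 1) :=
    (mEE A (mxx ha hv)).sub measurable_const
  have h2 := mbd hH hv
  have h3 : Measurable (fun x => ((1 / sg (nsq (a x)) (nsq (H x)) : ℝ) : ℂ)) :=
    Complex.measurable_ofReal.comp (measurable_const.div (msg (mnH ha) (mnH hH)))
  have h4 : Measurable (fun x => UU (a x) (H x) j) := by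
    unfold UU
    exact ((Complex.measurable_ofReal.comp (mnH hH)).mul
      (Complex.continuous_conj.measurable.comp (ha j))).sub (hH j)
  exact (mth A (mnH hH)).mul ((((h2.add h1).add (h2.mul h1)).neg.mul h3).mul h4)

theorem meas_pW (ha : ∀ j, Measurable (fun x => a x j))
    (hH : ∀ j, Measurable (fun x => H x j)) (hv : ∀ j, Measurable (fun x => v x j)) :
    Measurable (fun x => pW (a x) (H x) (v x)) := by
  unfold pW ww
  exact ((mbd hH hv).sub ((Complex.measurable_ofReal.comp (mnH hH)).mul (mxx ha hv))).div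
    (Complex.measurable_ofReal.comp (msg (mnH ha) (mnH hH)))

theorem meas_p3 (A : ℝ) (j : Fin N)
    (hH : ∀ j, Measurable (fun x => H x j)) (hv : ∀ j, Measurable (fun x => v x j)) :
    Measurable (fun x => p3 A j (H x) (v x)) := by
  unfold p3
  exact (measurable_const.sub (mth A (mnH hH))).mul ((hH j).mul (myh A hH hv))

theorem meas_pY (A : ℝ)
    (hH : ∀ j, Measurable (fun x => H x j)) (hv : ∀ j, Measurable (fun x => v x j)) :
    Measurable (fun x => pY A (H x) (v x)) := by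
  unfold pY
  exact myh A hH hv

end meas

end Pool.Agent.K9h23.Mix
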