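import Mathlib
import Pool.Agent.K9h23.Mix.Lc
import Pool.Agent.K9h23.Mix.Tri

/-!
Holomorphic replacements of the pieces of the step.
-/

set_option autoImplicit false

open MeasureTheory Set Complex Metric
open scoped Real

namespace Pool.Agent.K9h23.Mix

open Pool.Agent.K9h23.Hom Pool.Agent.K9h23.Bnd
open Pool.Agent.K9h23.Lac (nsq nsq_nonneg nsq_c nn nn_nonneg nn_sq nn_add_le le_nsq nsq_smul' bd
  bd_le_nn comp_le_nn nsq_conj nn_le_comp xx EE UU th yh sg ww cc GG th_mem)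

variable {m N : ℕ}

/-- the pieces which can be replaced -/
structure Qz (N : ℕ) (A B : ℝ) (Ψ : (Fin N → ℂ) → (Fin N → ℂ) → (Fin N → ℂ) → ℂ) : Prop where
  bl : BL (TS N A B) (fun x => Ψ x.1 x.2.1 x.2.2)
  gr : ∀ (a H : Fin N → ℂ) {m l u : ℕ} (v : E m → Fin N → ℂ), l ≤ u →
    (∀ j, Gr l u (fun z => v z j)) → Gr l (3 * u) (fun z => Ψ a H (v z))
  ms : ∀ {m : ℕ} {a H v : E m → Fin N → ℂ}, (∀ j, Measurable (fun x => a x j)) →
    (∀ j, Measurable (fun x => H x j)) → (∀ j, Measurable (fun x => v x j)) →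
    Measurable (fun x => Ψ (a x) (H x) (v x))

section gr

variable {l u : ℕ} {v : E m → Fin N → ℂ}

theorem gr_xx (hv : ∀ j, Gr l u (fun z => v z j)) (a : Fin N → ℂ) :
    Gr l u (fun z => xx a (v z)) := Gr.sum _ fun j _ => (hv j).smul _

theorem gr_bd (hv : ∀ j, Gr l u (fun z => v z j)) (a : Fin N → ℂ) :
    Gr l u (fun z => bd a (v z)) := Gr.sum _ fun j _ => (hv j).smul _

theorem gr_EE (A : ℝ) (hv : ∀ j, Gr l u (fun z => v z j)) (a : Fin N → ℂ) :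
    Gr l (2 * u) (fun z => EE A (xx a (v z)) - 1) := by
  have h1 := gr_xx hv a
  have h2 := ((h1.smul (A : ℂ)).mono (le_refl l) (show u ≤ 2 * u by omega)).add
    (((h1.mul h1).smul ((A : ℂ) ^ 2 / 2)).mono (show l ≤ l + l by omega)
      (show u + u ≤ 2 * u by omega))
  refine h2.congr fun z => ?_
  unfold EE
  ring

end gr

variable {A B : ℝ}

theorem Qz_p1 (hA : 4 ≤ A) (hB : 1 ≤ B) (j : Fin N) : Qz N A B (p1 A j) := by
  refine ⟨BL_p1 hA hB j, fun a H m l u v hlu hv => ?_, fun ha hH hv => meas_p1 A j ha hH hv⟩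
  have h1 := ((gr_EE A hv a).mono le_rfl (show 2 * u ≤ 3 * u by omega)).smul
    ((th A (nsq H) : ℂ) * H j)
  refine h1.congr fun z => ?_
  unfold p1
  ring

theorem Qz_p2 (hA : 4 ≤ A) (hB : 1 ≤ B) (j : Fin N) : Qz N A B (p2 A j) := by
  refine ⟨BL_p2 hA hB j, fun a H m l u v hlu hv => ?_, fun ha hH hv => meas_p2 A j ha hH hv⟩
  have h1 := gr_EE A hv a
  have h2 := gr_bd hv H
  have h3 := ((h2.mono le_rfl (show u ≤ 3 * u by omega)).add
    (h1.mono le_rfl (show 2 * u ≤ 3 * u by omega))).add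
    ((h2.mul h1).mono (show l ≤ l + l by omega) (show u + 2 * u ≤ 3 * u by omega))
  refine (h3.smul (-(th A (nsq H) : ℂ) * ((1 / sg (nsq a) (nsq H) : ℝ) : ℂ) * UU a H j)).congr
    fun z => ?_
  unfold p2
  ring

theorem Qz_pW (hA : 4 ≤ A) (hB : 1 ≤ B) : Qz N A B pW := by
  refine ⟨BL_pW hA hB, fun a H m l u v hlu hv => ?_, fun ha hH hv => meas_pW ha hH hv⟩
  have h1 := (gr_bd hv H).mono (le_refl l) (show u ≤ 3 * u by omega)
  have h2 := (gr_xx hv a).mono (le_refl l) (show u ≤ 3 * u by omega)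
  refine ((h1.sub (h2.smul (nsq H : ℂ))).smul ((sg (nsq a) (nsq H) : ℂ))⁻¹).congr fun z => ?_
  unfold pW ww
  rw [div_eq_mul_inv]
  ring

theorem Qz_p3 (hA : 4 ≤ A) (hB : 1 ≤ B) (j : Fin N) : Qz N A B (fun _ => p3 A j) := by
  refine ⟨BL_p3 hA hB j, fun a H m l u v hlu hv => ?_, fun ha hH hv => meas_p3 A j hH hv⟩
  have h1 := (gr_bd hv H).mono (le_refl l) (show u ≤ 3 * u by omega)
  refine (h1.smul ((1 - (th A (nsq H) : ℂ)) * (H j *
    ((100 * A / max (100 * A) (nsq H) : ℝ) : ℂ)))).congr fun z => ?_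
  unfold p3 yh
  ring

theorem Qz_pY (hA : 4 ≤ A) (hB : 1 ≤ B) : Qz N A B (fun _ => pY A) := by
  refine ⟨BL_pY hA hB, fun a H m l u v hlu hv => ?_, fun ha hH hv => meas_pY A hH hv⟩
  have h1 := (gr_bd hv H).mono (le_refl l) (show u ≤ 3 * u by omega)
  exact h1.smul _

/-- the hypotheses of a small stage -/
structure Sq (A B Λ s : ℝ) (D l u : ℕ) (F H Q : E m → Fin N → ℂ) : Prop where
  A4 : 4 ≤ A
  cs : (1 ≤ D ∧ 2 ≤ l) ∨ ∀ z, F z = F 0 ∧ H z = H 0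
  Dl : D ≤ l
  l1 : 1 ≤ l
  lu : l ≤ u
  Fg : ∀ j, Gr 0 D (fun z => F z j)
  Qg : ∀ j, Gr l u (fun z => Q z j)
  Fb : ∀ z, ‖z‖ ≤ 1 → 16 ≤ A * nsq (F z) ∧ nsq (F z) ≤ 4
  Qb : ∀ z, ‖z‖ ≤ 1 → nsq (Q z) * (100 * A ^ 2) ^ 2 ≤ 1
  Qs : ∀ z, ‖z‖ ≤ 1 → nn (Q z) ≤ s
  Hl : ∀ j, Lc B (Λ * Real.sqrt D) (fun z => H z j)
  Hb : ∀ z, ‖z‖ ≤ 1 → nn (H z) ≤ B

theorem Sq.mem {Λ s : ℝ} {D l u : ℕ} {F H Q : E m → Fin N → ℂ} (S : Sq A B Λ s D l u F H Q)
    {z z' : E m} (hz : ‖z‖ ≤ 1) (hz' : ‖z'‖ ≤ 1) : (F z, H z, Q z') ∈ TS N A B :=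
  ⟨(S.Fb z hz).1, (S.Fb z hz).2, S.Hb z hz, S.Qb z' hz'⟩

theorem Sq.s0 {Λ s : ℝ} {D l u : ℕ} {F H Q : E m → Fin N → ℂ} (S : Sq A B Λ s D l u F H Q) :
    0 ≤ s := (nn_nonneg _).trans (S.Qs 0 (by simp))

theorem Sq.Fj {Λ s : ℝ} {D l u : ℕ} {F H Q : E m → Fin N → ℂ} (S : Sq A B Λ s D l u F H Q)
    {z : E m} (hz : ‖z‖ ≤ 1) (j : Fin N) : ‖F z j‖ ≤ 2 := by
  have h1 := le_nsq (F z) j
  have h2 := (S.Fb z hz).2
  have h3 : ‖F z j‖ ^ 2 ≤ 2 ^ 2 := by linarith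
  exact le_of_sq_le_sq h3 (by norm_num)

theorem exists_dy {a u : ℕ} (ha : 1 ≤ a) (hau : a < 3 * u) : ∃ p : ℕ, 3 * u ≤ 2 ^ p * a ∧
    2 ^ p * a ≤ 6 * u := by
  have hex : ∃ p : ℕ, 3 * u ≤ 2 ^ p * a :=
    ⟨3 * u, (Nat.lt_two_pow_self.le).trans (Nat.le_mul_of_pos_right _ ha)⟩
  classical
  refine ⟨Nat.find hex, Nat.find_spec hex, ?_⟩
  have h1 : Nat.find hex ≠ 0 := by
    intro h0
    have := Nat.find_spec hex
    rw [h0] at this
    omega
  obtain ⟨p, hp⟩ := Nat.exists_eq_succ_of_ne_zero h1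
  have h2 := Nat.find_min hex (m := p) (by omega)
  rw [hp, Nat.succ_eq_add_one, pow_succ]
  push Not at h2
  have : 2 ^ p * 2 * a = 2 * (2 ^ p * a) := by ring
  omega

theorem nn_smul (c : ℂ) (u : Fin N → ℂ) : nn (fun j => c * u j) = ‖c‖ * nn u := by
  unfold nn
  have h1 : nsq (fun j => c * u j) = ‖c‖ ^ 2 * nsq u := by
    unfold nsq
    rw [Finset.mul_sum]
    exact Finset.sum_congr rfl fun j _ => by rw [norm_mul, mul_pow]
  rw [h1, Real.sqrt_mul (by positivity), Real.sqrt_sq (norm_nonneg _)]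

/-- the Schwarz lemma in the last variable -/
theorem Qz.schwarz {Ψ : (Fin N → ℂ) → (Fin N → ℂ) → (Fin N → ℂ) → ℂ} (hΨ : Qz N A B Ψ)
    (hA : 4 ≤ A) {b : ℝ} (hb : 0 ≤ b) (hb2 : ∀ x ∈ TS N A B, ∀ y ∈ TS N A B,
      ‖Ψ x.1 x.2.1 x.2.2 - Ψ y.1 y.2.1 y.2.2‖ ≤ b * dist x y)
    {a H a' H' v : Fin N → ℂ} (h : (a, H, v) ∈ TS N A B) (h' : (a', H', v) ∈ TS N A B)
    {ρ : ℝ} (hρ : dist a a' ≤ ρ) (hρ' : dist H H' ≤ ρ) :
    ‖Ψ a H v - Ψ a' H' v‖ ≤ b * ρ * (100 * A ^ 2 * nn v) := by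
  have hρ0 : 0 ≤ ρ := dist_nonneg.trans hρ
  set T : ℝ := 100 * A ^ 2 with hT
  have hT0 : 0 < T := by positivity
  have hv1 : T * nn v ≤ 1 := by
    have h1 : (T * nn v) ^ 2 ≤ 1 ^ 2 := by
      have h2 := h.2.2.2
      simp only at h2
      rw [mul_pow, nn_sq]
      linarith
    exact le_of_sq_le_sq h1 (by norm_num)
  have hgen : ∀ v' : Fin N → ℂ, nn v' ≤ 1 / T → ∀ z : E 1, ‖z‖ ≤ 1 →
      ‖Ψ a H (fun j => z 0 * v' j) - Ψ a' H' (fun j => z 0 * v' j)‖ ≤ b * ρ * ‖z‖ ^ 1 := by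
    intro v' hv' z hz
    have hgr : ∀ j, Gr 1 1 (fun z : E 1 => z 0 * v' j) := by
      intro j
      refine Gr.single (k := 1) ⟨?_, fun c z => ?_⟩ le_rfl le_rfl
      · exact ((EuclideanSpace.proj (𝕜 := ℂ) (0 : Fin 1)).differentiable).mul_const _
      · simp only [PiLp.smul_apply, smul_eq_mul, pow_one]
        ring
    have hR := (hΨ.gr a H (fun (z : E 1) j => z 0 * v' j) le_rfl hgr).sub
      (hΨ.gr a' H' (fun (z : E 1) j => z 0 * v' j) le_rfl hgr)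
    refine hR.schwarz (fun z hz => ?_) hz
    have hz0 : ‖z 0‖ ≤ 1 := (PiLp.norm_apply_le z 0).trans hz
    have hn : nn (fun j => z 0 * v' j) ≤ 1 / T := by
      rw [nn_smul]
      calc ‖z 0‖ * nn v' ≤ 1 * (1 / T) := mul_le_mul hz0 hv' (nn_nonneg _) zero_le_one
        _ = _ := one_mul _
    have hq : nsq (fun j => z 0 * v' j) * (100 * A ^ 2) ^ 2 ≤ 1 := by
      rw [← nn_sq, ← hT, ← mul_pow]
      refine pow_le_one₀ (mul_nonneg (nn_nonneg _) hT0.le) ?_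
      rw [le_div_iff₀ hT0] at hn
      exact hn
    refine (hb2 (a, H, fun j => z 0 * v' j) ⟨h.1, h.2.1, h.2.2.1, hq⟩
      (a', H', fun j => z 0 * v' j) ⟨h'.1, h'.2.1, h'.2.2.1, hq⟩).trans ?_
    refine mul_le_mul_of_nonneg_left ?_ hb
    exact max_le hρ (max_le hρ' (by simp only [dist_self]; exact hρ0))
  rcases (nn_nonneg v).eq_or_lt with hs | hs
  · have hv0 : v = fun j => (0 : E 1) 0 * (0 : ℂ) := by
      funext j
      have h1 := comp_le_nn v j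
      rw [← hs] at h1
      simpa using h1
    have h1 := hgen (fun _ => 0) (by
      have : nn (fun _ : Fin N => (0:ℂ)) = 0 := by unfold nn nsq; simp
      rw [this]; positivity) 0 (by simp)
    rw [← hs, mul_zero, mul_zero, hv0]
    simpa using h1
  · set s : ℝ := nn v with hs'
    have h1 := hgen (fun j => ((T * s : ℝ) : ℂ)⁻¹ * v j) (by
      rw [nn_smul, norm_inv, Complex.norm_real, Real.norm_of_nonneg (by positivity), ← hs']
      rw [mul_inv, mul_assoc, inv_mul_cancel₀ hs.ne', mul_one, inv_eq_one_div])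
      (EuclideanSpace.single (0 : Fin 1) ((T * s : ℝ) : ℂ)) (by
        rw [EuclideanSpace.norm_single, Complex.norm_real, Real.norm_of_nonneg (by positivity)]
        exact hv1)
    have h2 : (fun j => (EuclideanSpace.single (0 : Fin 1) ((T * s : ℝ) : ℂ) : E 1) 0 *
        (((T * s : ℝ) : ℂ)⁻¹ * v j)) = v := by
      funext j
      have h3 : ((T * s : ℝ) : ℂ) ≠ 0 := by
        have : T * s ≠ 0 := by positivity
        exact_mod_cast this
      rw [EuclideanSpace.single_apply, if_pos rfl, ← mul_assoc, mul_inv_cancel₀ h3, one_mul]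
    rw [h2, pow_one, EuclideanSpace.norm_single, Complex.norm_real,
      Real.norm_of_nonneg (by positivity)] at h1
    exact h1

/-- **The replacement.** -/
theorem quant (m N : ℕ) {A B : ℝ} {Ψ : (Fin N → ℂ) → (Fin N → ℂ) → (Fin N → ℂ) → ℂ}
    (hΨ : Qz N A B Ψ) :
    ∃ b : ℝ, 0 ≤ b ∧ (∀ x ∈ TS N A B, ‖Ψ x.1 x.2.1 x.2.2‖ ≤ b) ∧
      (∀ x ∈ TS N A B, ∀ y ∈ TS N A B,
        ‖Ψ x.1 x.2.1 x.2.2 - Ψ y.1 y.2.1 y.2.2‖ ≤ b * dist x y) ∧
      ∀ Λ : ℝ, 0 ≤ Λ → ∃ C : ℝ, 0 ≤ C ∧ ∀ (s : ℝ) (D l u : ℕ) (F H Q : E m → Fin N → ℂ),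
        Sq A B Λ s D l u F H Q → ∃ R : E m → ℂ, Gr 0 (12 * u) R ∧
        ∀ z, ‖z‖ ≤ 1 → ‖R z - Ψ (F z) (H z) (Q z)‖ ≤ C * (s * (Real.sqrt D / Real.sqrt l)) := by
  obtain ⟨b, hb, hb1, hb2⟩ := hΨ.bl
  refine ⟨b, hb, hb1, hb2, fun Λ hΛ => ?_⟩
  have hCT := CT_pos m
  refine ⟨4 * (CT m * 2 ^ (m + 1)) * (b * (24 + Λ) * (100 * A ^ 2) * 2), by positivity,
    fun s D l u F H Q S => ?_⟩
  have hs0 := S.s0
  have hlu := S.lu
  rcases S.cs with ⟨hD1, hl2⟩ | hcs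
  swap
  · -- constant coefficients
    refine ⟨fun z => Ψ (F 0) (H 0) (Q z), (hΨ.gr (F 0) (H 0) Q hlu S.Qg).mono (Nat.zero_le _)
      (by omega), fun z hz => ?_⟩
    rw [(hcs z).1, (hcs z).2, sub_self, norm_zero]
    positivity
  have hDl := S.Dl
  have hl0 : (0:ℝ) < l := by exact_mod_cast (by omega : 0 < l)
  have hsl : 0 < Real.sqrt l := Real.sqrt_pos.2 hl0
  set a : ℕ := l / 2 with ha
  have ha1 : 1 ≤ a := by omega
  have ha2 : 2 * a ≤ l := by omega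
  have ha3 : l ≤ 3 * a := by omega
  have ha0 : (0:ℝ) < a := by exact_mod_cast ha1
  have hsa : 1 / Real.sqrt a ≤ 2 / Real.sqrt l := by
    rw [div_le_div_iff₀ (Real.sqrt_pos.2 ha0) hsl, one_mul]
    have h3 : (l:ℝ) ≤ 4 * a := by
      have : (l:ℝ) ≤ 3 * a := by exact_mod_cast ha3
      linarith
    have h4 : Real.sqrt (4 * a) = 2 * Real.sqrt a := by
      rw [Real.sqrt_mul (by norm_num)]
      congr 1
      rw [show (4:ℝ) = 2 ^ 2 by norm_num, Real.sqrt_sq (by norm_num)]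
    rw [← h4]
    exact Real.sqrt_le_sqrt h3
  obtain ⟨p, hp1, hp2⟩ := exists_dy (a := a) (u := u) ha1 (by omega)
  have haM : a ≤ 2 ^ p * a := Nat.le_mul_of_pos_left _ (by positivity)
  have hFm : ∀ j, Measurable (fun w => F w j) := fun j => (S.Fg j).diff.continuous.measurable
  have hQm : ∀ j, Measurable (fun w => Q w j) := fun j => (S.Qg j).diff.continuous.measurable
  have hHm : ∀ j, Measurable (fun w => H w j) := fun j => (S.Hl j).meas
  have hX : Bm b (fun w => Ψ (F w) (H w) (Q w)) :=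
    ⟨hΨ.ms hFm hHm hQm, fun w hw => hb1 _ (S.mem hw hw)⟩
  refine ⟨TO a (2 ^ p * a) (fun w => Ψ (F w) (H w) (Q w)), ?_, fun z hz => ?_⟩
  · exact (TO_gr (s := 0) ha1 haM hX fun k _ hk => absurd hk (Nat.not_lt_zero _)).mono le_rfl
      (by omega)
  have hY : Bm b (fun w => Ψ (F z) (H z) (Q w)) :=
    ⟨hΨ.ms (fun j => measurable_const) (fun j => measurable_const) hQm,
      fun w hw => hb1 _ (S.mem hz hw)⟩
  have h1 : TO a (2 ^ p * a) (fun w => Ψ (F w) (H w) (Q w)) z - Ψ (F z) (H z) (Q z) =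
      TO a (2 ^ p * a) (fun w => Ψ (F w) (H w) (Q w) - Ψ (F z) (H z) (Q w)) z := by
    have e1 : (fun w => Ψ (F w) (H w) (Q w) - Ψ (F z) (H z) (Q w)) =
        fun w => Ψ (F w) (H w) (Q w) + (-1) * Ψ (F z) (H z) (Q w) := by
      funext w; ring
    rw [e1, TO_add hX (hY.smul _) ha1 haM, TO_smul,
      TO_repr ha1 haM ha2 hp1 (hΨ.gr (F z) (H z) Q hlu S.Qg)]
    ring
  rw [h1]
  have hXY : Bm (b + b) (fun w => Ψ (F w) (H w) (Q w) - Ψ (F z) (H z) (Q w)) :=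
    ⟨hX.meas.sub hY.meas, fun w hw => (norm_sub_le _ _).trans
      (add_le_add (hX.bd w hw) (hY.bd w hw))⟩
  have h2 := TO_dy_bound ha1 p hXY (b1 := b * (24 + Λ) * Real.sqrt D * (100 * A ^ 2 * s))
    (by positivity) hz
    (fun v hv => by
      have hs0' : 0 ≤ Real.sqrt D * Real.sqrt ‖1 - (inner ℂ v z : ℂ)‖ := by positivity
      have h4 := hΨ.schwarz S.A4 hb hb2 (S.mem hv.le hv.le) (S.mem hz hv.le)
        (ρ := (24 + Λ) * Real.sqrt D * Real.sqrt ‖1 - (inner ℂ v z : ℂ)‖)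
        (by
          refine pi_dist_le (by positivity) fun i => ?_
          rw [norm_sub_rev]
          refine ((S.Fg i).lip hD1 (by norm_num : (0:ℝ) ≤ 2) (fun z hz => S.Fj hz i) hv hz).trans ?_
          rw [Real.sqrt_mul (Nat.cast_nonneg _)]
          nlinarith)
        (by
          refine pi_dist_le (by positivity) fun i => ?_
          refine ((S.Hl i).lip v z hv hz).trans ?_
          nlinarith)
      refine h4.trans ?_
      calc b * ((24 + Λ) * Real.sqrt D * Real.sqrt ‖1 - (inner ℂ v z : ℂ)‖) *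
            (100 * A ^ 2 * nn (Q v)) ≤
            b * ((24 + Λ) * Real.sqrt D * Real.sqrt ‖1 - (inner ℂ v z : ℂ)‖) *
            (100 * A ^ 2 * s) := by
            refine mul_le_mul_of_nonneg_left ?_ (by positivity)
            exact mul_le_mul_of_nonneg_left (S.Qs v hv.le) (by positivity)
        _ = _ := by ring)
  refine h2.trans ?_
  rw [div_eq_mul_one_div (b * (24 + Λ) * Real.sqrt D * (100 * A ^ 2 * s))]
  calc 4 * (CT m * 2 ^ (m + 1)) * (b * (24 + Λ) * Real.sqrt D * (100 * A ^ 2 * s) *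
        (1 / Real.sqrt a)) ≤
        4 * (CT m * 2 ^ (m + 1)) * (b * (24 + Λ) * Real.sqrt D * (100 * A ^ 2 * s) *
        (2 / Real.sqrt l)) := by
        refine mul_le_mul_of_nonneg_left (mul_le_mul_of_nonneg_left hsa (by positivity))
          (by positivity)
    _ = _ := by ring

end Pool.Agent.K9h23.Mix
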