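import Mathlib
import Pool.Agent.K9h23.Mix.Lc

/-!
One stage of the construction for a large band of degrees, with Lipschitz estimates.
-/

set_option autoImplicit false

open MeasureTheory Set Complex Metric
open scoped Real

namespace Pool.Agent.K9h23.Mix

open Pool.Agent.K9h23.Hom Pool.Agent.K9h23.Bnd
open Pool.Agent.K9h23.Lac (nsq nsq_nonneg nsq_c nn nn_nonneg nn_sq nn_add_le le_nsq nsq_smul' bd
  bd_le_nn comp_le_nn nsq_conj nn_le_comp)

variable {m N : ℕ}

/-- **One stage.** -/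
theorem bstage2 (m N K : ℕ) (hK : 1 ≤ K) {δ A : ℝ} (hδ : 0 < δ) (hA : 1 ≤ A) :
    ∃ C : ℝ, 1 ≤ C ∧ ∀ (D l : ℕ) (F Q : E m → Fin N → ℂ), Bz δ A K D l F Q →
    ∃ M : Fin N → Fin N → E m → ℂ, (∀ i j, Lc C (C * Real.sqrt l) (M i j)) ∧
      ∀ z, ‖z‖ ≤ 1 → ∀ i, (∀ j, ‖M i j z‖ ≤ C * (‖Q z i‖ + Real.sqrt D / Real.sqrt l)) ∧
        ‖∑ j, M i j z * (F z j + Q z j) - Q z i‖ ≤ C * (Real.sqrt D / Real.sqrt l) := by
  classical
  have hA0 : 0 < A := by linarith
  have hN0 : (0:ℝ) ≤ N := Nat.cast_nonneg N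
  have hK0 : (1:ℝ) ≤ K := by exact_mod_cast hK
  obtain ⟨M2, hM2, h2⟩ := BL.unif (fun j : Fin N => BL_ee (N := N) hδ hA j)
  obtain ⟨B, hB, hslice⟩ := slice N hδ hA0
  have hCT := CT_pos m
  set κ : ℝ := CT m * (3 * K) ^ (m + 1) with hκ
  have hκ0 : 0 < κ := by positivity
  set bA : ℝ := κ * (M2 * (2 * A)) with hbA
  have hbA0 : 0 ≤ bA := by positivity
  set c1 : ℝ := κ * (M2 * (12 * A) * (2 * A) * 2) with hc1
  have hc10 : 0 ≤ c1 := by positivity
  set S0 : ℝ := N * bA + 1 with hS0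
  have hS01 : 1 ≤ S0 := by
    have : 0 ≤ N * bA := by positivity
    linarith
  set X0 : ℝ := 48 * (CT m * 2 ^ (m + 1)) * N * A * B with hX0
  have hX00 : 0 ≤ X0 := by positivity
  obtain ⟨q', hq'⟩ := exists_nat_ge (4 * X0 ^ 2 * (3 * K))
  set q : ℕ := q' + 1 with hq
  have hq1 : 1 ≤ q := by omega
  have hqr : 4 * X0 ^ 2 * (3 * K) ≤ q := by
    rw [hq]
    push_cast
    linarith
  set k0 : ℕ := 2 * q with hk0
  set b : ℝ := S0 ^ k0 with hb
  have hb1 : 1 ≤ b := one_le_pow₀ hS01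
  obtain ⟨J, hJ⟩ := exists_pow_lt_of_lt_one (show 0 < 1 / (2 * b) by positivity)
    (show (1 / 2 : ℝ) < 1 by norm_num)
  set p0 : ℕ := 12 * K with hp0
  set V0 : ℝ := J * (p0 + 2 * J) * (CT m * 2 ^ (m + 1) * (B * b)) with hV0
  have hV00 : 0 ≤ V0 := by positivity
  set G0 : ℝ := k0 * S0 ^ k0 with hG0
  have hG00 : 0 ≤ G0 := by positivity
  set X1 : ℝ := bA * G0 + 2 * A * V0 with hX1
  have hX10 : 0 ≤ X1 := by positivity
  set Y : ℕ := 2 * K * k0 + 2 * (2 ^ (p0 + 2 * J) * q) + 2 * K with hY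
  set X2 : ℝ := 72 * X1 * Real.sqrt Y with hX2
  have hX20 : 0 ≤ X2 := by positivity
  set C : ℝ := 1 + 2 * (M2 * G0 + V0) + 2 * (c1 * G0) + 2 * (6 * N * A * c1 * G0) + 2 * X1 + X2
    with hC
  have hC1 : 1 ≤ C := by
    rw [hC]
    have h1 : 0 ≤ M2 * G0 := by positivity
    have h2 : 0 ≤ c1 * G0 := by positivity
    have h3 : 0 ≤ 6 * N * A * c1 * G0 := by positivity
    linarith
  refine ⟨C, hC1, fun D l F Q H => ?_⟩
  have hD1 := H.D1
  have hDl := H.Dl
  have hl2 := H.l2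
  have hl0 : (0:ℝ) < l := by exact_mod_cast (by omega : 0 < l)
  have hsl : 0 < Real.sqrt l := Real.sqrt_pos.2 hl0
  set η : ℝ := Real.sqrt D / Real.sqrt l with hη
  have hη0 : 0 ≤ η := by positivity
  set a : ℕ := l / 2 with ha
  have ha1 : 1 ≤ a := by omega
  have ha2 : 2 * a ≤ l := by omega
  have ha3 : l ≤ 3 * a := by omega
  have ha0 : (0:ℝ) < a := by exact_mod_cast ha1
  have hlK : l ≤ K * l := Nat.le_mul_of_pos_left _ hK
  have haK : a ≤ K * l := by omega
  have hratio : ((K * l : ℕ) : ℝ) / a ≤ 3 * K := by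
    rw [div_le_iff₀ ha0]
    push_cast
    have : (l:ℝ) ≤ 3 * a := by exact_mod_cast ha3
    nlinarith
  have hrat1 : (((K * l : ℕ) : ℝ) / a) ^ (m + 1) ≤ (3 * K) ^ (m + 1) :=
    pow_le_pow_left₀ (by positivity) hratio _
  have hsa : 1 / Real.sqrt a ≤ 2 / Real.sqrt l := by
    rw [div_le_div_iff₀ (Real.sqrt_pos.2 ha0) hsl, one_mul]
    have h3 : (l:ℝ) ≤ 4 * a := by
      have : (l:ℝ) ≤ 3 * a := by exact_mod_cast ha3
      linarith
    have h4 : Real.sqrt (4 * a) = 2 * Real.sqrt a := by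
      rw [Real.sqrt_mul (by norm_num)]
      congr 1
      rw [show (4:ℝ) = 2 ^ 2 by norm_num, Real.sqrt_sq (by norm_num)]
    rw [← h4]
    exact Real.sqrt_le_sqrt h3
  -- basic bounds
  have hFj : ∀ z, ‖z‖ ≤ 1 → ∀ j, ‖F z j‖ ≤ A := fun z hz j =>
    (comp_le_nn (F z) j).trans (H.Fb z hz).2
  have hGj : ∀ z, ‖z‖ ≤ 1 → ∀ j, ‖F z j + Q z j‖ ≤ A := fun z hz j =>
    (comp_le_nn (fun j => F z j + Q z j) j).trans (H.Gb z hz).2
  have hQj : ∀ z, ‖z‖ ≤ 1 → ∀ j, ‖Q z j‖ ≤ 2 * A := fun z hz j => by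
    have e : Q z j = (F z j + Q z j) - F z j := by ring
    rw [e]
    refine (norm_sub_le _ _).trans ?_
    have := hFj z hz j
    have := hGj z hz j
    linarith
  have hT0 : ∀ z : E m, ‖z‖ ≤ 1 → (F z, fun _ : Fin N => (0:ℂ)) ∈ Pool.Agent.K9h23.Hom.TT N δ A := fun z hz =>
    ⟨(H.Fb z hz).1, (H.Fb z hz).2, by
      have : nn (fun _ : Fin N => (0:ℂ)) = 0 := by unfold nn nsq; simp
      change nn (fun _ : Fin N => (0:ℂ)) ≤ A
      rw [this]; exact hA0.le⟩
  have hns : ∀ z, ‖z‖ ≤ 1 → nsq (F z) ≠ 0 := fun z hz => by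
    rw [← nn_sq]
    have h0 : 0 < nn (F z) := hδ.trans_le (H.Fb z hz).1
    positivity
  have heb : ∀ z, ‖z‖ ≤ 1 → ∀ j, ‖ee (F z) j‖ ≤ M2 := fun z hz j => (h2 j).1 _ (hT0 z hz)
  have hFm : ∀ j, Measurable (fun w => F w j) := fun j => (H.Fg j).diff.continuous.measurable
  have hem : ∀ j, Bm M2 (fun w => ee (F w) j) := fun j => ⟨meas_ee hFm j, fun w hw => heb w hw j⟩
  have hQm : ∀ j, Bm (2 * A) (fun w => Q w j) := fun j => (H.Qg j).bm fun z hz => hQj z hz j
  have hlip : ∀ (v z : E m), ‖v‖ = 1 → ‖z‖ ≤ 1 → ∀ j, ‖ee (F v) j - ee (F z) j‖ ≤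
      M2 * (12 * A) * Real.sqrt D * Real.sqrt ‖1 - (inner ℂ v z : ℂ)‖ := by
    intro v z hv hz j
    have h3 := (h2 j).2 _ (hT0 v hv.le) _ (hT0 z hz)
    beta_reduce at h3
    refine h3.trans ?_
    have h4 : dist ((F v, fun _ : Fin N => (0:ℂ)) : (Fin N → ℂ) × (Fin N → ℂ))
        (F z, fun _ : Fin N => (0:ℂ)) ≤ 12 * A * Real.sqrt (D * ‖1 - (inner ℂ v z : ℂ)‖) := by
      refine max_le ?_ ?_
      · refine pi_dist_le (by positivity) fun i => ?_
        rw [norm_sub_rev]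
        exact (H.Fg i).lip hD1 hA0.le (fun z hz => hFj z hz i) hv hz
      · simp only [dist_self]
        positivity
    rw [Real.sqrt_mul (Nat.cast_nonneg _)] at h4
    calc M2 * _ ≤ M2 * (12 * A * (Real.sqrt D * Real.sqrt ‖1 - (inner ℂ v z : ℂ)‖)) :=
          mul_le_mul_of_nonneg_left h4 hM2
      _ = _ := by ring
  -- the holomorphic approximations of `e_j Q_i`
  have hAB : ∀ i j, Bm (M2 * (2 * A)) (fun w => ee (F w) j * Q w i) := fun i j =>
    (hem j).mul (hQm i)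
  set A' : Fin N → Fin N → E m → ℂ := fun i j => TO a (K * l) (fun w => ee (F w) j * Q w i)
    with hA'
  have hA'g : ∀ i j, Gr (a + 1) (2 * (K * l)) (A' i j) := fun i j =>
    TO_gr ha1 haK (hAB i j) fun k hk hk' => by omega
  have hA'b : ∀ i j z, ‖z‖ ≤ 1 → ‖A' i j z‖ ≤ bA := by
    intro i j z hz
    have h3 := TO_bound ha1 haK (hAB i j) (b1 := 0) (hAB i j).nonneg le_rfl hz (fun v hv => by
        rw [zero_mul, add_zero]; exact (hAB i j).bd v hv.le)
    refine h3.trans ?_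
    rw [zero_div, add_zero, hbA, hκ]
    refine mul_le_mul_of_nonneg_right ?_ (by positivity)
    exact mul_le_mul_of_nonneg_left hrat1 hCT.le
  have hA'e : ∀ i j z, ‖z‖ ≤ 1 → ‖A' i j z - ee (F z) j * Q z i‖ ≤ c1 * η := by
    intro i j z hz
    have h1 : A' i j z - ee (F z) j * Q z i =
        TO a (K * l) (fun w => (ee (F w) j - ee (F z) j) * Q w i) z := by
      have e1 : (fun w => (ee (F w) j - ee (F z) j) * Q w i) =
          fun w => ee (F w) j * Q w i + (-ee (F z) j) * Q w i := by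
        funext w; ring
      rw [e1, TO_add (hAB i j) ((hQm i).smul _) ha1 haK, TO_smul,
        TO_repr ha1 haK ha2 le_rfl (H.Qg i)]
      ring
    rw [h1]
    set b1 : ℝ := M2 * (12 * A) * Real.sqrt D * (2 * A) with hb1
    have hb10 : 0 ≤ b1 := by positivity
    have hXb : Bm ((M2 + M2) * (2 * A)) (fun w => (ee (F w) j - ee (F z) j) * Q w i) := by
      refine Bm.mul ⟨(hem j).meas.sub_const _, fun w hw => ?_⟩ (hQm i)
      exact (norm_sub_le _ _).trans (add_le_add (heb w hw j) (heb z hz j))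
    have h3 := TO_bound ha1 haK hXb (b0 := 0) le_rfl hb10 hz (fun v hv => by
      rw [zero_add, norm_mul]
      calc ‖ee (F v) j - ee (F z) j‖ * ‖Q v i‖ ≤
            (M2 * (12 * A) * Real.sqrt D * Real.sqrt ‖1 - (inner ℂ v z : ℂ)‖) * (2 * A) :=
            mul_le_mul (hlip v z hv hz j) (hQj v hv.le i) (norm_nonneg _) (by positivity)
        _ = b1 * Real.sqrt ‖1 - (inner ℂ v z : ℂ)‖ := by rw [hb1]; ring)
    refine h3.trans ?_
    rw [zero_add, div_eq_mul_one_div b1]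
    calc CT m * (((K * l : ℕ) : ℝ) / a) ^ (m + 1) * (b1 * (1 / Real.sqrt a)) ≤
          CT m * (3 * K) ^ (m + 1) * (b1 * (2 / Real.sqrt l)) := by
          refine mul_le_mul (mul_le_mul_of_nonneg_left hrat1 hCT.le)
            (mul_le_mul_of_nonneg_left hsa hb10) (by positivity) (by positivity)
      _ = c1 * η := by
          rw [hc1, hη, hb1, hκ]
          ring
  -- the function `σ`
  set σ : E m → ℂ := fun z => -∑ j, A' j j z with hσ
  have hσg : Gr (a + 1) (2 * (K * l)) σ := (Gr.sum _ fun j _ => hA'g j j).neg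
  have hσd := hσg.diff
  have hσb : ∀ z, ‖z‖ ≤ 1 → ‖σ z‖ ≤ S0 := by
    intro z hz
    rw [hσ]
    simp only
    rw [norm_neg]
    refine (norm_sum_le _ _).trans ?_
    refine (Finset.sum_le_card_nsmul _ _ _ fun j _ => hA'b j j z hz).trans ?_
    rw [nsmul_eq_mul, Finset.card_univ, Fintype.card_fin, hS0]
    linarith
  have hσK : ∀ z, ‖z‖ ≤ 1 → ‖σ z ^ k0‖ ≤ b := fun z hz => by
    rw [norm_pow]
    exact pow_le_pow_left₀ (norm_nonneg _) (hσb z hz) k0
  -- the iteration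
  obtain ⟨Φ, hΦb, hGΦ, hΦh⟩ := hslice m (fun z j => F z j + Q z j)
    (fun j => (H.Fg j).diff.add (H.Qg j).diff) H.Gb
  have hSd : Sd A B (K * l) (fun z j => F z j + Q z j) Φ := by
    refine ⟨by omega, hA0.le, fun j => ?_, hGj, hΦb, hGΦ, hΦh⟩
    exact ((H.Fg j).mono le_rfl (by omega)).add ((H.Qg j).mono (Nat.zero_le _) le_rfl)
  set M : ℕ := q * a with hM
  have hM1 : 1 ≤ M := Nat.mul_pos hq1 ha1
  have hM0 : (0:ℝ) < M := by exact_mod_cast hM1
  have h2p : 12 * K ≤ 2 ^ p0 := by rw [hp0]; exact Nat.lt_two_pow_self.le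
  have hKa : 4 * (K * l) ≤ 12 * K * a := by
    calc 4 * (K * l) ≤ 4 * (K * (3 * a)) := Nat.mul_le_mul_left _ (Nat.mul_le_mul_left _ ha3)
      _ = 12 * K * a := by ring
  have hdeg : 2 * q * (2 * (K * l)) ≤ 2 ^ p0 * M := by
    calc 2 * q * (2 * (K * l)) = q * (4 * (K * l)) := by ring
      _ ≤ q * (12 * K * a) := Nat.mul_le_mul_left _ hKa
      _ = 12 * K * (q * a) := by ring
      _ ≤ 2 ^ p0 * M := Nat.mul_le_mul_right _ h2p
  have hDM : K * l ≤ 2 ^ p0 * M := by
    refine le_trans ?_ hdeg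
    calc K * l = 1 * (K * l) := (one_mul _).symm
      _ ≤ (2 * q * 2) * (K * l) := Nat.mul_le_mul_right _ (by omega)
      _ = _ := by ring
  have hR0 : Gr (2 * M) (2 ^ p0 * M) (fun z => σ z ^ k0) := by
    refine (hσg.pow k0).mono ?_ ?_
    · rw [hM, hk0]
      calc 2 * (q * a) = 2 * q * a := by ring
        _ ≤ 2 * q * (a + 1) := Nat.mul_le_mul_left _ (Nat.le_succ a)
    · exact hdeg
  have hcontr : 48 * (CT m * 2 ^ (m + 1)) * N * A * B *
      (Real.sqrt ((K * l : ℕ) : ℝ) / Real.sqrt M) ≤ 1 / 2 := by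
    rw [← hX0, mul_div_assoc', div_le_iff₀ (Real.sqrt_pos.2 hM0)]
    have h3 : (2 * X0 * Real.sqrt ((K * l : ℕ) : ℝ)) ≤ Real.sqrt M := by
      apply Real.le_sqrt_of_sq_le
      rw [mul_pow, Real.sq_sqrt (Nat.cast_nonneg _)]
      push_cast
      have h4 : (l:ℝ) ≤ 3 * a := by exact_mod_cast ha3
      calc (2 * X0) ^ 2 * ((K:ℝ) * l) ≤ (2 * X0) ^ 2 * ((K:ℝ) * (3 * a)) := by gcongr
        _ = (4 * X0 ^ 2 * (3 * K)) * a := by ring
        _ ≤ q * a := mul_le_mul_of_nonneg_right hqr ha0.le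
        _ = (M:ℝ) := by rw [hM]; push_cast; ring
    linarith
  obtain ⟨V, R, hVd, hRg, hRb, hVb, hVe⟩ := iter2 hSd hM1 hB hcontr hDM hR0 hσK J
  have hVb' : ∀ j z, ‖z‖ ≤ 1 → ‖V j z‖ ≤ V0 := hVb
  have hRb' : ∀ z, ‖z‖ ≤ 1 → ‖R z‖ ≤ 1 / 2 := by
    intro z hz
    refine (hRb z hz).trans ?_
    calc (1 / 2 : ℝ) ^ J * b ≤ 1 / (2 * b) * b := mul_le_mul_of_nonneg_right hJ.le (by linarith)
      _ = 1 / 2 := by field_simp
  have hRd := hRg.diff
  -- the inverse
  have hRu : ∀ z, ‖z‖ ≤ 1 → 1 / 2 ≤ ‖1 - R z‖ := by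
    intro z hz
    have h1 := norm_sub_norm_le (1:ℂ) (R z)
    rw [norm_one] at h1
    have := hRb' z hz
    linarith
  set U : E m → ℂ := fun z => (1 - R z)⁻¹ with hU
  have hUb : ∀ z, ‖z‖ ≤ 1 → ‖U z‖ ≤ 2 := by
    intro z hz
    rw [hU]
    beta_reduce
    rw [norm_inv, inv_eq_one_div, div_le_iff₀ (by linarith [hRu z hz])]
    linarith [hRu z hz]
  have hUe : ∀ z, ‖z‖ ≤ 1 → (1 - R z) * U z = 1 := fun z hz => by
    rw [hU]
    refine mul_inv_cancel₀ ?_
    intro h0
    have := hRu z hz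
    rw [h0, norm_zero] at this
    norm_num at this
  set g : E m → ℂ := fun z => ∑ k ∈ Finset.range k0, σ z ^ k with hg
  -- the degrees
  have haY : a ≤ l := by omega
  have hMY : M ≤ q * l := by rw [hM]; exact Nat.mul_le_mul_left _ haY
  have hY1 : 2 * (K * l) ≤ Y * l := by
    rw [hY, add_mul, mul_assoc 2 K l]
    omega
  have hY2 : k0 * (2 * (K * l)) ≤ Y * l := by
    rw [hY, add_mul, add_mul]
    have : k0 * (2 * (K * l)) = 2 * K * k0 * l := by ring
    omega
  have hY3 : 2 * (2 ^ (p0 + 2 * J) * M) ≤ Y * l := by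
    rw [hY, add_mul, add_mul]
    have h1 : 2 * (2 ^ (p0 + 2 * J) * M) ≤ 2 * (2 ^ (p0 + 2 * J) * (q * l)) :=
      Nat.mul_le_mul_left _ (Nat.mul_le_mul_left _ hMY)
    have : 2 * (2 ^ (p0 + 2 * J) * (q * l)) = 2 * (2 ^ (p0 + 2 * J) * q) * l := by ring
    omega
  have hYl1 : 1 ≤ Y * l := by
    have : 1 ≤ K * l := Nat.mul_pos hK (by omega)
    omega
  have hgg : Gr 0 (Y * l) g := by
    rw [hg]
    refine Gr.sum _ fun k hk => ?_
    rw [Finset.mem_range] at hk
    refine (hσg.pow k).mono (Nat.zero_le _) (le_trans ?_ hY2)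
    exact Nat.mul_le_mul_right _ hk.le
  have hgb : ∀ z, ‖z‖ ≤ 1 → ‖g z‖ ≤ G0 := by
    intro z hz
    rw [hg]
    refine (norm_sum_le _ _).trans ?_
    refine (Finset.sum_le_sum fun k _ => ?_).trans (pow_sum_le hS01 k0)
    rw [norm_pow]
    exact pow_le_pow_left₀ (norm_nonneg _) (hσb z hz) k
  refine ⟨fun i j z => (A' i j z * g z + Q z i * V j z) * U z, fun i j => ?_,
    fun z hz i => ⟨fun j => ?_, ?_⟩⟩
  · have f1 := Lc.of_gr hYl1 ((hA'g i j).mono (Nat.zero_le _) hY1) hbA0 (hA'b i j)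
    have f2 := Lc.of_gr hYl1 hgg hG00 hgb
    have f3 := Lc.of_gr hYl1 ((H.Qg i).mono (Nat.zero_le _) (by omega)) (by positivity)
      (fun z hz => hQj z hz i)
    have f4 := Lc.of_gr hYl1 ((hVd j).mono le_rfl hY3) hV00 (hVb' j)
    have f5 := Lc.of_gr hYl1 (hRg.mono (Nat.zero_le _) (by omega)) (by norm_num) hRb'
    have f6 := ((Lc.const (m := m) 1).sub f5).inv (c := 1 / 2) (by norm_num) hRu
    have f7 := ((f1.mul f2).add (f3.mul f4)).mul f6
    have es : Real.sqrt ((Y * l : ℕ) : ℝ) = Real.sqrt Y * Real.sqrt l := by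
      push_cast
      exact Real.sqrt_mul (Nat.cast_nonneg _) _
    refine f7.mono ?_ ?_
    · have e1 : (bA * G0 + 2 * A * V0) * (1 / (1 / 2)) = 2 * X1 := by rw [hX1]; ring
      rw [e1, hC]
      have h1 : 0 ≤ M2 * G0 := by positivity
      have h2 : 0 ≤ c1 * G0 := by positivity
      have h3 : 0 ≤ 6 * N * A * c1 * G0 := by positivity
      linarith
    · rw [es]
      have e1 : (bA * G0 + 2 * A * V0) * ((0 + 12 * (1 / 2) * (Real.sqrt Y * Real.sqrt l)) /
          (1 / 2) ^ 2) + 1 / (1 / 2) * (bA * (12 * G0 * (Real.sqrt Y * Real.sqrt l)) +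
          G0 * (12 * bA * (Real.sqrt Y * Real.sqrt l)) +
          (2 * A * (12 * V0 * (Real.sqrt Y * Real.sqrt l)) +
          V0 * (12 * (2 * A) * (Real.sqrt Y * Real.sqrt l)))) = X2 * Real.sqrt l := by
        rw [hX2, hX1]; ring
      rw [e1]
      refine mul_le_mul_of_nonneg_right ?_ hsl.le
      rw [hC]
      have h1 : 0 ≤ M2 * G0 := by positivity
      have h2 : 0 ≤ c1 * G0 := by positivity
      have h3 : 0 ≤ 6 * N * A * c1 * G0 := by positivity
      linarith
  · have h1 : ‖A' i j z‖ ≤ M2 * ‖Q z i‖ + c1 * η := by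
      have e1 : A' i j z = ee (F z) j * Q z i + (A' i j z - ee (F z) j * Q z i) := by ring
      rw [e1]
      refine (norm_add_le _ _).trans (add_le_add ?_ (hA'e i j z hz))
      rw [norm_mul]
      exact mul_le_mul_of_nonneg_right (heb z hz j) (norm_nonneg _)
    have hP0 := norm_nonneg (Q z i)
    rw [norm_mul]
    have h3 : ‖A' i j z * g z + Q z i * V j z‖ ≤ (M2 * G0 + V0) * ‖Q z i‖ + (c1 * G0) * η := by
      refine (norm_add_le _ _).trans ?_
      rw [norm_mul, norm_mul]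
      calc ‖A' i j z‖ * ‖g z‖ + ‖Q z i‖ * ‖V j z‖ ≤ (M2 * ‖Q z i‖ + c1 * η) * G0 + ‖Q z i‖ * V0 :=
            add_le_add (mul_le_mul h1 (hgb z hz) (norm_nonneg _) (by positivity))
              (mul_le_mul_of_nonneg_left (hVb' j z hz) hP0)
        _ = _ := by ring
    calc ‖A' i j z * g z + Q z i * V j z‖ * ‖U z‖ ≤
          ((M2 * G0 + V0) * ‖Q z i‖ + (c1 * G0) * η) * 2 :=
          mul_le_mul h3 (hUb z hz) (norm_nonneg _) (by positivity)
      _ = (2 * (M2 * G0 + V0)) * ‖Q z i‖ + (2 * (c1 * G0)) * η := by ring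
      _ ≤ C * ‖Q z i‖ + C * η := by
          have h4 : 0 ≤ M2 * G0 := by positivity
          have h5 : 0 ≤ c1 * G0 := by positivity
          have h6 : 0 ≤ 6 * N * A * c1 * G0 := by positivity
          refine add_le_add (mul_le_mul_of_nonneg_right ?_ hP0)
            (mul_le_mul_of_nonneg_right ?_ hη0)
          · rw [hC]
            linarith
          · rw [hC]
            linarith
      _ = C * (‖Q z i‖ + η) := by ring
  · -- the equation
    set T : ℂ := ∑ j, A' i j z * (F z j + Q z j) - Q z i * (1 - σ z) with hT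
    have hTb : ‖T‖ ≤ 6 * N * A * c1 * η := by
      have e1 : T = ∑ j, (A' i j z - ee (F z) j * Q z i) * F z j +
          (∑ j, (A' i j z - ee (F z) j * Q z i) * Q z j +
            ∑ j, Q z i * -(A' j j z - ee (F z) j * Q z j)) := by
        have h1 : ∑ j, (A' i j z - ee (F z) j * Q z i) * F z j =
            ∑ j, A' i j z * F z j - Q z i := by
          have h2 : ∑ j, (A' i j z - ee (F z) j * Q z i) * F z j =
              ∑ j, A' i j z * F z j - Q z i * ∑ j, F z j * ee (F z) j := by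
            rw [Finset.mul_sum, ← Finset.sum_sub_distrib]
            exact Finset.sum_congr rfl fun j _ => by ring
          rw [h2, a_ee (hns z hz), mul_one]
        have h3 : ∑ j, (A' i j z - ee (F z) j * Q z i) * Q z j +
            ∑ j, Q z i * -(A' j j z - ee (F z) j * Q z j) = ∑ j, A' i j z * Q z j + Q z i * σ z := by
          rw [hσ]
          simp only
          rw [mul_neg, Finset.mul_sum, ← Finset.sum_add_distrib, ← sub_eq_add_neg,
            ← Finset.sum_sub_distrib]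
          exact Finset.sum_congr rfl fun j _ => by ring
        rw [h1, h3, hT]
        have h4 : ∑ j, A' i j z * (F z j + Q z j) = ∑ j, A' i j z * F z j +
            ∑ j, A' i j z * Q z j := by
          rw [← Finset.sum_add_distrib]
          exact Finset.sum_congr rfl fun j _ => by ring
        rw [h4]
        ring
      have hc1η : 0 ≤ c1 * η := by positivity
      have b1 : ‖∑ j, (A' i j z - ee (F z) j * Q z i) * F z j‖ ≤ N * (c1 * η * (2 * A)) := by
        refine (norm_sum_le _ _).trans ?_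
        refine (Finset.sum_le_card_nsmul _ _ (c1 * η * (2 * A)) fun j _ => ?_).trans
          (le_of_eq ?_)
        · rw [norm_mul]
          refine mul_le_mul (hA'e i j z hz) ((hFj z hz j).trans ?_) (norm_nonneg _) hc1η
          linarith
        · rw [nsmul_eq_mul, Finset.card_univ, Fintype.card_fin]
      have b2 : ‖∑ j, (A' i j z - ee (F z) j * Q z i) * Q z j‖ ≤ N * (c1 * η * (2 * A)) := by
        refine (norm_sum_le _ _).trans ?_
        refine (Finset.sum_le_card_nsmul _ _ (c1 * η * (2 * A)) fun j _ => ?_).trans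
          (le_of_eq ?_)
        · rw [norm_mul]
          exact mul_le_mul (hA'e i j z hz) (hQj z hz j) (norm_nonneg _) hc1η
        · rw [nsmul_eq_mul, Finset.card_univ, Fintype.card_fin]
      have b3 : ‖∑ j, Q z i * -(A' j j z - ee (F z) j * Q z j)‖ ≤ N * (c1 * η * (2 * A)) := by
        refine (norm_sum_le _ _).trans ?_
        refine (Finset.sum_le_card_nsmul _ _ (c1 * η * (2 * A)) fun j _ => ?_).trans
          (le_of_eq ?_)
        · rw [norm_mul, norm_neg, mul_comm]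
          exact mul_le_mul (hA'e j j z hz) (hQj z hz i) (norm_nonneg _) hc1η
        · rw [nsmul_eq_mul, Finset.card_univ, Fintype.card_fin]
      rw [e1]
      refine (norm_add_le _ _).trans ?_
      have := norm_add_le (∑ j, (A' i j z - ee (F z) j * Q z i) * Q z j)
        (∑ j, Q z i * -(A' j j z - ee (F z) j * Q z j))
      have e2 : 6 * N * A * c1 * η = N * (c1 * η * (2 * A)) + (N * (c1 * η * (2 * A)) +
          N * (c1 * η * (2 * A))) := by
        ring
      rw [e2]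
      linarith
    have hgeo2 : (1 - σ z) * g z = 1 - σ z ^ k0 := by
      rw [hg]
      exact mul_neg_geom_sum (σ z) k0
    have e1 : ∑ j, (A' i j z * g z + Q z i * V j z) * U z * (F z j + Q z j) - Q z i =
        T * g z * U z := by
      have h1 : ∑ j, (A' i j z * g z + Q z i * V j z) * U z * (F z j + Q z j) =
          ((∑ j, A' i j z * (F z j + Q z j)) * g z +
            Q z i * ∑ j, (F z j + Q z j) * V j z) * U z := by
        have h0 : (∑ j, A' i j z * (F z j + Q z j)) * g z +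
            Q z i * ∑ j, (F z j + Q z j) * V j z =
            ∑ j, (A' i j z * g z + Q z i * V j z) * (F z j + Q z j) := by
          rw [Finset.sum_mul, Finset.mul_sum, ← Finset.sum_add_distrib]
          exact Finset.sum_congr rfl fun j _ => by ring
        rw [h0, Finset.sum_mul]
        exact Finset.sum_congr rfl fun j _ => by ring
      rw [h1, hVe z, hT]
      linear_combination (Q z i * U z) * hgeo2 + (Q z i) * hUe z hz
    rw [e1]
    rw [norm_mul, norm_mul]
    have b1 : ‖T‖ * ‖g z‖ * ‖U z‖ ≤ 6 * N * A * c1 * η * G0 * 2 :=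
      mul_le_mul (mul_le_mul hTb (hgb z hz) (norm_nonneg _) (by positivity)) (hUb z hz)
        (norm_nonneg _) (by positivity)
    have h5 : 6 * N * A * c1 * η * G0 * 2 ≤ C * η := by
      have h6 : 6 * N * A * c1 * η * G0 * 2 = (2 * (6 * N * A * c1 * G0)) * η := by ring
      rw [h6]
      refine mul_le_mul_of_nonneg_right ?_ hη0
      rw [hC]
      have h1 : 0 ≤ M2 * G0 := by positivity
      have h2 : 0 ≤ c1 * G0 := by positivity
      linarith
    linarith

end Pool.Agent.K9h23.Mix
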