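import Mathlib
import Pool.Agent.K9h23.Mix.Lrg
import Pool.Agent.K9h23.Mix.Qua

/-!
The stage for large bands: the new approximate solution.
-/

set_option autoImplicit false

open MeasureTheory Set Complex Metric
open scoped Real

namespace Pool.Agent.K9h23.Mix

open Pool.Agent.K9h23.Hom Pool.Agent.K9h23.Bnd
open Pool.Agent.K9h23.Lac (nsq nsq_nonneg nsq_c nn nn_nonneg nn_sq nn_add_le le_nsq nsq_smul' bd
  bd_le_nn comp_le_nn nsq_conj nn_le_comp)

variable {m N : ℕ}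

/-- the inverse of a number close to `1` -/
theorem inv_exp {g : ℂ} {t : ℝ} (h : ‖g - 1‖ ≤ t) (ht : t ≤ 1 / 2) : ‖g⁻¹‖ ≤ Real.exp (2 * t) := by
  have ht0 : 0 ≤ t := (norm_nonneg _).trans h
  have h1 := norm_sub_norm_le (1:ℂ) (1 - g)
  rw [sub_sub_cancel, norm_one, norm_sub_rev] at h1
  have h2 : 1 - t ≤ ‖g‖ := by linarith
  have h3 : 0 < ‖g‖ := by linarith
  have h4 := Real.add_one_le_exp (2 * t)
  rw [norm_inv, inv_eq_one_div, div_le_iff₀ h3]
  have h5 : 1 ≤ (2 * t + 1) * (1 - t) := by nlinarith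
  have h6 : (2 * t + 1) * (1 - t) ≤ Real.exp (2 * t) * ‖g‖ :=
    mul_le_mul h4 h2 (by linarith) (Real.exp_pos _).le
  linarith

/-- **The large stage.** -/
theorem lstage (m N K : ℕ) (hK : 1 ≤ K) {δ : ℝ} (hδ : 0 < δ) : ∃ C1 : ℝ, 1 ≤ C1 ∧
    ∀ B : ℝ, 1 ≤ B → ∃ b : ℝ, 1 ≤ b ∧ ∃ C : ℝ, 1 ≤ C ∧ ∀ Λ : ℝ, 0 ≤ Λ →
      ∀ (D l : ℕ) (F H Q : E m → Fin N → ℂ), Bz δ 2 K D l F Q →
      (∀ j, Lc B (Λ * Real.sqrt D) (fun z => H z j)) → (∀ z, ‖z‖ ≤ 1 → nn (H z) ≤ B) →
      (∀ z, ‖z‖ ≤ 1 → bd (F z) (H z) = 1) →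
      C * (Real.sqrt D / Real.sqrt l) ≤ 1 → ∃ H' : E m → Fin N → ℂ,
      (∀ j, Lc b (b * (Real.sqrt l + Λ * Real.sqrt D)) (fun z => H' z j)) ∧
      (∀ z, ‖z‖ ≤ 1 → bd (fun j => F z j + Q z j) (H' z) = 1) ∧
      ∀ z, ‖z‖ ≤ 1 → nn (H' z) ≤ nn (H z) * Real.exp (C1 * ∑ a, ‖Q z a‖ +
          C * (Real.sqrt D / Real.sqrt l)) ∧
        ∀ j, ‖H' z j - H z j‖ ≤ C * (nn (Q z) + Real.sqrt D / Real.sqrt l) := by
  have hN0 : (0:ℝ) ≤ N := Nat.cast_nonneg N
  obtain ⟨C1, hC1, hst⟩ := bstage2 m N K hK hδ (A := 2) (by norm_num)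
  refine ⟨(N + 1) * C1, by nlinarith, fun B hB => ?_⟩
  have hC10 : 0 ≤ C1 := by linarith
  have hB0 : 0 ≤ B := by linarith
  set B1 : ℝ := B + N * (B * C1) with hB1
  have hB10 : 0 ≤ B1 := by positivity
  set k1 : ℝ := (8 * N * B1 + 2) * (1 + N * C1) with hk1
  have hk10 : 0 ≤ k1 := by positivity
  set k2 : ℝ := (8 * N * B1 + 2) * (N * (B * C1)) + 96 * N * B1 ^ 2 * Real.sqrt K with hk2
  have hk20 : 0 ≤ k2 := by positivity
  set C : ℝ := 1 + (N + 1) * C1 * N + 2 * (N * (B * C1)) + N * (B * C1) +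
    2 * B1 * (N * (B * C1)) with hC
  have t1 : 0 ≤ (N + 1) * C1 * N := by positivity
  have t2 : 0 ≤ N * (B * C1) := by positivity
  have t3 : 0 ≤ 2 * B1 * (N * (B * C1)) := by positivity
  refine ⟨1 + 2 * B1 + k1 + k2, by linarith, C, by rw [hC]; linarith,
    fun Λ hΛ D l F H Q S hHl hHb hbd hsm => ?_⟩
  obtain ⟨M, hMl, hMb⟩ := hst D l F Q S
  set η : ℝ := Real.sqrt D / Real.sqrt l with hη
  have hη0 : 0 ≤ η := by positivity
  have hsl0 : 0 ≤ Real.sqrt (l:ℝ) := Real.sqrt_nonneg _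
  have hl2 := S.l2
  have hDl := S.Dl
  have hHj : ∀ z, ‖z‖ ≤ 1 → ∀ j, ‖H z j‖ ≤ B := fun z hz j =>
    (comp_le_nn _ j).trans (hHb z hz)
  set H1 : E m → Fin N → ℂ := fun z j => H z j - ∑ a, H z a * M a j z with hH1
  set L1 : ℝ := Λ * Real.sqrt D + N * (B * (C1 * Real.sqrt l) + C1 * (Λ * Real.sqrt D)) with hL1
  have lH1 : ∀ j, Lc B1 L1 (fun z => H1 z j) := by
    intro j
    have h1 := Lc.sum Finset.univ (u := fun a z => H z a * M a j z) (b := B * C1)
      (L := B * (C1 * Real.sqrt l) + C1 * (Λ * Real.sqrt D)) (by positivity)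
      fun a _ => (hHl a).mul (hMl a j)
    rw [Finset.card_univ, Fintype.card_fin] at h1
    exact (hHl j).sub h1
  have hQ4 : ∀ z, ‖z‖ ≤ 1 → ∀ a, ‖Q z a‖ ≤ nn (Q z) := fun z _ a => comp_le_nn _ a
  -- the difference
  have hdif : ∀ z, ‖z‖ ≤ 1 → ∀ j, ‖∑ a, H z a * M a j z‖ ≤
      C1 * nn (H z) * (∑ a, ‖Q z a‖ + N * η) := by
    intro z hz j
    refine (norm_sum_le _ _).trans ?_
    refine (Finset.sum_le_sum (g := fun a => C1 * nn (H z) * (‖Q z a‖ + η)) fun a _ => ?_).trans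
      (le_of_eq ?_)
    · rw [norm_mul]
      have h1 := (hMb z hz a).1 j
      calc ‖H z a‖ * ‖M a j z‖ ≤ nn (H z) * (C1 * (‖Q z a‖ + η)) :=
            mul_le_mul (comp_le_nn _ a) h1 (norm_nonneg _) (nn_nonneg _)
        _ = _ := by ring
    · rw [← Finset.mul_sum, Finset.sum_add_distrib, Finset.sum_const, Finset.card_univ,
        Fintype.card_fin, nsmul_eq_mul]
  -- the product
  set G : E m → ℂ := fun z => ∑ j, (F z j + Q z j) * H1 z j with hG
  have hGb : ∀ j z, ‖z‖ ≤ 1 → ‖F z j + Q z j‖ ≤ 2 := fun j z hz =>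
    (comp_le_nn (fun j => F z j + Q z j) j).trans (S.Gb z hz).2
  have hKl1 : 1 ≤ K * l := Nat.mul_pos hK (by omega)
  have hlK : l ≤ K * l := Nat.le_mul_of_pos_left _ hK
  have lG : ∀ j, Lc 2 (24 * (Real.sqrt K * Real.sqrt l)) (fun z => F z j + Q z j) := by
    intro j
    have h1 : Gr 0 (K * l) (fun z => F z j + Q z j) :=
      ((S.Fg j).mono le_rfl (by omega)).add ((S.Qg j).mono (Nat.zero_le _) le_rfl)
    refine (Lc.of_gr hKl1 h1 (by norm_num) (hGb j)).mono le_rfl (le_of_eq ?_)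
    push_cast
    rw [Real.sqrt_mul (Nat.cast_nonneg _)]
    ring
  set LG : ℝ := N * (2 * L1 + B1 * (24 * (Real.sqrt K * Real.sqrt l))) with hLG
  have lGG : Lc (N * (2 * B1)) LG G := by
    have h1 := Lc.sum Finset.univ (u := fun j z => (F z j + Q z j) * H1 z j)
      (b := 2 * B1) (L := 2 * L1 + B1 * (24 * (Real.sqrt K * Real.sqrt l))) (by positivity)
      fun j _ => (lG j).mul (lH1 j)
    rwa [Finset.card_univ, Fintype.card_fin] at h1
  have hG1 : ∀ z, ‖z‖ ≤ 1 → ‖G z - 1‖ ≤ N * (B * C1) * η := by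
    intro z hz
    have h1 : G z - 1 = -∑ a, H z a * (∑ j, M a j z * (F z j + Q z j) - Q z a) := by
      have h2 : G z = ∑ j, F z j * H z j + ∑ j, Q z j * H z j -
          ∑ a, H z a * ∑ j, M a j z * (F z j + Q z j) := by
        have h3 : ∑ a, H z a * ∑ j, M a j z * (F z j + Q z j) =
            ∑ j, (F z j + Q z j) * ∑ a, H z a * M a j z := by
          simp_rw [Finset.mul_sum]
          rw [Finset.sum_comm]
          exact Finset.sum_congr rfl fun j _ => Finset.sum_congr rfl fun a _ => by ring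
        rw [h3, ← Finset.sum_add_distrib, ← Finset.sum_sub_distrib, hG]
        exact Finset.sum_congr rfl fun j _ => by ring
      have h4 : ∑ j, F z j * H z j = 1 := hbd z hz
      rw [h2, h4]
      have h5 : ∑ a, H z a * (∑ j, M a j z * (F z j + Q z j) - Q z a) =
          ∑ a, H z a * ∑ j, M a j z * (F z j + Q z j) - ∑ a, Q z a * H z a := by
        rw [← Finset.sum_sub_distrib]
        exact Finset.sum_congr rfl fun a _ => by ring
      rw [h5]
      ring
    rw [h1, norm_neg]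
    refine (norm_sum_le _ _).trans ?_
    refine (Finset.sum_le_card_nsmul _ _ (B * (C1 * η)) fun a _ => ?_).trans (le_of_eq ?_)
    · rw [norm_mul]
      exact mul_le_mul (hHj z hz a) (hMb z hz a).2 (norm_nonneg _) hB0
    · rw [nsmul_eq_mul, Finset.card_univ, Fintype.card_fin]
      ring
  have hsm2 : N * (B * C1) * η ≤ 1 / 2 := by
    have h1 : 2 * (N * (B * C1)) * η ≤ C * η :=
      mul_le_mul_of_nonneg_right (by rw [hC]; linarith) hη0
    linarith
  have hG2 : ∀ z, ‖z‖ ≤ 1 → 1 / 2 ≤ ‖G z‖ := by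
    intro z hz
    have h1 := norm_sub_norm_le (1:ℂ) (1 - G z)
    rw [sub_sub_cancel, norm_one, norm_sub_rev] at h1
    have := hG1 z hz
    linarith
  have hG0 : ∀ z, ‖z‖ ≤ 1 → G z ≠ 0 := fun z hz => norm_pos_iff.1 (by linarith [hG2 z hz])
  have lGi := lGG.inv (c := 1 / 2) (by norm_num) hG2
  refine ⟨fun z j => H1 z j * (G z)⁻¹, fun j => ?_, fun z hz => ?_, fun z hz => ⟨?_, fun j => ?_⟩⟩
  · refine ((lH1 j).mul lGi).mono ?_ ?_
    · have : B1 * (1 / (1 / 2)) = 2 * B1 := by ring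
      rw [this]
      linarith
    · have h1 : B1 * (LG / (1 / 2) ^ 2) + 1 / (1 / 2) * L1 =
          k2 * Real.sqrt l + k1 * (Λ * Real.sqrt D) := by
        rw [hLG, hL1, hk1, hk2]
        ring
      rw [h1]
      have h2 : 0 ≤ Λ * Real.sqrt D := by positivity
      have h3 : k2 * Real.sqrt l ≤ (1 + 2 * B1 + k1 + k2) * Real.sqrt l :=
        mul_le_mul_of_nonneg_right (by linarith) hsl0
      have h4 : k1 * (Λ * Real.sqrt D) ≤ (1 + 2 * B1 + k1 + k2) * (Λ * Real.sqrt D) :=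
        mul_le_mul_of_nonneg_right (by linarith) h2
      rw [mul_add]
      linarith
  · have h0 := hG0 z hz
    unfold bd
    have h1 : ∑ j, (F z j + Q z j) * (H1 z j * (G z)⁻¹) = G z * (G z)⁻¹ := by
      rw [hG, Finset.sum_mul]
      exact Finset.sum_congr rfl fun j _ => by ring
    rw [h1, mul_inv_cancel₀ h0]
  · -- the size
    set w : ℝ := ∑ a, ‖Q z a‖ with hw
    have hw0 : 0 ≤ w := Finset.sum_nonneg fun _ _ => norm_nonneg _
    have hn0 := nn_nonneg (H z)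
    set x : ℝ := (N + 1) * C1 * (w + N * η) with hx
    have hx0 : 0 ≤ x := by positivity
    have h1 : nn (H1 z) ≤ nn (H z) * Real.exp x := by
      have h2 := nn_add_le (H z) (fun j => -∑ a, H z a * M a j z)
      have e : (fun j => H z j + -∑ a, H z a * M a j z) = H1 z := by
        funext j
        rw [hH1]
        ring
      rw [e] at h2
      have h3 : nn (fun j => -∑ a, H z a * M a j z) ≤ (N + 1) * (C1 * nn (H z) * (w + N * η)) :=
        nn_le_comp (by positivity) fun j => by rw [norm_neg]; exact hdif z hz j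
      have h4 := Real.add_one_le_exp x
      calc nn (H1 z) ≤ nn (H z) + (N + 1) * (C1 * nn (H z) * (w + N * η)) := by linarith
        _ = nn (H z) * (x + 1) := by rw [hx]; ring
        _ ≤ _ := mul_le_mul_of_nonneg_left h4 hn0
    have h2 := inv_exp (hG1 z hz) hsm2
    have e : (fun j => H1 z j * (G z)⁻¹) = fun j => (G z)⁻¹ * H1 z j := by
      funext j; ring
    change nn (fun j => H1 z j * (G z)⁻¹) ≤ _
    rw [e, nn_smul]
    have h5 : ‖(G z)⁻¹‖ * nn (H1 z) ≤ Real.exp (2 * (N * (B * C1) * η)) *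
        (nn (H z) * Real.exp x) := mul_le_mul h2 h1 (nn_nonneg _) (Real.exp_pos _).le
    refine h5.trans ?_
    have h6 : Real.exp (2 * (N * (B * C1) * η)) * (nn (H z) * Real.exp x) =
        nn (H z) * Real.exp (2 * (N * (B * C1) * η) + x) := by
      rw [Real.exp_add]; ring
    rw [h6]
    refine mul_le_mul_of_nonneg_left (Real.exp_le_exp.2 ?_) hn0
    have h7 : ((N + 1) * C1 * N + 2 * (N * (B * C1))) * η ≤ C * η :=
      mul_le_mul_of_nonneg_right (by rw [hC]; linarith) hη0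
    rw [hx]
    nlinarith
  · have h0 := hG0 z hz
    have h1 : H1 z j * (G z)⁻¹ - H z j = H1 z j * (-(G z - 1) / G z) -
        ∑ a, H z a * M a j z := by
      have : H z j = H1 z j + ∑ a, H z a * M a j z := by rw [hH1]; ring
      rw [this]
      field_simp
      ring
    change ‖H1 z j * (G z)⁻¹ - H z j‖ ≤ _
    rw [h1]
    refine (norm_sub_le _ _).trans ?_
    have h2 : ‖H1 z j * (-(G z - 1) / G z)‖ ≤ B1 * (2 * (N * (B * C1)) * η) := by
      rw [norm_mul]
      refine mul_le_mul ((lH1 j).bd z hz) ?_ (norm_nonneg _) hB10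
      rw [norm_div, norm_neg, div_le_iff₀ (by linarith [hG2 z hz])]
      have h3 := hG1 z hz
      have h4 := hG2 z hz
      have h5 : 0 ≤ 2 * (N * (B * C1)) * η := by positivity
      nlinarith
    have h3 : ‖∑ a, H z a * M a j z‖ ≤ N * (B * C1) * (nn (Q z) + η) := by
      refine (norm_sum_le _ _).trans ?_
      refine (Finset.sum_le_card_nsmul _ _ (B * (C1 * (nn (Q z) + η))) fun a _ => ?_).trans
        (le_of_eq ?_)
      · rw [norm_mul]
        refine mul_le_mul (hHj z hz a) (((hMb z hz a).1 j).trans ?_) (norm_nonneg _) hB0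
        exact mul_le_mul_of_nonneg_left (by linarith [hQ4 z hz a]) hC10
      · rw [nsmul_eq_mul, Finset.card_univ, Fintype.card_fin]
        ring
    have hnQ := nn_nonneg (Q z)
    have h4 : (2 * B1 * (N * (B * C1)) + N * (B * C1)) * η ≤ C * η :=
      mul_le_mul_of_nonneg_right (by rw [hC]; linarith) hη0
    have h5 : N * (B * C1) * nn (Q z) ≤ C * nn (Q z) :=
      mul_le_mul_of_nonneg_right (by rw [hC]; linarith) hnQ
    rw [mul_add C]
    linarith

end Pool.Agent.K9h23.Mix
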