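import Mathlib
import Pool.Agent.K9h23.Mix.Qua

/-!
One stage of the construction for a small block of arbitrary width.
-/

set_option autoImplicit false

open MeasureTheory Set Complex Metric
open scoped Real

namespace Pool.Agent.K9h23.Mix

open Pool.Agent.K9h23.Hom Pool.Agent.K9h23.Bnd
open Pool.Agent.K9h23.Lac (nsq nsq_nonneg nsq_c nn nn_nonneg nn_sq nn_add_le le_nsq nsq_smul' bd
  bd_le_nn comp_le_nn nsq_conj nn_le_comp xx EE UU th yh sg ww cc GG th_mem Adm GG_prop ww_le yh_le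
  xx_le bd_le)

variable {m N : ℕ} {A B : ℝ}

/-- the replacement of finitely many pieces -/
theorem quant_fam {ι : Type*} [Fintype ι] (m : ℕ) {N : ℕ}
    {Ψ : ι → (Fin N → ℂ) → (Fin N → ℂ) → (Fin N → ℂ) → ℂ} (hΨ : ∀ i, Qz N A B (Ψ i)) :
    ∃ b : ℝ, 0 ≤ b ∧ (∀ i, ∀ x ∈ TS N A B, ‖Ψ i x.1 x.2.1 x.2.2‖ ≤ b) ∧
      (∀ i, ∀ x ∈ TS N A B, ∀ y ∈ TS N A B,
        ‖Ψ i x.1 x.2.1 x.2.2 - Ψ i y.1 y.2.1 y.2.2‖ ≤ b * dist x y) ∧
      ∀ Λ : ℝ, 0 ≤ Λ → ∃ C : ℝ, 0 ≤ C ∧ ∀ (s : ℝ) (D l u : ℕ) (F H Q : E m → Fin N → ℂ),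
        Sq A B Λ s D l u F H Q → ∃ R : ι → E m → ℂ, (∀ i, Gr 0 (12 * u) (R i)) ∧
        ∀ i z, ‖z‖ ≤ 1 → ‖R i z - Ψ i (F z) (H z) (Q z)‖ ≤
          C * (s * (Real.sqrt D / Real.sqrt l)) := by
  choose b hb h1 h2 h3 using fun i => quant m N (hΨ i)
  have hle : ∀ i, b i ≤ ∑ i, b i := fun i =>
    Finset.single_le_sum (f := b) (fun i _ => hb i) (Finset.mem_univ i)
  refine ⟨∑ i, b i, Finset.sum_nonneg fun i _ => hb i, fun i x hx => (h1 i x hx).trans (hle i),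
    fun i x hx y hy => (h2 i x hx y hy).trans (mul_le_mul_of_nonneg_right (hle i) dist_nonneg),
    fun Λ hΛ => ?_⟩
  choose C hC h4 using fun i => h3 i Λ hΛ
  have hle2 : ∀ i, C i ≤ ∑ i, C i := fun i =>
    Finset.single_le_sum (f := C) (fun i _ => hC i) (Finset.mem_univ i)
  refine ⟨∑ i, C i, Finset.sum_nonneg fun i _ => hC i, fun s D l u F H Q S => ?_⟩
  have hs0 := S.s0
  choose R hR1 hR2 using fun i => h4 i s D l u F H Q S
  refine ⟨R, hR1, fun i z hz => (hR2 i z hz).trans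
    (mul_le_mul_of_nonneg_right (hle2 i) (by positivity))⟩

theorem nb {x p : ℂ} {e b : ℝ} (h : ‖x - p‖ ≤ e) (hp : ‖p‖ ≤ b) : ‖x‖ ≤ e + b := by
  have h1 := norm_add_le (x - p) p
  rw [sub_add_cancel] at h1
  linarith

/-- the quotients -/
theorem quot_close {x y p q : ℂ} {b e : ℝ} (hb : 0 ≤ b) (he : 0 ≤ e) (hx : ‖x - p‖ ≤ e)
    (hy : ‖y - q‖ ≤ e) (hp : ‖p‖ ≤ b) (hy1 : 1 / 4 ≤ ‖y‖) (hq1 : 1 / 2 ≤ ‖q‖) :
    ‖x * y⁻¹ - p * (1 / q)‖ ≤ (4 + 8 * b) * e := by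
  have hy0 : y ≠ 0 := norm_pos_iff.1 (by linarith)
  have hq0 : q ≠ 0 := norm_pos_iff.1 (by linarith)
  have e1 : x * y⁻¹ - p * (1 / q) = (x - p) / y + p * (-(y - q)) / (y * q) := by
    field_simp
    ring
  rw [e1]
  refine (norm_add_le _ _).trans ?_
  have h1 : ‖(x - p) / y‖ ≤ 4 * e := by
    rw [norm_div, div_le_iff₀ (by linarith)]
    nlinarith
  have h2 : ‖p * (-(y - q)) / (y * q)‖ ≤ 8 * b * e := by
    rw [norm_div, norm_mul, norm_neg, norm_mul, div_le_iff₀ (by positivity)]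
    have h3 : 1 / 8 ≤ ‖y‖ * ‖q‖ := by nlinarith
    calc ‖p‖ * ‖y - q‖ ≤ b * e := mul_le_mul hp hy (norm_nonneg _) hb
      _ = 8 * b * e * (1 / 8) := by ring
      _ ≤ _ := mul_le_mul_of_nonneg_left h3 (by positivity)
  calc _ ≤ 4 * e + 8 * b * e := add_le_add h1 h2
    _ = _ := by ring

/-- **The small stage.** -/
theorem sstage (m N : ℕ) {A B : ℝ} (hA : 4 ≤ A) (hB : 1 ≤ B) : ∃ b : ℝ, 1 ≤ b ∧
    ∀ Λ : ℝ, 0 ≤ Λ → ∃ C : ℝ, 1 ≤ C ∧ ∀ (s : ℝ) (D l u : ℕ) (F H Q : E m → Fin N → ℂ),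
      Sq A B Λ s D l u F H Q → (∀ z, ‖z‖ ≤ 1 → bd (F z) (H z) = 1) →
      C * (s * (Real.sqrt D / Real.sqrt l)) ≤ 1 → ∃ H' : E m → Fin N → ℂ,
      (∀ j, Lc b (b * (Real.sqrt u + Λ * Real.sqrt D)) (fun z => H' z j)) ∧
      (∀ z, ‖z‖ ≤ 1 → bd (fun j => F z j + Q z j) (H' z) = 1) ∧
      ∀ z, ‖z‖ ≤ 1 → ∀ j, ‖H' z j - GG A (F z) (H z) (Q z) j‖ ≤
          C * (s * (Real.sqrt D / Real.sqrt l)) ∧
        ‖H' z j - H z j‖ ≤ C * (nn (Q z) + s * (Real.sqrt D / Real.sqrt l)) := by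
  have hA0 : 0 < A := by linarith
  have hN0 : (0:ℝ) ≤ N := Nat.cast_nonneg N
  obtain ⟨b0, hb0, hq1, hq2, hq3⟩ := quant_fam (A := A) (B := B)
    (ι := Fin N ⊕ (Fin N ⊕ (Fin N ⊕ (Unit ⊕ Unit)))) m (N := N)
    (Ψ := Sum.elim (p1 A) (Sum.elim (p2 A) (Sum.elim (fun j _ => p3 A j)
      (Sum.elim (fun _ => pW) (fun _ => fun _ => pY A)))))
    (by
      rintro (j | j | j | _ | _)
      · exact Qz_p1 hA hB j
      · exact Qz_p2 hA hB j
      · exact Qz_p3 hA hB j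
      · exact Qz_pW hA hB
      · exact Qz_pY hA hB)
  have hq11 : ∀ j, ∀ x ∈ TS N A B, ‖p1 A j x.1 x.2.1 x.2.2‖ ≤ b0 := fun j => hq1 (Sum.inl j)
  have hq12 : ∀ j, ∀ x ∈ TS N A B, ‖p2 A j x.1 x.2.1 x.2.2‖ ≤ b0 := fun j =>
    hq1 (Sum.inr (Sum.inl j))
  have hq13 : ∀ j, ∀ x ∈ TS N A B, ‖p3 A j x.2.1 x.2.2‖ ≤ b0 := fun j =>
    hq1 (Sum.inr (Sum.inr (Sum.inl j)))
  have hq21 : ∀ j, ∀ x ∈ TS N A B, ∀ y ∈ TS N A B,
      ‖p1 A j x.1 x.2.1 x.2.2 - p1 A j y.1 y.2.1 y.2.2‖ ≤ b0 * dist x y := fun j => hq2 (Sum.inl j)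
  have hq22 : ∀ j, ∀ x ∈ TS N A B, ∀ y ∈ TS N A B,
      ‖p2 A j x.1 x.2.1 x.2.2 - p2 A j y.1 y.2.1 y.2.2‖ ≤ b0 * dist x y := fun j =>
    hq2 (Sum.inr (Sum.inl j))
  have hq23 : ∀ j, ∀ x ∈ TS N A B, ∀ y ∈ TS N A B,
      ‖p3 A j x.2.1 x.2.2 - p3 A j y.2.1 y.2.2‖ ≤ b0 * dist x y := fun j =>
    hq2 (Sum.inr (Sum.inr (Sum.inl j)))
  set β : ℝ := b0 + 1 with hβ
  have hβ0 : 0 ≤ β := by linarith
  set σ : ℝ := 12 * β * Real.sqrt 12 with hσ
  have hσ0 : 0 ≤ σ := by positivity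
  set B1 : ℝ := B + 9 * β with hB1
  have hB10 : 0 ≤ B1 := by linarith
  set k1 : ℝ := B1 * (4 * N * 3) + 2 with hk1
  have hk10 : 0 ≤ k1 := by positivity
  set k2 : ℝ := B1 * (4 * N * (3 * ((9 + 32 * β) * σ) + 36 * B1)) + 2 * ((9 + 32 * β) * σ) with hk2
  have hk20 : 0 ≤ k2 := by positivity
  refine ⟨1 + 2 * B1 + k1 + k2, by linarith, fun Λ hΛ => ?_⟩
  obtain ⟨C0, hC0, hq⟩ := hq3 Λ hΛ
  set κ : ℝ := 9 + 16 * b0 with hκ
  have hκ0 : 0 ≤ κ := by positivity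
  set C : ℝ := 1 + 4 * C0 + 6 * N * κ * C0 + (6 * N * B1 * κ + κ) * C0 + 5 * b0 with hC
  have t1 : 0 ≤ 6 * N * κ * C0 := by positivity
  have t2 : 0 ≤ (6 * N * B1 * κ + κ) * C0 := by positivity
  have hC1 : 1 ≤ C := by rw [hC]; linarith
  refine ⟨C, hC1, fun s D l u F H Q S hbd hsm => ?_⟩
  obtain ⟨R, hRg, hRe⟩ := hq s D l u F H Q S
  have hs00 := S.s0
  set η : ℝ := s * (Real.sqrt D / Real.sqrt l) with hη
  have hη0 : 0 ≤ η := by positivity
  set e : ℝ := C0 * η with he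
  have he0 : 0 ≤ e := by positivity
  have he1 : e ≤ 1 / 4 := by
    have : 4 * C0 * η ≤ C * η := mul_le_mul_of_nonneg_right (by rw [hC]; linarith) hη0
    rw [he]; linarith
  have he2 : 3 * N * κ * e ≤ 1 / 2 := by
    have : 6 * N * κ * C0 * η ≤ C * η := mul_le_mul_of_nonneg_right (by rw [hC]; linarith) hη0
    rw [he]; linarith
  have hDl := S.Dl
  have hlu := S.lu
  have hl1 := S.l1
  set R1 : Fin N → E m → ℂ := fun j => R (Sum.inl j) with hR1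
  set R2 : Fin N → E m → ℂ := fun j => R (Sum.inr (Sum.inl j)) with hR2
  set R3 : Fin N → E m → ℂ := fun j => R (Sum.inr (Sum.inr (Sum.inl j))) with hR3
  set RW : E m → ℂ := R (Sum.inr (Sum.inr (Sum.inr (Sum.inl ())))) with hRW
  set RY : E m → ℂ := R (Sum.inr (Sum.inr (Sum.inr (Sum.inr ())))) with hRY
  have e1 : ∀ j z, ‖z‖ ≤ 1 → ‖R1 j z - p1 A j (F z) (H z) (Q z)‖ ≤ e := fun j z hz =>
    hRe (Sum.inl j) z hz
  have e2 : ∀ j z, ‖z‖ ≤ 1 → ‖R2 j z - p2 A j (F z) (H z) (Q z)‖ ≤ e := fun j z hz =>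
    hRe (Sum.inr (Sum.inl j)) z hz
  have e3 : ∀ j z, ‖z‖ ≤ 1 → ‖R3 j z - p3 A j (H z) (Q z)‖ ≤ e := fun j z hz =>
    hRe (Sum.inr (Sum.inr (Sum.inl j))) z hz
  have eW : ∀ z, ‖z‖ ≤ 1 → ‖RW z - pW (F z) (H z) (Q z)‖ ≤ e := fun z hz =>
    hRe (Sum.inr (Sum.inr (Sum.inr (Sum.inl ())))) z hz
  have eY : ∀ z, ‖z‖ ≤ 1 → ‖RY z - pY A (H z) (Q z)‖ ≤ e := fun z hz =>
    hRe (Sum.inr (Sum.inr (Sum.inr (Sum.inr ())))) z hz
  -- the values of the denominators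
  have hAdm : ∀ z, ‖z‖ ≤ 1 → Adm A (F z) (Q z) := fun z hz =>
    ⟨hA, (S.Fb z hz).1, (S.Fb z hz).2, S.Qb z hz⟩
  have hpW : ∀ z, ‖z‖ ≤ 1 → ‖pW (F z) (H z) (Q z)‖ ≤ 1 / 2 := by
    intro z hz
    have h := hAdm z hz
    have hw2 : Real.sqrt (nsq (Q z)) ^ 2 = nsq (Q z) := Real.sq_sqrt (nsq_nonneg _)
    refine ww_le (A := A) (Real.sqrt_nonneg (nsq (Q z))) ?_ ?_ h.hs h.hs4 h.s0 (nsq_nonneg _)
      h.hA h.w
    · rw [hw2]; exact xx_le _ _
    · rw [hw2]; exact bd_le _ _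
  have hpY : ∀ z, ‖z‖ ≤ 1 → ‖pY A (H z) (Q z)‖ ≤ 1 / 2 := by
    intro z hz
    have h := hAdm z hz
    have hw2 : Real.sqrt (nsq (Q z)) ^ 2 = nsq (Q z) := Real.sq_sqrt (nsq_nonneg _)
    refine yh_le (A := A) (Real.sqrt_nonneg (nsq (Q z))) ?_ (nsq_nonneg _) h.hA h.w
    rw [hw2]; exact bd_le _ _
  have dW : ∀ z, ‖z‖ ≤ 1 → 1 / 2 ≤ ‖1 - pW (F z) (H z) (Q z)‖ := by
    intro z hz
    have h1 := norm_sub_norm_le (1:ℂ) (pW (F z) (H z) (Q z))
    rw [norm_one] at h1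
    have := hpW z hz
    linarith
  have dY : ∀ z, ‖z‖ ≤ 1 → 1 / 2 ≤ ‖1 + pY A (H z) (Q z)‖ := by
    intro z hz
    have h1 := norm_sub_norm_le (1:ℂ) (-pY A (H z) (Q z))
    rw [norm_one, norm_neg, sub_neg_eq_add] at h1
    have := hpY z hz
    linarith
  have dRW : ∀ z, ‖z‖ ≤ 1 → 1 / 4 ≤ ‖1 - RW z‖ := by
    intro z hz
    have h1 := norm_sub_norm_le (1 - pW (F z) (H z) (Q z)) (RW z - pW (F z) (H z) (Q z))
    have h2 : 1 - pW (F z) (H z) (Q z) - (RW z - pW (F z) (H z) (Q z)) = 1 - RW z := by ring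
    rw [h2] at h1
    have := dW z hz
    have := eW z hz
    linarith
  have dRY : ∀ z, ‖z‖ ≤ 1 → 1 / 4 ≤ ‖1 + RY z‖ := by
    intro z hz
    have h1 := norm_sub_norm_le (1 + pY A (H z) (Q z)) (-(RY z - pY A (H z) (Q z)))
    have h2 : 1 + pY A (H z) (Q z) - -(RY z - pY A (H z) (Q z)) = 1 + RY z := by ring
    rw [h2, norm_neg] at h1
    have := dY z hz
    have := eY z hz
    linarith
  -- the bounds
  have hmem : ∀ z, ‖z‖ ≤ 1 → (F z, H z, Q z) ∈ TS N A B := fun z hz => S.mem hz hz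
  have hβe : e + b0 ≤ β := by rw [hβ]; linarith
  have hβ1 : 1 ≤ β := by rw [hβ]; linarith
  have hβ2 : e + 1 / 2 ≤ β := by linarith
  have hb1 : ∀ j z, ‖z‖ ≤ 1 → ‖R1 j z‖ ≤ β := fun j z hz =>
    (nb (e1 j z hz) (hq11 j (F z, H z, Q z) (hmem z hz))).trans hβe
  have hb2 : ∀ j z, ‖z‖ ≤ 1 → ‖R2 j z‖ ≤ β := fun j z hz =>
    (nb (e2 j z hz) (hq12 j (F z, H z, Q z) (hmem z hz))).trans hβe
  have hb3 : ∀ j z, ‖z‖ ≤ 1 → ‖R3 j z‖ ≤ β := fun j z hz =>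
    (nb (e3 j z hz) (hq13 j (F z, H z, Q z) (hmem z hz))).trans hβe
  have hbW : ∀ z, ‖z‖ ≤ 1 → ‖RW z‖ ≤ β := fun z hz =>
    (nb (eW z hz) (hpW z hz)).trans hβ2
  have hbY : ∀ z, ‖z‖ ≤ 1 → ‖RY z‖ ≤ β := fun z hz =>
    (nb (eY z hz) (hpY z hz)).trans hβ2
  have hu1 : 1 ≤ 12 * u := by omega
  have hs1 : 12 * β * Real.sqrt ((12 * u : ℕ) : ℝ) = σ * Real.sqrt u := by
    push_cast
    rw [Real.sqrt_mul (by norm_num), hσ]
    ring
  have hsu0 : 0 ≤ Real.sqrt (u:ℝ) := Real.sqrt_nonneg _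
  set s1 : ℝ := σ * Real.sqrt u with hs1'
  have hs10 : 0 ≤ s1 := by positivity
  have l1 : ∀ j, Lc β s1 (R1 j) := fun j => by
    have := Lc.of_gr hu1 (hRg _) hβ0 (hb1 j)
    rwa [hs1] at this
  have l2 : ∀ j, Lc β s1 (R2 j) := fun j => by
    have := Lc.of_gr hu1 (hRg _) hβ0 (hb2 j)
    rwa [hs1] at this
  have l3 : ∀ j, Lc β s1 (R3 j) := fun j => by
    have := Lc.of_gr hu1 (hRg _) hβ0 (hb3 j)
    rwa [hs1] at this
  have lW : Lc β s1 RW := by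
    have := Lc.of_gr hu1 (hRg _) hβ0 hbW
    rwa [hs1] at this
  have lY : Lc β s1 RY := by
    have := Lc.of_gr hu1 (hRg _) hβ0 hbY
    rwa [hs1] at this
  have lWi : Lc 4 (16 * s1) (fun z => (1 - RW z)⁻¹) := by
    refine (((Lc.const (m := m) 1).sub lW).inv (c := 1 / 4) (by norm_num) dRW).mono ?_ ?_
    · norm_num
    · rw [zero_add]
      norm_num
      linarith
  have lYi : Lc 4 (16 * s1) (fun z => (1 + RY z)⁻¹) := by
    refine (((Lc.const (m := m) 1).add lY).inv (c := 1 / 4) (by norm_num) dRY).mono ?_ ?_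
    · norm_num
    · rw [zero_add]
      norm_num
      linarith
  -- the first approximation
  set H1 : E m → Fin N → ℂ := fun z j => H z j + R1 j z + R2 j z * (1 - RW z)⁻¹ -
    R3 j z * (1 + RY z)⁻¹ with hH1
  set L1 : ℝ := Λ * Real.sqrt D + (9 + 32 * β) * s1 with hL1
  have hL10 : 0 ≤ L1 := by positivity
  have lH1 : ∀ j, Lc B1 L1 (fun z => H1 z j) := by
    intro j
    have h1 := (((S.Hl j).add (l1 j)).add ((l2 j).mul lWi)).sub ((l3 j).mul lYi)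
    refine h1.mono (le_of_eq ?_) (le_of_eq ?_)
    · rw [hB1]; ring
    · rw [hL1]; ring
  have hclose : ∀ z, ‖z‖ ≤ 1 → ∀ j, ‖H1 z j - GG A (F z) (H z) (Q z) j‖ ≤ κ * e := by
    intro z hz j
    rw [GG_split]
    have c1 := quot_close hb0 he0 (e2 j z hz) (y := 1 - RW z) (q := 1 - pW (F z) (H z) (Q z))
      (by
        have h2 : 1 - RW z - (1 - pW (F z) (H z) (Q z)) = -(RW z - pW (F z) (H z) (Q z)) := by ring
        rw [h2, norm_neg]
        exact eW z hz) (hq12 j (F z, H z, Q z) (hmem z hz)) (dRW z hz) (dW z hz)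
    have c2 := quot_close hb0 he0 (e3 j z hz) (y := 1 + RY z) (q := 1 + pY A (H z) (Q z))
      (by
        have h2 : 1 + RY z - (1 + pY A (H z) (Q z)) = RY z - pY A (H z) (Q z) := by ring
        rw [h2]
        exact eY z hz) (hq13 j (F z, H z, Q z) (hmem z hz)) (dRY z hz) (dY z hz)
    have e0 : H1 z j - (H z j + p1 A j (F z) (H z) (Q z) + p2 A j (F z) (H z) (Q z) *
        (1 / (1 - pW (F z) (H z) (Q z))) - p3 A j (H z) (Q z) * (1 / (1 + pY A (H z) (Q z)))) =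
        (R1 j z - p1 A j (F z) (H z) (Q z)) +
        (R2 j z * (1 - RW z)⁻¹ - p2 A j (F z) (H z) (Q z) * (1 / (1 - pW (F z) (H z) (Q z)))) -
        (R3 j z * (1 + RY z)⁻¹ - p3 A j (H z) (Q z) * (1 / (1 + pY A (H z) (Q z)))) := by
      rw [hH1]
      ring
    rw [e0]
    refine (norm_sub_le _ _).trans ?_
    have h3 := norm_add_le (R1 j z - p1 A j (F z) (H z) (Q z)) (R2 j z * (1 - RW z)⁻¹ -
      p2 A j (F z) (H z) (Q z) * (1 / (1 - pW (F z) (H z) (Q z))))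
    have h4 := e1 j z hz
    have h5 : κ * e = e + (4 + 8 * b0) * e + (4 + 8 * b0) * e := by rw [hκ]; ring
    rw [h5]
    linarith
  -- the product
  have hQn : ∀ z, ‖z‖ ≤ 1 → nsq (Q z) ≤ 1 := by
    intro z hz
    have h1 := S.Qb z hz
    have h2 := nsq_nonneg (Q z)
    have h3 : 1 ≤ 100 * A ^ 2 := by nlinarith
    have h4 : 1 ≤ (100 * A ^ 2) ^ 2 := one_le_pow₀ h3
    nlinarith
  have hGb : ∀ j z, ‖z‖ ≤ 1 → ‖F z j + Q z j‖ ≤ 3 := by
    intro j z hz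
    have h1 := S.Fj hz j
    have h2 : ‖Q z j‖ ≤ 1 := by
      have h3 := le_nsq (Q z) j
      have h4 : ‖Q z j‖ ^ 2 ≤ 1 ^ 2 := by linarith [hQn z hz]
      exact le_of_sq_le_sq h4 (by norm_num)
    have := norm_add_le (F z j) (Q z j)
    linarith
  have lG : ∀ j, Lc 3 (36 * Real.sqrt u) (fun z => F z j + Q z j) := by
    intro j
    have h1 : Gr 0 u (fun z => F z j + Q z j) :=
      ((S.Fg j).mono le_rfl (by omega)).add ((S.Qg j).mono (Nat.zero_le _) le_rfl)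
    refine (Lc.of_gr (by omega) h1 (by norm_num) (hGb j)).mono le_rfl (le_of_eq ?_)
    ring
  set G : E m → ℂ := fun z => ∑ j, (F z j + Q z j) * H1 z j with hG
  set LG : ℝ := N * (3 * L1 + B1 * (36 * Real.sqrt u)) with hLG
  have lGG : Lc (N * (3 * B1)) LG G := by
    have h1 := Lc.sum Finset.univ (u := fun j z => (F z j + Q z j) * H1 z j)
      (b := 3 * B1) (L := 3 * L1 + B1 * (36 * Real.sqrt u)) (by positivity)
      fun j _ => (lG j).mul (lH1 j)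
    rwa [Finset.card_univ, Fintype.card_fin] at h1
  have hG1 : ∀ z, ‖z‖ ≤ 1 → ‖G z - 1‖ ≤ 3 * N * κ * e := by
    intro z hz
    have h1 : bd (fun j => F z j + Q z j) (GG A (F z) (H z) (Q z)) = 1 :=
      (GG_prop (hAdm z hz) (hbd z hz)).1
    have h2 : G z - 1 = ∑ j, (F z j + Q z j) * (H1 z j - GG A (F z) (H z) (Q z) j) := by
      rw [← h1, hG]
      unfold bd
      rw [← Finset.sum_sub_distrib]
      exact Finset.sum_congr rfl fun j _ => by ring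
    rw [h2]
    refine (norm_sum_le _ _).trans ?_
    refine (Finset.sum_le_card_nsmul _ _ (3 * (κ * e)) fun j _ => ?_).trans (le_of_eq ?_)
    · rw [norm_mul]
      exact mul_le_mul (hGb j z hz) (hclose z hz j) (norm_nonneg _) (by norm_num)
    · rw [nsmul_eq_mul, Finset.card_univ, Fintype.card_fin]
      ring
  have hG2 : ∀ z, ‖z‖ ≤ 1 → 1 / 2 ≤ ‖G z‖ := by
    intro z hz
    have h1 := norm_sub_norm_le (1:ℂ) (1 - G z)
    rw [sub_sub_cancel, norm_one, norm_sub_rev] at h1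
    have := hG1 z hz
    linarith
  have hG0 : ∀ z, ‖z‖ ≤ 1 → G z ≠ 0 := fun z hz => norm_pos_iff.1 (by linarith [hG2 z hz])
  have lGi := lGG.inv (c := 1 / 2) (by norm_num) hG2
  -- the result
  have hfin : ∀ z, ‖z‖ ≤ 1 → ∀ j, ‖H1 z j * (G z)⁻¹ - GG A (F z) (H z) (Q z) j‖ ≤
      (6 * N * B1 * κ + κ) * e := by
    intro z hz j
    have h0 := hG0 z hz
    have h1 : H1 z j * (G z)⁻¹ - GG A (F z) (H z) (Q z) j =
        H1 z j * (-(G z - 1) / G z) + (H1 z j - GG A (F z) (H z) (Q z) j) := by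
      field_simp
      ring
    rw [h1]
    refine (norm_add_le _ _).trans ?_
    have h2 : ‖H1 z j * (-(G z - 1) / G z)‖ ≤ B1 * (6 * N * κ * e) := by
      rw [norm_mul]
      refine mul_le_mul ((lH1 j).bd z hz) ?_ (norm_nonneg _) hB10
      rw [norm_div, norm_neg, div_le_iff₀ (by linarith [hG2 z hz])]
      have h3 := hG1 z hz
      have h4 := hG2 z hz
      have h5 : 0 ≤ 6 * N * κ * e := by positivity
      nlinarith
    have h3 := hclose z hz j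
    calc _ ≤ B1 * (6 * N * κ * e) + κ * e := add_le_add h2 h3
      _ = _ := by ring
  refine ⟨fun z j => H1 z j * (G z)⁻¹, fun j => ?_, fun z hz => ?_, fun z hz j => ⟨?_, ?_⟩⟩
  · refine ((lH1 j).mul lGi).mono ?_ ?_
    · have : B1 * (1 / (1 / 2)) = 2 * B1 := by ring
      rw [this]
      linarith
    · have h1 : B1 * (LG / (1 / 2) ^ 2) + 1 / (1 / 2) * L1 =
          k2 * Real.sqrt u + k1 * (Λ * Real.sqrt D) := by
        rw [hLG, hL1, hk1, hk2, hs1']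
        ring
      rw [h1]
      have h2 : 0 ≤ Λ * Real.sqrt D := by positivity
      have h3 : k2 * Real.sqrt u ≤ (1 + 2 * B1 + k1 + k2) * Real.sqrt u :=
        mul_le_mul_of_nonneg_right (by linarith) hsu0
      have h4 : k1 * (Λ * Real.sqrt D) ≤ (1 + 2 * B1 + k1 + k2) * (Λ * Real.sqrt D) :=
        mul_le_mul_of_nonneg_right (by linarith) h2
      rw [mul_add]
      linarith
  · have h0 := hG0 z hz
    unfold bd
    have h1 : ∑ j, (F z j + Q z j) * (H1 z j * (G z)⁻¹) = G z * (G z)⁻¹ := by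
      rw [hG, Finset.sum_mul]
      exact Finset.sum_congr rfl fun j _ => by ring
    rw [h1, mul_inv_cancel₀ h0]
  · refine (hfin z hz j).trans ?_
    rw [he, ← mul_assoc]
    exact mul_le_mul_of_nonneg_right (by rw [hC]; linarith) hη0
  · have h1 := hfin z hz j
    have h2 : ‖GG A (F z) (H z) (Q z) j - H z j‖ ≤ 5 * b0 * nn (Q z) := by
      set v0 : Fin N → ℂ := fun _ => 0 with hv0
      have hv00 : nsq v0 = 0 := by rw [hv0]; unfold nsq; simp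
      have hm0 : (F z, H z, v0) ∈ TS N A B :=
        ⟨(S.Fb z hz).1, (S.Fb z hz).2, S.Hb z hz, by
          change nsq v0 * (100 * A ^ 2) ^ 2 ≤ 1
          rw [hv00, zero_mul]; exact zero_le_one⟩
      have hx0 : xx (F z) v0 = 0 := by unfold xx; simp [hv0]
      have hy0 : bd (H z) v0 = 0 := by unfold bd; simp [hv0]
      have hE0 : EE A 0 - 1 = 0 := by unfold EE; simp
      have z1 : p1 A j (F z) (H z) v0 = 0 := by
        unfold p1; rw [hx0, hE0]; ring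
      have z2 : p2 A j (F z) (H z) v0 = 0 := by
        unfold p2; rw [hx0, hE0, hy0]; ring
      have z3 : p3 A j (H z) v0 = 0 := by
        unfold p3 yh; rw [hy0]; ring
      have hdist : dist ((F z, H z, Q z) : (Fin N → ℂ) × (Fin N → ℂ) × (Fin N → ℂ))
          (F z, H z, v0) ≤ nn (Q z) := by
        refine max_le (by simp only [dist_self]; exact nn_nonneg _)
          (max_le (by simp only [dist_self]; exact nn_nonneg _) ?_)
        refine (dist_pi_le_iff (nn_nonneg _)).2 fun i => ?_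
        change dist (Q z i) (v0 i) ≤ nn (Q z)
        rw [hv0]
        simp only
        rw [dist_zero_right]
        exact comp_le_nn _ _
      have b1 : ‖p1 A j (F z) (H z) (Q z)‖ ≤ b0 * nn (Q z) := by
        have := hq21 j (F z, H z, Q z) (hmem z hz) (F z, H z, v0) hm0
        simp only [z1, sub_zero] at this
        exact this.trans (mul_le_mul_of_nonneg_left hdist hb0)
      have b2 : ‖p2 A j (F z) (H z) (Q z)‖ ≤ b0 * nn (Q z) := by
        have := hq22 j (F z, H z, Q z) (hmem z hz) (F z, H z, v0) hm0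
        simp only [z2, sub_zero] at this
        exact this.trans (mul_le_mul_of_nonneg_left hdist hb0)
      have b3 : ‖p3 A j (H z) (Q z)‖ ≤ b0 * nn (Q z) := by
        have := hq23 j (F z, H z, Q z) (hmem z hz) (F z, H z, v0) hm0
        simp only [z3, sub_zero] at this
        exact this.trans (mul_le_mul_of_nonneg_left hdist hb0)
      have hnn := nn_nonneg (Q z)
      have d1 : ‖p2 A j (F z) (H z) (Q z) * (1 / (1 - pW (F z) (H z) (Q z)))‖ ≤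
          2 * (b0 * nn (Q z)) := by
        rw [norm_mul, norm_div, norm_one, mul_one_div, div_le_iff₀ (by linarith [dW z hz])]
        have := dW z hz
        have h5 : 0 ≤ b0 * nn (Q z) := by positivity
        nlinarith
      have d2 : ‖p3 A j (H z) (Q z) * (1 / (1 + pY A (H z) (Q z)))‖ ≤
          2 * (b0 * nn (Q z)) := by
        rw [norm_mul, norm_div, norm_one, mul_one_div, div_le_iff₀ (by linarith [dY z hz])]
        have := dY z hz
        have h5 : 0 ≤ b0 * nn (Q z) := by positivity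
        nlinarith
      rw [GG_split]
      have h6 : H z j + p1 A j (F z) (H z) (Q z) + p2 A j (F z) (H z) (Q z) *
          (1 / (1 - pW (F z) (H z) (Q z))) - p3 A j (H z) (Q z) *
          (1 / (1 + pY A (H z) (Q z))) - H z j = (p1 A j (F z) (H z) (Q z) +
          p2 A j (F z) (H z) (Q z) * (1 / (1 - pW (F z) (H z) (Q z)))) - p3 A j (H z) (Q z) *
          (1 / (1 + pY A (H z) (Q z))) := by ring
      rw [h6]
      refine (norm_sub_le _ _).trans ?_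
      have h7 := norm_add_le (p1 A j (F z) (H z) (Q z)) (p2 A j (F z) (H z) (Q z) *
        (1 / (1 - pW (F z) (H z) (Q z))))
      linarith
    have h3 : H1 z j * (G z)⁻¹ - H z j = (H1 z j * (G z)⁻¹ - GG A (F z) (H z) (Q z) j) +
        (GG A (F z) (H z) (Q z) j - H z j) := by ring
    change ‖H1 z j * (G z)⁻¹ - H z j‖ ≤ _
    rw [h3]
    refine (norm_add_le _ _).trans ?_
    have h4 : (6 * N * B1 * κ + κ) * e ≤ C * η := by
      rw [he, ← mul_assoc]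
      exact mul_le_mul_of_nonneg_right (by rw [hC]; linarith) hη0
    have h5 : 5 * b0 * nn (Q z) ≤ C * nn (Q z) :=
      mul_le_mul_of_nonneg_right (by rw [hC]; linarith) (nn_nonneg _)
    rw [mul_add]
    linarith

end Pool.Agent.K9h23.Mix
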