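import Mathlib
import Pool.Agent.K9h23.Mix.Lst
import Pool.Agent.K9h23.Mix.Sml

/-!
The step of the recursion for small blocks and large bands together.
-/

set_option autoImplicit false

open MeasureTheory Set Complex Metric Filter Topology
open scoped Real

namespace Pool.Agent.K9h23.Mix

open Pool.Agent.K9h23.Hom Pool.Agent.K9h23.Bnd
open Pool.Agent.K9h23.Lac (nsq nsq_nonneg nsq_c nn nn_nonneg nn_sq nn_add_le le_nsq nsq_smul' bd
  bd_le_nn comp_le_nn nsq_conj nn_le_comp GG GG_prop Adm)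

variable {m N : ℕ}

/-- the data: blocks, the large ones having indices in `W` -/
structure Md (A δ : ℝ) (K : ℕ) (W : Set ℕ) (s : ℕ → ℝ) (D l : ℕ → ℕ)
    (F Q : ℕ → E m → Fin N → ℂ) : Prop where
  s0 : ∀ i, 0 ≤ s i
  s1 : ∀ i, s i ≤ 1
  sW : ∀ i ∈ W, s i = 1
  sQ : ∀ i, i ∉ W → ∀ z, ‖z‖ ≤ 1 → nn (Q i z) ≤ s i
  D1 : ∀ i, 1 ≤ D i
  Dl : ∀ i, D i ≤ l i
  l2 : ∀ i, 2 ≤ l i
  lD : ∀ i, l i ≤ D (i + 1)
  li : ∀ i, i ≤ l i
  Fg : ∀ i j, Gr 0 (D i) (fun z => F i z j)
  Qg : ∀ i j, Gr (l i) (D (i + 1)) (fun z => Q i z j)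
  Fs : ∀ i z j, F (i + 1) z j = F i z j + Q i z j
  Fb : ∀ i z, ‖z‖ ≤ 1 → δ ≤ nn (F i z) ∧ nn (F i z) ≤ 2
  EK : ∀ i ∈ W, D (i + 1) ≤ K * l i
  sm : ∀ i, i ∉ W → ∀ z, ‖z‖ ≤ 1 → nsq (Q i z) * (100 * A ^ 2) ^ 2 ≤ 1

open Classical in
/-- the sizes of the large blocks -/
noncomputable def wt (W : Set ℕ) (Q : ℕ → E m → Fin N → ℂ) (i : ℕ)
    (z : E m) : ℝ := if i ∈ W then ∑ a, ‖Q i z a‖ else 0

theorem wt_nonneg (W : Set ℕ) (Q : ℕ → E m → Fin N → ℂ) (i : ℕ)
    (z : E m) : 0 ≤ wt W Q i z := by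
  unfold wt
  split_ifs
  · exact Finset.sum_nonneg fun _ _ => norm_nonneg _
  · exact le_rfl

/-- the gaps -/
noncomputable def et (D l : ℕ → ℕ) (i : ℕ) : ℝ := Real.sqrt (D i) / Real.sqrt (l i)

theorem et_nonneg (D l : ℕ → ℕ) (i : ℕ) : 0 ≤ et D l i := by unfold et; positivity

theorem nn_le_sum (u : Fin N → ℂ) : nn u ≤ ∑ a, ‖u a‖ := by
  refine Pool.Agent.K9h23.Lac.nn_le_of (Finset.sum_nonneg fun _ _ => norm_nonneg _) ?_
  unfold nsq
  exact Finset.sum_sq_le_sq_sum_of_nonneg fun _ _ => norm_nonneg _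

variable {A δ : ℝ} {K : ℕ} {W : Set ℕ} {D l : ℕ → ℕ}
  {F Q : ℕ → E m → Fin N → ℂ}

/-- **One step.** -/
theorem step (m N K : ℕ) (hK : 1 ≤ K) {δ A : ℝ} (hδ : 0 < δ) (hA : 4 ≤ A) (hAδ : 16 ≤ A * δ ^ 2) :
    ∃ C1 : ℝ, 1 ≤ C1 ∧ ∀ B : ℝ, 1 ≤ B → ∀ Λ0 : ℝ, 0 ≤ Λ0 → ∃ Λ : ℝ, Λ0 ≤ Λ ∧ ∃ C : ℝ, 1 ≤ C ∧
    ∀ (W : Set ℕ) (s : ℕ → ℝ) (D l : ℕ → ℕ) (F Q : ℕ → E m → Fin N → ℂ),
    Md A δ K W s D l F Q → ∀ i, C * et D l i ≤ 1 →
    ∀ H : E m → Fin N → ℂ,
    (∀ j, Lc B (Λ * Real.sqrt (D i)) (fun z => H z j)) → (∀ z, ‖z‖ ≤ 1 → nn (H z) ≤ B) →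
    (∀ z, ‖z‖ ≤ 1 → bd (F i z) (H z) = 1) →
    ∃ H' : E m → Fin N → ℂ,
      (∀ j, ∃ b', Lc b' (Λ * Real.sqrt (D (i + 1))) (fun z => H' z j)) ∧
      (∀ z, ‖z‖ ≤ 1 → bd (F (i + 1) z) (H' z) = 1) ∧
      ∀ z, ‖z‖ ≤ 1 → (∀ P : ℝ, 400 * A ≤ P →
        nsq (H z) * Real.exp (-(A * nsq (F i z))) ≤ P →
        nsq (H' z) * Real.exp (-(A * nsq (F (i + 1) z))) ≤
          P * Real.exp (C1 * wt W Q i z + C * (s i * et D l i))) ∧
        ∀ j, ‖H' z j - H z j‖ ≤ C * (nn (Q i z) + s i * et D l i) := by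
  have hA0 : 0 < A := by linarith
  obtain ⟨C0, hC0, hL⟩ := lstage m N K hK hδ
  refine ⟨2 * C0 + 4 * A, by linarith, fun B hB Λ0 hΛ0 => ?_⟩
  obtain ⟨bs, hbs, hS⟩ := sstage m N hA hB
  obtain ⟨bl, hbl, Cl, hCl, hL⟩ := hL B hB
  set b : ℝ := bs + bl with hb
  have hb0 : 0 ≤ b := by linarith
  have hb1 : 1 ≤ b := by linarith
  set Λ : ℝ := 2 * b + Λ0 with hΛ
  have hΛ1 : 0 ≤ Λ := by linarith
  obtain ⟨Cs, hCs, hS⟩ := hS Λ hΛ1
  set C : ℝ := 2 * (N + 1) * (Cs + Cl) + 2 * b with hC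
  have hN0 : (0:ℝ) ≤ N := Nat.cast_nonneg N
  have hCs0 : 0 ≤ Cs := by linarith
  have hCl0 : 0 ≤ Cl := by linarith
  have hNN : Cs + Cl ≤ (N + 1) * (Cs + Cl) := by nlinarith
  have hCsC : Cs ≤ C := by rw [hC]; nlinarith
  have hClC : Cl ≤ C := by rw [hC]; nlinarith
  have hbC : 2 * b ≤ C := by rw [hC]; nlinarith
  refine ⟨Λ, by linarith, C, by linarith, fun W s D l F Q S i hi H hHl hHb hbd => ?_⟩
  have hη0 := et_nonneg D l i
  set η : ℝ := et D l i with hη
  have hηe : η = Real.sqrt (D i) / Real.sqrt (l i) := rfl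
  have hl0 : (0:ℝ) < l i := by
    have := S.l2 i
    exact_mod_cast (by omega : 0 < l i)
  have hsl : 0 < Real.sqrt (l i) := Real.sqrt_pos.2 hl0
  -- the Lipschitz constants
  have hDD : Real.sqrt (l i) ≤ Real.sqrt (D (i + 1)) := Real.sqrt_le_sqrt (by
    exact_mod_cast S.lD i)
  have hLip : b * (Real.sqrt (D (i + 1)) + Λ * Real.sqrt (D i)) ≤
      Λ * Real.sqrt (D (i + 1)) := by
    have h1 : 2 * b * η ≤ 1 := (mul_le_mul_of_nonneg_right hbC hη0).trans hi
    rw [hηe, mul_div_assoc', div_le_iff₀ hsl, one_mul] at h1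
    have h2 : 2 * b * Real.sqrt (D i) ≤ Real.sqrt (D (i + 1)) := h1.trans hDD
    have h3 : Λ * (2 * b * Real.sqrt (D i)) ≤ Λ * Real.sqrt (D (i + 1)) :=
      mul_le_mul_of_nonneg_left h2 hΛ1
    have h4 : 2 * b * Real.sqrt (D (i + 1)) ≤ Λ * Real.sqrt (D (i + 1)) :=
      mul_le_mul_of_nonneg_right (by linarith) (Real.sqrt_nonneg _)
    linarith
  have hFe : ∀ z, (fun j => F i z j + Q i z j) = F (i + 1) z := fun z => by
    funext j
    rw [S.Fs]
  have hs0 : 0 ≤ Λ * Real.sqrt (D i) := by positivity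
  have hsD0 : 0 ≤ Real.sqrt ((D (i + 1) : ℕ) : ℝ) := Real.sqrt_nonneg _
  by_cases hE : i ∈ W
  · -- a large block
    rw [S.sW i hE, one_mul]
    have hBz : Bz δ 2 K (D i) (l i) (F i) (Q i) := by
      refine ⟨S.D1 i, S.Dl i, S.l2 i, S.Fg i, fun j => (S.Qg i j).mono le_rfl (S.EK i hE),
        S.Fb i, fun z hz => ?_⟩
      rw [hFe]
      exact S.Fb (i + 1) z hz
    have hsm : Cl * (Real.sqrt (D i) / Real.sqrt (l i)) ≤ 1 :=
      (mul_le_mul_of_nonneg_right hClC hη0).trans hi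
    obtain ⟨H', h1, h2, h3⟩ := hL Λ hΛ1 (D i) (l i) (F i) H (Q i) hBz hHl hHb hbd hsm
    refine ⟨H', fun j => ⟨bl, (h1 j).mono le_rfl (le_trans ?_ hLip)⟩, fun z hz => ?_,
      fun z hz => ⟨fun P hP hg => ?_, fun j => ?_⟩⟩
    · refine mul_le_mul (by linarith) ?_ (by positivity) hb0
      linarith
    · have := h2 z hz
      rw [hFe] at this
      exact this
    · have h4 := (h3 z hz).1
      have hw : wt W Q i z = ∑ a, ‖Q i z a‖ := by unfold wt; rw [if_pos hE]
      rw [hw]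
      set w : ℝ := ∑ a, ‖Q i z a‖ with hw'
      have hw0 : 0 ≤ w := Finset.sum_nonneg fun _ _ => norm_nonneg _
      -- the change of the weight
      have h5 : nsq (F i z) - nsq (F (i + 1) z) ≤ 4 * w := by
        rw [← nn_sq, ← nn_sq]
        have a1 := nn_add_le (F (i + 1) z) (fun j => -Q i z j)
        have e : (fun j => F (i + 1) z j + -Q i z j) = F i z := by
          funext j
          rw [S.Fs]
          ring
        rw [e] at a1
        have a2 : nn (fun j => -Q i z j) ≤ w := by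
          refine (nn_le_sum _).trans (le_of_eq ?_)
          rw [hw']
          exact Finset.sum_congr rfl fun a _ => norm_neg _
        have a3 := (S.Fb i z hz).2
        have a4 := (S.Fb (i + 1) z hz).2
        have a5 := nn_nonneg (F i z)
        have a6 := nn_nonneg (F (i + 1) z)
        have a7 : nn (F i z) - nn (F (i + 1) z) ≤ w := by linarith
        rcases le_or_gt (nn (F i z)) (nn (F (i + 1) z)) with a8 | a8
        · nlinarith
        · nlinarith
      have h6 : nsq (H' z) ≤ nsq (H z) * Real.exp (2 * (C0 * w + Cl * η)) := by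
        rw [← nn_sq, ← nn_sq]
        have a1 := pow_le_pow_left₀ (nn_nonneg _) h4 2
        rw [mul_pow, ← Real.exp_nat_mul] at a1
        exact_mod_cast a1
      have h7 : nsq (H z) ≤ P * Real.exp (A * nsq (F i z)) := by
        have a1 : nsq (H z) = nsq (H z) * Real.exp (-(A * nsq (F i z))) *
            Real.exp (A * nsq (F i z)) := by
          rw [mul_assoc, ← Real.exp_add]
          simp
        rw [a1]
        exact mul_le_mul_of_nonneg_right hg (Real.exp_pos _).le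
      have hP0 : 0 ≤ P := by linarith
      calc nsq (H' z) * Real.exp (-(A * nsq (F (i + 1) z))) ≤
            (P * Real.exp (A * nsq (F i z)) * Real.exp (2 * (C0 * w + Cl * η))) *
              Real.exp (-(A * nsq (F (i + 1) z))) := by
            refine mul_le_mul_of_nonneg_right (h6.trans ?_) (Real.exp_pos _).le
            exact mul_le_mul_of_nonneg_right h7 (Real.exp_pos _).le
        _ = P * Real.exp (A * nsq (F i z) + 2 * (C0 * w + Cl * η) +
              -(A * nsq (F (i + 1) z))) := by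
            rw [Real.exp_add, Real.exp_add]; ring
        _ ≤ P * Real.exp ((2 * C0 + 4 * A) * w + C * η) := by
            refine mul_le_mul_of_nonneg_left (Real.exp_le_exp.2 ?_) hP0
            have a1 : A * (nsq (F i z) - nsq (F (i + 1) z)) ≤ A * (4 * w) :=
              mul_le_mul_of_nonneg_left h5 hA0.le
            have a2 : 2 * Cl * η ≤ C * η :=
              mul_le_mul_of_nonneg_right (by rw [hC]; nlinarith) hη0
            nlinarith
    · refine ((h3 z hz).2 j).trans ?_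
      refine mul_le_mul_of_nonneg_right hClC ?_
      have := nn_nonneg (Q i z)
      positivity
  · -- a small block
    have hsi0 := S.s0 i
    have hsi1 := S.s1 i
    have hSq : Sq A B Λ (s i) (D i) (l i) (D (i + 1)) (F i) H (Q i) := by
      have hl2 := S.l2 i
      refine ⟨hA, Or.inl ⟨S.D1 i, S.l2 i⟩, S.Dl i, by omega, S.lD i, S.Fg i, S.Qg i,
        fun z hz => ?_, S.sm i hE, S.sQ i hE, hHl, hHb⟩
      have a1 := (S.Fb i z hz).1
      have a2 := (S.Fb i z hz).2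
      have a3 : δ ^ 2 ≤ nsq (F i z) := by
        rw [← nn_sq]; exact pow_le_pow_left₀ hδ.le a1 2
      have a4 : nsq (F i z) ≤ 4 := by
        rw [← nn_sq]
        nlinarith [nn_nonneg (F i z)]
      exact ⟨hAδ.trans (mul_le_mul_of_nonneg_left a3 hA0.le), a4⟩
    have hsη : s i * η ≤ η := mul_le_of_le_one_left hη0 hsi1
    have hsη0 : 0 ≤ s i * η := mul_nonneg hsi0 hη0
    have hsm : Cs * (s i * (Real.sqrt (D i) / Real.sqrt (l i))) ≤ 1 := by
      rw [← hηe]
      calc Cs * (s i * η) ≤ C * η := mul_le_mul hCsC hsη hsη0 (by linarith)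
        _ ≤ 1 := hi
    obtain ⟨H', h1, h2, h3⟩ := hS (s i) (D i) (l i) (D (i + 1)) (F i) H (Q i) hSq hbd hsm
    refine ⟨H', fun j => ⟨bs, (h1 j).mono le_rfl (le_trans ?_ hLip)⟩, fun z hz => ?_,
      fun z hz => ⟨fun P hP hg => ?_, fun j => ?_⟩⟩
    · refine mul_le_mul (by linarith) le_rfl (by positivity) hb0
    · have := h2 z hz
      rw [hFe] at this
      exact this
    · have hw : wt W Q i z = 0 := by unfold wt; rw [if_neg hE]
      rw [hw, mul_zero, zero_add]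
      have hAdm : Adm A (F i z) (Q i z) := ⟨hA, (hSq.Fb z hz).1, (hSq.Fb z hz).2, S.sm i hE z hz⟩
      have hG := (GG_prop hAdm (hbd z hz)).2
      rw [hFe] at hG
      have hP0 : 1 ≤ P := by linarith
      set X : ℝ := Real.exp (A * nsq (F (i + 1) z)) with hX
      have hX1 : 1 ≤ X := Real.one_le_exp (mul_nonneg hA0.le (nsq_nonneg _))
      have hG2 : nsq (GG A (F i z) (H z) (Q i z)) ≤ P * X :=
        hG.trans (mul_le_mul_of_nonneg_right (max_le hg hP) (by linarith))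
      have hPX : 1 ≤ P * X := by nlinarith
      set rt : ℝ := Real.sqrt (P * X) with hs
      have hs1 : 1 ≤ rt := by
        rw [hs]
        exact Real.one_le_sqrt.2 hPX
      have hs2 : rt ^ 2 = P * X := Real.sq_sqrt (by linarith)
      have a1 : nn (GG A (F i z) (H z) (Q i z)) ≤ rt := by
        unfold nn
        exact Real.sqrt_le_sqrt hG2
      have a2 : nn (fun j => H' z j - GG A (F i z) (H z) (Q i z) j) ≤
          (N + 1) * (Cs * (s i * η)) :=
        nn_le_comp (by positivity) fun j => ((h3 z hz) j).1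
      have a3 := nn_add_le (GG A (F i z) (H z) (Q i z))
        (fun j => H' z j - GG A (F i z) (H z) (Q i z) j)
      have e : (fun j => GG A (F i z) (H z) (Q i z) j + (H' z j -
          GG A (F i z) (H z) (Q i z) j)) = H' z := by
        funext j; ring
      rw [e] at a3
      set y : ℝ := (N + 1) * (Cs * (s i * η)) with hy
      have hy0 : 0 ≤ y := by positivity
      have a4 : nn (H' z) ≤ rt * Real.exp y := by
        have a5 := Real.add_one_le_exp y
        nlinarith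
      have a5 : nsq (H' z) ≤ P * X * Real.exp (2 * y) := by
        rw [← nn_sq, ← hs2]
        have a6 := pow_le_pow_left₀ (nn_nonneg _) a4 2
        rw [mul_pow, ← Real.exp_nat_mul] at a6
        exact_mod_cast a6
      have hX2 : X * Real.exp (-(A * nsq (F (i + 1) z))) = 1 := by
        rw [hX, ← Real.exp_add]
        simp
      calc nsq (H' z) * Real.exp (-(A * nsq (F (i + 1) z))) ≤
            P * X * Real.exp (2 * y) * Real.exp (-(A * nsq (F (i + 1) z))) :=
            mul_le_mul_of_nonneg_right a5 (Real.exp_pos _).le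
        _ = P * Real.exp (2 * y) * (X * Real.exp (-(A * nsq (F (i + 1) z)))) := by ring
        _ = P * Real.exp (2 * y) := by rw [hX2, mul_one]
        _ ≤ P * Real.exp (C * (s i * η)) := by
            refine mul_le_mul_of_nonneg_left (Real.exp_le_exp.2 ?_) (by linarith)
            rw [hy]
            have : 2 * ((N + 1) * Cs) * (s i * η) ≤ C * (s i * η) :=
              mul_le_mul_of_nonneg_right (by rw [hC]; nlinarith) hsη0
            linarith
    · refine ((h3 z hz) j).2.trans ?_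
      refine mul_le_mul_of_nonneg_right hCsC ?_
      have := nn_nonneg (Q i z)
      positivity

end Pool.Agent.K9h23.Mix
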