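import Mathlib
import Pool.Agent.K9h23.Mix.Rec

/-!
The recursion and its limit.
-/

set_option autoImplicit false

open MeasureTheory Set Complex Metric Filter Topology
open scoped Real

namespace Pool.Agent.K9h23.Mix

open Pool.Agent.K9h23.Hom Pool.Agent.K9h23.Bnd
open Pool.Agent.K9h23.Lac (nsq nsq_nonneg nsq_cont nsq_c nn nn_nonneg nn_sq nn_add_le le_nsq
  nsq_smul' bd bd_le_nn comp_le_nn nsq_conj nn_le_comp GG GG_prop Adm Bal isOpen_Bal)

variable {m N : ℕ}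

/-- limits of holomorphic functions on the ball -/
theorem limit_on {u : ℕ → (Fin m → ℂ) → ℂ} (hd : ∀ k, DifferentiableOn ℂ (u k) (Bal m))
    {a : ℕ → ℝ} (ha : Summable a) {C1 M : ℝ}
    (hcl : ∀ k : ℕ, ∀ r : ℝ, 0 < r → r < 1 → ∀ z : Fin m → ℂ, nsq z ≤ r ^ 2 →
      ‖u (k + 1) z - u k z‖ ≤ C1 * (a k + r ^ k))
    (hM : ∀ k, ∀ z ∈ Bal m, ‖u k z‖ ≤ M) :
    ∃ g : (Fin m → ℂ) → ℂ, DifferentiableOn ℂ g (Bal m) ∧
      ∀ z ∈ Bal m, Tendsto (fun k => u k z) atTop (𝓝 (g z)) := by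
  set g : (Fin m → ℂ) → ℂ := fun z => u 0 z + ∑' k, (u (k + 1) z - u k z) with hg
  have hu : ∀ r : ℝ, 0 < r → r < 1 → Summable (fun k : ℕ => C1 * (a k + r ^ k)) := by
    intro r hr0 hr1
    exact (ha.add (summable_geometric_of_lt_one hr0.le hr1)).mul_left _
  have hrad : ∀ z ∈ Bal m, ∃ r : ℝ, 0 < r ∧ r < 1 ∧ nsq z < r ^ 2 := by
    intro z hz
    have h1 : nsq z < 1 := hz
    have h0 := nsq_nonneg z
    refine ⟨Real.sqrt ((nsq z + 1) / 2), Real.sqrt_pos.2 (by linarith), ?_, ?_⟩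
    · rw [Real.sqrt_lt' one_pos]; linarith
    · rw [Real.sq_sqrt (by linarith)]; linarith
  have htend : ∀ z ∈ Bal m, Tendsto (fun k => u k z) atTop (𝓝 (g z)) := by
    intro z hz
    obtain ⟨r, hr0, hr1, hr⟩ := hrad z hz
    have h1 : Summable (fun k => u (k + 1) z - u k z) :=
      Summable.of_norm_bounded (hu r hr0 hr1) fun k => hcl k r hr0 hr1 z hr.le
    have h2 := h1.hasSum.tendsto_sum_nat
    have h3 := h2.const_add (u 0 z)
    refine h3.congr fun k => ?_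
    rw [Finset.sum_range_sub (fun k => u k z)]
    ring
  refine ⟨g, ?_, htend⟩
  refine Pool.Agent.Y263.GF.osg_fin m (Bal m) g M (isOpen_Bal m) (fun z hz => ?_) ?_
  · exact le_of_tendsto (htend z hz).norm (Eventually.of_forall fun k => hM k z hz)
  · intro x hx v
    obtain ⟨r, hr0, hr1, hr⟩ := hrad x hx
    have hcont : Continuous (fun t : ℂ => nsq (x + t • v)) := nsq_cont.comp (by fun_prop)
    have hev : ∀ᶠ t in 𝓝 (0:ℂ), nsq (x + t • v) < r ^ 2 := by
      refine hcont.continuousAt.eventually_lt continuousAt_const ?_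
      simpa using hr
    obtain ⟨ρ, hρ, hρ2⟩ := Metric.eventually_nhds_iff_ball.1 hev
    have hr2 : r ^ 2 ≤ 1 := by nlinarith
    have hl : ∀ k, DifferentiableOn ℂ (fun t : ℂ => u k (x + t • v)) (Metric.ball 0 ρ) :=
      fun k => (hd k).comp ((differentiable_id.smul_const v).const_add x).differentiableOn
        fun t ht => lt_of_lt_of_le (hρ2 t ht) hr2
    have hd' : DifferentiableOn ℂ (fun t : ℂ =>
        ∑' k, (u (k + 1) (x + t • v) - u k (x + t • v))) (Metric.ball 0 ρ) := by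
      refine differentiableOn_tsum_of_summable_norm (hu r hr0 hr1)
        (fun k => (hl _).sub (hl _)) Metric.isOpen_ball fun k t ht => ?_
      exact hcl k r hr0 hr1 _ (hρ2 t ht).le
    have hd2 := (hl 0).add hd'
    exact (hd2.differentiableAt (Metric.ball_mem_nhds 0 hρ))

theorem toLp_diffOn {b L : ℝ} {u : E m → ℂ} (hu : Lc b L u) :
    DifferentiableOn ℂ (fun z : Fin m → ℂ => u (WithLp.toLp 2 z)) (Bal m) := by
  have h1 : Differentiable ℂ (fun z : Fin m → ℂ => (WithLp.toLp 2 z : E m)) :=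
    ((PiLp.continuousLinearEquiv 2 ℂ (fun _ : Fin m => ℂ)).symm).differentiable
  exact hu.dif.comp h1.differentiableOn fun z hz => by
    rw [mem_ball_zero_iff]; exact toLp_lt hz

/-- **The recursion.** -/
theorem rmain (m N K : ℕ) (hK : 1 ≤ K) {δ A : ℝ} (hδ : 0 < δ) (hA : 4 ≤ A)
    (hAδ : 16 ≤ A * δ ^ 2) : ∃ C1 : ℝ, 1 ≤ C1 ∧ ∀ P0 Λ0 S : ℝ, 400 * A ≤ P0 → 0 ≤ Λ0 → 0 ≤ S →
    ∃ c : ℝ, 0 < c ∧ ∀ (W : Set ℕ) (s : ℕ → ℝ) (D l : ℕ → ℕ) (F Q : ℕ → E m → Fin N → ℂ)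
      (f : E m → Fin N → ℂ), Md A δ K W s D l F Q → (∀ i, et D l i ≤ c) →
      (∀ I, ∑ i ∈ Finset.range I, s i * et D l i ≤ c) →
      (∀ z, ‖z‖ ≤ 1 → ∀ I, ∑ i ∈ Finset.range I, wt W Q i z ≤ S) →
      (∀ z, ‖z‖ < 1 → ∀ j, Tendsto (fun i => F i z j) atTop (𝓝 (f z j))) →
      ∀ h0 : E m → Fin N → ℂ, (∀ j, ∃ b', Lc b' (Λ0 * Real.sqrt (D 0)) (fun z => h0 z j)) →
      (∀ z, ‖z‖ ≤ 1 → bd (F 0 z) (h0 z) = 1) →
      (∀ z, ‖z‖ ≤ 1 → nsq (h0 z) * Real.exp (-(A * nsq (F 0 z))) ≤ P0) →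
      ∃ g : Fin N → (Fin m → ℂ) → ℂ, (∀ j, DifferentiableOn ℂ (g j) (Bal m)) ∧
        (∀ z ∈ Bal m, nsq (fun j => g j z) ≤ P0 * Real.exp (C1 * S + 1) * Real.exp (4 * A)) ∧
        ∀ z ∈ Bal m, ∑ j, f (WithLp.toLp 2 z) j * g j z = 1 := by
  have hA0 : 0 < A := by linarith
  have hN0 : (0:ℝ) ≤ N := Nat.cast_nonneg N
  obtain ⟨C1, hC1, hst⟩ := step m N K hK hδ hA hAδ
  refine ⟨C1, hC1, fun P0 Λ0 S hP0A hΛ0 hS => ?_⟩
  have hP01 : 1 ≤ P0 := by linarith
  set X : ℝ := P0 * Real.exp (C1 * S + 1) * Real.exp (4 * A) with hX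
  have hC1S : 0 ≤ C1 * S := by positivity
  have hX1 : 1 ≤ X := by
    have h1 : 1 ≤ Real.exp (C1 * S + 1) := Real.one_le_exp (by positivity)
    have h2 : 1 ≤ Real.exp (4 * A) := Real.one_le_exp (by positivity)
    rw [hX]
    nlinarith [mul_le_mul hP01 h1 zero_le_one (by linarith)]
  set B : ℝ := Real.sqrt X with hB
  have hB1 : 1 ≤ B := Real.one_le_sqrt.2 hX1
  have hB2 : B ^ 2 = X := Real.sq_sqrt (by linarith)
  obtain ⟨Λ, hΛ, C, hC, hstep⟩ := hst B hB1 Λ0 hΛ0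
  have hC0 : 0 < C := by linarith
  refine ⟨1 / C, by positivity, fun W s D l F Q f M hsup hgap hw hlim h0 hh0 hbd0 hg0 => ?_⟩
  set η : ℕ → ℝ := fun i => s i * et D l i with hη
  have hη0 : ∀ i, 0 ≤ η i := fun i => mul_nonneg (M.s0 i) (et_nonneg D l i)
  have hηs : Summable η := summable_of_sum_range_le hη0 hgap
  have hηi : ∀ i, C * et D l i ≤ 1 := by
    intro i
    calc C * et D l i ≤ C * (1 / C) := mul_le_mul_of_nonneg_left (hsup i) hC0.le
      _ = 1 := by field_simp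
  -- the invariant
  set Pz : ℕ → E m → ℝ := fun i z => P0 * Real.exp (C1 * ∑ t ∈ Finset.range i, wt W Q t z +
    C * ∑ t ∈ Finset.range i, η t) with hPz
  have hPA : ∀ i z, 400 * A ≤ Pz i z := by
    intro i z
    rw [hPz]
    have h1 : 0 ≤ ∑ t ∈ Finset.range i, wt W Q t z :=
      Finset.sum_nonneg fun t _ => wt_nonneg W Q t z
    have h2 : 0 ≤ ∑ t ∈ Finset.range i, η t := Finset.sum_nonneg fun t _ => hη0 t
    have h3 : 1 ≤ Real.exp (C1 * ∑ t ∈ Finset.range i, wt W Q t z +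
      C * ∑ t ∈ Finset.range i, η t) := Real.one_le_exp (by positivity)
    have : P0 * 1 ≤ P0 * Real.exp (C1 * ∑ t ∈ Finset.range i, wt W Q t z +
      C * ∑ t ∈ Finset.range i, η t) := mul_le_mul_of_nonneg_left h3 (by linarith)
    linarith
  set Good : ℕ → (E m → Fin N → ℂ) → Prop := fun i H =>
    (∀ j, ∃ b', Lc b' (Λ * Real.sqrt (D i)) (fun z => H z j)) ∧
    (∀ z, ‖z‖ ≤ 1 → bd (F i z) (H z) = 1) ∧
    (∀ z, ‖z‖ ≤ 1 → nsq (H z) * Real.exp (-(A * nsq (F i z))) ≤ Pz i z) with hGood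
  have hsize2 : ∀ i H, Good i H → ∀ z, ‖z‖ ≤ 1 → nsq (H z) ≤ X := by
    intro i H hH z hz
    have h1 := hH.2.2 z hz
    have h2 : Pz i z ≤ P0 * Real.exp (C1 * S + 1) := by
      rw [hPz]
      refine mul_le_mul_of_nonneg_left (Real.exp_le_exp.2 ?_) (by linarith)
      have h3 : C1 * ∑ t ∈ Finset.range i, wt W Q t z ≤ C1 * S :=
        mul_le_mul_of_nonneg_left (hw z hz i) (by linarith)
      have h4 : C * ∑ t ∈ Finset.range i, η t ≤ C * (1 / C) :=
        mul_le_mul_of_nonneg_left (hgap i) hC0.le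
      have h5 : C * (1 / C) = 1 := by field_simp
      linarith
    have h3 : nsq (F i z) ≤ 4 := by
      rw [← nn_sq]
      have := (M.Fb i z hz).2
      nlinarith [nn_nonneg (F i z)]
    rw [hX]
    have h4 : nsq (H z) = nsq (H z) * Real.exp (-(A * nsq (F i z))) *
        Real.exp (A * nsq (F i z)) := by
      rw [mul_assoc, ← Real.exp_add]
      simp
    rw [h4]
    have h5 : Real.exp (A * nsq (F i z)) ≤ Real.exp (4 * A) := Real.exp_le_exp.2 (by nlinarith)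
    exact mul_le_mul (h1.trans h2) h5 (Real.exp_pos _).le (by positivity)
  have hsize : ∀ i H, Good i H → ∀ z, ‖z‖ ≤ 1 → nn (H z) ≤ B := by
    intro i H hH z hz
    refine Pool.Agent.K9h23.Lac.nn_le_of (by linarith) ?_
    rw [hB2]
    exact hsize2 i H hH z hz
  have hnext : ∀ i H, Good i H → ∃ H', Good (i + 1) H' ∧
      ∀ z, ‖z‖ ≤ 1 → ∀ j, ‖H' z j - H z j‖ ≤ C * (nn (Q i z) + η i) := by
    intro i H hH
    have hsz := hsize i H hH
    have hl : ∀ j, Lc B (Λ * Real.sqrt (D i)) (fun z => H z j) := by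
      intro j
      obtain ⟨b', hb'⟩ := hH.1 j
      exact ⟨hb'.meas, hb'.dif, hb'.L0, fun z hz => (comp_le_nn _ j).trans (hsz z hz), hb'.lip⟩
    obtain ⟨H', h1, h2, h3⟩ := hstep W s D l F Q M i (hηi i) H hl hsz hH.2.1
    refine ⟨H', ⟨h1, h2, fun z hz => ?_⟩, fun z hz j => (h3 z hz).2 j⟩
    refine ((h3 z hz).1 _ (hPA i z) (hH.2.2 z hz)).trans (le_of_eq ?_)
    rw [hPz]
    simp only
    rw [mul_assoc, ← Real.exp_add, Finset.sum_range_succ, Finset.sum_range_succ]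
    congr 2
    ring
  have hgood0 : Good 0 h0 := by
    refine ⟨fun j => ?_, hbd0, fun z hz => ?_⟩
    · obtain ⟨b', hb'⟩ := hh0 j
      exact ⟨b', hb'.mono le_rfl (mul_le_mul_of_nonneg_right hΛ (Real.sqrt_nonneg _))⟩
    · have h3 : Pz 0 z = P0 := by
        rw [hPz]
        simp
      rw [h3]
      exact hg0 z hz
  -- the sequence
  choose! nx hnx1 hnx2 using hnext
  set sq : ℕ → E m → Fin N → ℂ := fun i => Nat.rec h0 (fun i H => nx i H) i with hsq
  have hsq0 : sq 0 = h0 := rfl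
  have hsqs : ∀ i, sq (i + 1) = nx i (sq i) := fun i => rfl
  have hgood : ∀ i, Good i (sq i) := by
    intro i
    induction i with
    | zero => exact hgood0
    | succ i ih =>
      rw [hsqs]
      exact hnx1 i _ ih
  have hQb : ∀ i z a, ‖z‖ ≤ 1 → ‖Q i z a‖ ≤ 4 := by
    intro i z a hz
    have e : Q i z a = F (i + 1) z a - F i z a := by
      rw [M.Fs]; ring
    rw [e]
    refine (norm_sub_le _ _).trans ?_
    have h1 := (comp_le_nn _ a).trans (M.Fb (i + 1) z hz).2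
    have h2 := (comp_le_nn _ a).trans (M.Fb i z hz).2
    linarith
  have hQr : ∀ i z r, ‖z‖ ≤ r → r < 1 → nn (Q i z) ≤ (N + 1) * (4 * r ^ i) := by
    intro i z r hz hr
    have hr0 : 0 ≤ r := (norm_nonneg z).trans hz
    refine nn_le_comp (by positivity) fun a => ?_
    have h1 := (M.Qg i a).schwarz (fun z hz => hQb i z a hz) (hz.trans hr.le)
    refine h1.trans (mul_le_mul_of_nonneg_left ?_ (by norm_num))
    refine (pow_le_pow_left₀ (norm_nonneg _) hz _).trans ?_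
    exact pow_le_pow_of_le_one hr0 hr.le (M.li i)
  set C2 : ℝ := C * (4 * (N + 1) + 1) with hC2
  have hlimj : ∀ j, ∃ g : (Fin m → ℂ) → ℂ, DifferentiableOn ℂ g (Bal m) ∧
      ∀ z ∈ Bal m, Tendsto (fun k => sq k (WithLp.toLp 2 z) j) atTop (𝓝 (g z)) := by
    intro j
    refine limit_on (u := fun k z => sq k (WithLp.toLp 2 z) j)
      (fun k => ?_) hηs (C1 := C2) (M := B) (fun k r hr0 hr1 z hz => ?_)
      (fun k z hz => (comp_le_nn _ j).trans (hsize k _ (hgood k) _ (toLp_lt hz).le))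
    · obtain ⟨b', hb'⟩ := (hgood k).1 j
      exact toLp_diffOn hb'
    · have hy1 : ‖(WithLp.toLp 2 z : E m)‖ ≤ r := toLp_le hr0.le hz
      have h1 := hnx2 k _ (hgood k) (WithLp.toLp 2 z) (by linarith) j
      rw [← hsqs] at h1
      refine h1.trans ?_
      have h2 := hQr k _ r hy1 hr1
      have h3 : 0 ≤ r ^ k := by positivity
      have h4 := hη0 k
      rw [hC2, mul_assoc]
      refine mul_le_mul_of_nonneg_left ?_ hC0.le
      have h5 : 0 ≤ 4 * ((N:ℝ) + 1) * η k := by positivity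
      have h6 : (4 * ((N:ℝ) + 1) + 1) * (η k + r ^ k) = 4 * (N + 1) * η k + η k +
        (4 * (N + 1)) * r ^ k + r ^ k := by ring
      rw [h6]
      linarith
  choose g hg1 hg2 using hlimj
  refine ⟨g, hg1, fun z hz => ?_, fun z hz => ?_⟩
  · have h1 : Tendsto (fun k => nsq (sq k (WithLp.toLp 2 z))) atTop
        (𝓝 (nsq (fun j => g j z))) := by
      unfold nsq
      exact tendsto_finsetSum _ fun j _ => ((hg2 j z hz).norm).pow 2
    exact le_of_tendsto h1 (Eventually.of_forall fun k => hsize2 k _ (hgood k) _ (toLp_lt hz).le)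
  · have h1 : Tendsto (fun k => ∑ j, F k (WithLp.toLp 2 z) j * sq k (WithLp.toLp 2 z) j) atTop
        (𝓝 (∑ j, f (WithLp.toLp 2 z) j * g j z)) :=
      tendsto_finsetSum _ fun j _ => (hlim _ (toLp_lt hz) j).mul (hg2 j z hz)
    have h2 : (fun k => ∑ j, F k (WithLp.toLp 2 z) j * sq k (WithLp.toLp 2 z) j) =
        fun _ => (1:ℂ) := by
      funext k
      exact (hgood k).2.1 _ (toLp_lt hz).le
    rw [h2] at h1
    exact tendsto_nhds_unique h1 tendsto_const_nhds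

end Pool.Agent.K9h23.Mix
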