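import Mathlib

/-!
Riesz products.
-/

set_option autoImplicit false

open Complex Set

namespace Pool.Agent.K9h23.Mix

namespace Rz

/-- the mean over the powers of `ζ` -/
noncomputable def mean (N : ℕ) (ζ : ℂ) (f : ℂ → ℂ) : ℂ :=
  (∑ j ∈ Finset.range N, f (ζ ^ j)) / N

lemma mean_zpow {N : ℕ} (hN : N ≠ 0) {ζ : ℂ} (hζ : IsPrimitiveRoot ζ N) (k : ℤ) (hk : k ≠ 0)
    (hk' : |k| < N) : mean N ζ (fun w => w ^ k) = 0 := by
  have h1 : ζ ^ k ≠ 1 := by
    intro h
    exact hk (Int.eq_zero_of_abs_lt_dvd ((hζ.zpow_eq_one_iff_dvd k).1 h) hk')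
  have h2 : ∀ j : ℕ, (ζ ^ j) ^ k = (ζ ^ k) ^ j := by
    intro j
    rw [← zpow_natCast, ← zpow_natCast, ← zpow_mul, ← zpow_mul, mul_comm]
  have h3 : (ζ ^ k) ^ N = 1 := by
    rw [← h2, hζ.pow_eq_one, one_zpow]
  rw [mean]
  simp only [h2]
  rw [geom_sum_eq h1, h3]
  simp

lemma mean_one {N : ℕ} (hN : N ≠ 0) (ζ : ℂ) : mean N ζ (fun _ => 1) = 1 := by
  rw [mean, Finset.sum_const, Finset.card_range, nsmul_eq_mul, mul_one]
  exact div_self (Nat.cast_ne_zero.2 hN)

end Rz

open Classical in
/-- **Riesz products.** -/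
theorem riesz (l : ℕ → ℕ) (hl0 : 1 ≤ l 0) (hl : ∀ i, 20 * l i ≤ l (i + 1)) (E : Set ℕ)
    (M D : ℕ) (a : ℕ → ℂ)
    (ha : ∀ k, 1 ≤ k → a k ≠ 0 → (∃ i ∈ E, k = l i) ∨ ∀ i ∈ E, 2 * k < l i ∨ 2 * l i < k)
    {B : ℝ} (hB : ∀ ω : ℂ, ‖ω‖ = 1 → ‖∑ k ∈ Finset.range (D + 1), a k * ω ^ k‖ ≤ B)
    (hD : ∀ i < M, l i ≤ D) :
    ∑ i ∈ Finset.range M, (if i ∈ E then ‖a (l i)‖ else 0) ≤ 2 * (B + ‖a 0‖) := by
  -- the frequencies
  have hpos : ∀ i, 1 ≤ l i := by
    intro i
    induction i with
    | zero => exact hl0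
    | succ i ih => have := hl i; omega
  have hmono : StrictMono l := strictMono_nat_of_lt_succ fun i => by
    have := hl i; have := hpos i; omega
  set S : ℕ → ℕ := fun i => ∑ t ∈ Finset.range i, l t with hS
  have hS0 : S 0 = 0 := by simp [hS]
  have hSs : ∀ i, S (i + 1) = S i + l i := fun i => Finset.sum_range_succ _ _
  have hSl : ∀ i, 19 * S i ≤ l i := by
    intro i
    induction i with
    | zero => rw [hS0]; omega
    | succ i ih => rw [hSs]; have := hl i; omega
  have hSm : ∀ i j, i ≤ j → S i ≤ S j := by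
    intro i j hij
    induction j, hij using Nat.le_induction with
    | base => exact le_rfl
    | succ j _ ih => rw [hSs]; omega
  -- the roots of unity
  set N : ℕ := 4 * (D + S M + 1) with hN
  have hN0 : N ≠ 0 := by omega
  set ζ : ℂ := Complex.exp (2 * Real.pi * Complex.I / N) with hζd
  have hζ : IsPrimitiveRoot ζ N := Complex.isPrimitiveRoot_exp N hN0
  have hn : ∀ j : ℕ, ‖ζ ^ j‖ = 1 := by
    intro j
    rw [norm_pow, hζ.norm'_eq_one hN0, one_pow]
  -- the phases
  set c : ℕ → ℂ := fun i => a (l i) / ‖a (l i)‖ with hc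
  have hc1 : ∀ i, ‖c i‖ ≤ 1 := by
    intro i
    simp only [hc, norm_div, Complex.norm_real, norm_norm]
    exact div_self_le_one _
  have hca : ∀ i, a (l i) * (starRingEnd ℂ) (c i) = ‖a (l i)‖ := by
    intro i
    simp only [hc, map_div₀, Complex.conj_ofReal]
    rcases eq_or_ne (a (l i)) 0 with h | h
    · simp [h]
    · have h1 : (‖a (l i)‖ : ℂ) ≠ 0 := by
        rw [Complex.ofReal_ne_zero]; exact norm_ne_zero_iff.2 h
      rw [← mul_div_assoc, Complex.mul_conj, Complex.normSq_eq_norm_sq, div_eq_iff h1]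
      push_cast
      ring
  -- the Riesz product
  set R : ℕ → ℂ → ℝ := fun i w => ∏ t ∈ Finset.range i,
    (if t ∈ E then 1 + (c t * w ^ (l t)).re else 1) with hR
  have hR0 : ∀ w, R 0 w = 1 := fun w => by simp [hR]
  have hRs : ∀ i w, R (i + 1) w = R i w * (if i ∈ E then 1 + (c i * w ^ (l i)).re else 1) :=
    fun i w => Finset.prod_range_succ _ _
  have hRn : ∀ i w, ‖w‖ = 1 → 0 ≤ R i w := by
    intro i w hw
    refine Finset.prod_nonneg fun t _ => ?_
    split_ifs
    · have h1 : |(c t * w ^ (l t)).re| ≤ 1 := by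
        refine (Complex.abs_re_le_norm _).trans ?_
        rw [norm_mul, norm_pow, hw, one_pow, mul_one]
        exact hc1 t
      have := (abs_le.1 h1).1
      linarith
    · exact zero_le_one
  set m : ℕ → ℤ → ℂ := fun i k => Rz.mean N ζ (fun w => w ^ k * (R i w : ℂ)) with hm
  have hm0 : ∀ k : ℤ, k ≠ 0 → k.natAbs < N → m 0 k = 0 := by
    intro k h1 h2
    simp only [hm, hR0, Complex.ofReal_one, mul_one]
    refine Rz.mean_zpow hN0 hζ k h1 ?_
    rw [Int.abs_eq_natAbs]
    exact_mod_cast h2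
  have hm00 : m 0 0 = 1 := by
    simp only [hm, hR0, Complex.ofReal_one, mul_one, zpow_zero]
    exact Rz.mean_one hN0 ζ
  have hms : ∀ i, i ∈ E → ∀ k : ℤ, m (i + 1) k = m i k + c i / 2 * m i (k + l i) +
      (starRingEnd ℂ) (c i) / 2 * m i (k - l i) := by
    intro i hi k
    simp only [hm, Rz.mean, hRs, if_pos hi]
    rw [← mul_div_assoc, ← mul_div_assoc, ← add_div, ← add_div, Finset.mul_sum, Finset.mul_sum,
      ← Finset.sum_add_distrib, ← Finset.sum_add_distrib]
    congr 1
    refine Finset.sum_congr rfl fun j _ => ?_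
    have hw : ‖ζ ^ j‖ = 1 := hn j
    generalize ζ ^ j = w at hw
    have hw0 : w ≠ 0 := by
      intro h; rw [h, norm_zero] at hw; exact zero_ne_one hw
    have h1 : (((c i * w ^ (l i)).re : ℝ) : ℂ) =
        (c i * w ^ (l i) + (starRingEnd ℂ) (c i) * w ^ (-(l i : ℤ))) / 2 := by
      have h2 : (starRingEnd ℂ) w = w⁻¹ := (Complex.inv_eq_conj hw).symm
      rw [Complex.re_eq_add_conj, map_mul, map_pow, h2, zpow_neg, zpow_natCast, inv_pow]
    push_cast
    rw [h1, zpow_add₀ hw0, zpow_sub₀ hw0, zpow_neg, zpow_natCast]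
    field_simp
    ring
  have hmn : ∀ i, i ∉ E → ∀ k : ℤ, m (i + 1) k = m i k := by
    intro i hi k
    simp only [hm, hRs, if_neg hi, mul_one]
  -- the support
  have hsupp : ∀ i, ∀ k : ℤ, S i < k.natAbs → k.natAbs + S i < N → m i k = 0 := by
    intro i
    induction i with
    | zero =>
      intro k h1 h2
      rw [hS0] at h1 h2
      exact hm0 k (by omega) (by omega)
    | succ i ih =>
      intro k h1 h2
      rw [hSs] at h1 h2
      by_cases hi : i ∈ E
      · rw [hms i hi, ih k (by omega) (by omega), ih (k + l i) (by omega) (by omega),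
          ih (k - l i) (by omega) (by omega)]
        simp
      · rw [hmn i hi]
        exact ih k (by omega) (by omega)
  have hSM : ∀ i, i < M → S i + l i ≤ S M := by
    intro i hi
    rw [← hSs]
    exact hSm _ _ hi
  have hm1 : ∀ i, i ≤ M → m i 0 = 1 := by
    intro i
    induction i with
    | zero => intro _; exact hm00
    | succ i ih =>
      intro hi
      by_cases hE : i ∈ E
      · have h1 := hSM i (by omega)
        have h2 := hSl i
        have h3 := hpos i
        rw [hms i hE, ih (by omega), hsupp i (0 + l i) (by omega) (by omega),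
          hsupp i (0 - l i) (by omega) (by omega)]
        simp
      · rw [hmn i hE]; exact ih (by omega)
  have hm2 : ∀ i, i ∈ E → ∀ t, i + 1 ≤ t → t ≤ M → m t (l i) = (starRingEnd ℂ) (c i) / 2 := by
    intro i hi t ht
    induction t, ht using Nat.le_induction with
    | base =>
      intro hiM
      have h1 := hSM i (by omega)
      have h2 := hSl i
      have h3 := hpos i
      rw [hms i hi, hsupp i (l i) (by omega) (by omega),
        hsupp i (l i + l i) (by omega) (by omega), sub_self, hm1 i (by omega)]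
      simp
    | succ t ht ih =>
      intro htM
      by_cases hE : t ∈ E
      · have h1 := hSM t (by omega)
        have h2 := hSl t
        have h3 := hpos t
        have h4 : 20 * l i ≤ l t := by
          calc 20 * l i ≤ l (i + 1) := hl i
            _ ≤ l t := hmono.monotone ht
        rw [hms t hE, ih (by omega), hsupp t (l i + l t) (by omega) (by omega),
          hsupp t (l i - l t) (by omega) (by omega)]
        simp
      · rw [hmn t hE]; exact ih (by omega)
  have hm3 : ∀ k : ℕ, 1 ≤ k → k ≤ D → (∀ i ∈ E, 2 * k < l i ∨ 2 * l i < k) →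
      ∀ t ≤ M, m t k = 0 := by
    intro k hk1 hkD hk t
    induction t with
    | zero => intro _; exact hm0 k (by omega) (by omega)
    | succ t ih =>
      intro htM
      by_cases hE : t ∈ E
      · have h1 := hSM t (by omega)
        have h2 := hSl t
        have h3 := hpos t
        have h4 := hD t (by omega)
        rcases hk t hE with h5 | h5
        · rw [hms t hE, ih (by omega), hsupp t (k + l t) (by omega) (by omega),
            hsupp t (k - l t) (by omega) (by omega)]
          simp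
        · rw [hms t hE, ih (by omega), hsupp t (k + l t) (by omega) (by omega),
            hsupp t (k - l t) (by omega) (by omega)]
          simp
      · rw [hmn t hE]; exact ih (by omega)
  -- the sum
  have hsum : Rz.mean N ζ (fun w => (∑ k ∈ Finset.range (D + 1), a k * w ^ k) * (R M w : ℂ)) =
      ∑ k ∈ Finset.range (D + 1), a k * m M k := by
    simp only [hm, Rz.mean, Finset.sum_mul]
    rw [Finset.sum_comm, Finset.sum_div]
    refine Finset.sum_congr rfl fun k _ => ?_
    rw [← mul_div_assoc, Finset.mul_sum]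
    congr 1
    refine Finset.sum_congr rfl fun j _ => ?_
    rw [zpow_natCast]; ring
  have hval : ∑ k ∈ Finset.range (D + 1), a k * m M k =
      a 0 + ∑ i ∈ (Finset.range M).filter (· ∈ E), (‖a (l i)‖ : ℂ) / 2 := by
    rw [Finset.sum_range_succ', Nat.cast_zero, hm1 M le_rfl, mul_one, add_comm]
    congr 1
    have e1 : ∑ k ∈ Finset.range D, a (k + 1) * m M ((k + 1 : ℕ) : ℤ) =
        ∑ k ∈ Finset.Icc 1 D, a k * m M (k : ℤ) := by
      rw [Finset.range_eq_Ico, Finset.sum_Ico_add' (fun k => a k * m M ((k : ℕ) : ℤ)) 0 D 1]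
      rfl
    rw [e1]
    have e2 : ∑ i ∈ (Finset.range M).filter (· ∈ E), (‖a (l i)‖ : ℂ) / 2 =
        ∑ i ∈ (Finset.range M).filter (· ∈ E), a (l i) * m M (l i) := by
      refine Finset.sum_congr rfl fun i hi => ?_
      rw [Finset.mem_filter, Finset.mem_range] at hi
      rw [hm2 i hi.2 M hi.1 le_rfl, ← mul_div_assoc, hca]
    rw [e2, ← Finset.sum_image (f := fun k : ℕ => a k * m M (k : ℤ))
      (fun x _ y _ h => hmono.injective h)]
    symm
    refine Finset.sum_subset ?_ ?_
    · intro k hk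
      rw [Finset.mem_image] at hk
      obtain ⟨i, hi, rfl⟩ := hk
      rw [Finset.mem_filter, Finset.mem_range] at hi
      rw [Finset.mem_Icc]
      exact ⟨hpos i, hD i hi.1⟩
    · intro k hk hk'
      rw [Finset.mem_Icc] at hk
      by_cases h0 : a k = 0
      · rw [h0, zero_mul]
      · rcases ha k hk.1 h0 with ⟨i, hi, rfl⟩ | h
        · have hiM : M ≤ i := by
            by_contra hcon
            exact hk' (Finset.mem_image_of_mem _ (Finset.mem_filter.2
              ⟨Finset.mem_range.2 (by omega), hi⟩))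
          have h1 := hSl M
          have h2 := hpos M
          have h3 : l M ≤ l i := hmono.monotone hiM
          rw [hsupp M (l i) (by omega) (by omega), mul_zero]
        · rw [hm3 k hk.1 hk.2 h M le_rfl, mul_zero]
  -- the bound
  have hbound : ‖Rz.mean N ζ (fun w => (∑ k ∈ Finset.range (D + 1), a k * w ^ k) * (R M w : ℂ))‖ ≤
      B := by
    have h1 : (∑ j ∈ Finset.range N, R M (ζ ^ j)) / N = 1 := by
      have h2 := hm1 M le_rfl
      simp only [hm, Rz.mean, zpow_zero, one_mul] at h2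
      exact_mod_cast h2
    have hNpos : (0 : ℝ) < N := Nat.cast_pos.2 (Nat.pos_of_ne_zero hN0)
    rw [Rz.mean, norm_div, Complex.norm_natCast, div_le_iff₀ hNpos]
    rw [div_eq_iff hNpos.ne', one_mul] at h1
    calc ‖∑ j ∈ Finset.range N, (∑ k ∈ Finset.range (D + 1), a k * (ζ ^ j) ^ k) *
          (R M (ζ ^ j) : ℂ)‖ ≤ ∑ j ∈ Finset.range N,
          ‖(∑ k ∈ Finset.range (D + 1), a k * (ζ ^ j) ^ k) * (R M (ζ ^ j) : ℂ)‖ :=
          norm_sum_le _ _
      _ ≤ ∑ j ∈ Finset.range N, B * R M (ζ ^ j) := by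
          refine Finset.sum_le_sum fun j _ => ?_
          rw [norm_mul, Complex.norm_real, Real.norm_of_nonneg (hRn M _ (hn j))]
          exact mul_le_mul_of_nonneg_right (hB _ (hn j)) (hRn M _ (hn j))
      _ = B * N := by rw [← Finset.mul_sum, h1]
  rw [hsum, hval] at hbound
  set T : ℝ := ∑ i ∈ (Finset.range M).filter (· ∈ E), ‖a (l i)‖ / 2 with hT
  have hTc : (∑ i ∈ (Finset.range M).filter (· ∈ E), (‖a (l i)‖ : ℂ) / 2) = (T : ℂ) := by
    rw [hT]; push_cast; rfl
  have hT0 : 0 ≤ T := Finset.sum_nonneg fun i _ => by positivity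
  rw [hTc] at hbound
  have h1 : T ≤ B + ‖a 0‖ := by
    have h2 : ‖(T : ℂ)‖ ≤ ‖a 0 + (T : ℂ)‖ + ‖a 0‖ := by
      have h3 := norm_sub_le (a 0 + (T : ℂ)) (a 0)
      rwa [add_sub_cancel_left] at h3
    rw [Complex.norm_real, Real.norm_of_nonneg hT0] at h2
    linarith
  have h2 : ∑ i ∈ Finset.range M, (if i ∈ E then ‖a (l i)‖ else 0) = 2 * T := by
    rw [hT, Finset.mul_sum, Finset.sum_filter]
    refine Finset.sum_congr rfl fun i _ => ?_
    split_ifs
    · ring
    · rfl
  rw [h2]
  linarith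

end Pool.Agent.K9h23.Mix
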