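import Mathlib
import Pool.Agent.K9h23.Mix.Rmn
import Pool.Agent.K9h23.Mix.Rz
import Pool.Agent.K9h23.Bnd.Res

/-!
Homogeneous expansions in blocks with gaps: the abstract theorem.
-/

set_option autoImplicit false

open MeasureTheory Set Complex Metric Filter Topology
open scoped Real

namespace Pool.Agent.K9h23.Mix

open Pool.Agent.K9h23.Hom Pool.Agent.K9h23.Bnd
open Pool.Agent.K9h23.Lac (nsq nsq_nonneg nsq_cont nsq_c nn nn_nonneg nn_sq nn_add_le le_nsq
  nsq_smul' bd bd_le_nn comp_le_nn nsq_conj nn_le_comp GG GG_prop Adm Bal isOpen_Bal)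

variable {m N : ℕ}

/-- expansions in blocks -/
structure DM (d : ℕ) (l u : ℕ → ℕ) (H : ℕ → E m → Fin N → ℂ) (f : E m → Fin N → ℂ) : Prop where
  Hd : ∀ k j, Hm k (fun z => H k z j)
  Hs : ∀ z, ‖z‖ < 1 → ∀ j, HasSum (fun k => H k z j) (f z j)
  sp : ∀ k, d < k → (∀ i, ¬ (l i ≤ k ∧ k ≤ u i)) → ∀ z j, H k z j = 0
  fb : ∀ z, ‖z‖ < 1 → nn (f z) ≤ 1
  ld : d < l 0
  lu : ∀ i, l i ≤ u i
  ll : ∀ i, u i < l (i + 1)

/-- the degrees of the partial sums -/
def Du (d : ℕ) (u : ℕ → ℕ) : ℕ → ℕ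
  | 0 => d
  | i + 1 => u i

/-- the partial sums -/
noncomputable def Fu (d : ℕ) (u : ℕ → ℕ) (H : ℕ → E m → Fin N → ℂ) (i : ℕ) (z : E m)
    (j : Fin N) : ℂ := cut (Du d u i) (fun k z => H k z j) z

/-- the blocks -/
noncomputable def Qu (l u : ℕ → ℕ) (H : ℕ → E m → Fin N → ℂ) (i : ℕ) (z : E m)
    (j : Fin N) : ℂ := ∑ k ∈ Finset.Icc (l i) (u i), H k z j

variable {d : ℕ} {l u : ℕ → ℕ} {H : ℕ → E m → Fin N → ℂ} {f : E m → Fin N → ℂ}

theorem DM.Du_lt (D : DM d l u H f) (i : ℕ) : Du d u i < l i := by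
  cases i with
  | zero => exact D.ld
  | succ i => exact D.ll i

theorem DM.lm (D : DM d l u H f) : StrictMono l :=
  strictMono_nat_of_lt_succ fun i => (D.lu i).trans_lt (D.ll i)

theorem DM.um (D : DM d l u H f) : StrictMono u :=
  strictMono_nat_of_lt_succ fun i => (D.ll i).trans_le (D.lu (i + 1))

theorem DM.Du_ge (D : DM d l u H f) (i : ℕ) : d ≤ Du d u i := by
  cases i with
  | zero => exact le_rfl
  | succ i =>
    change d ≤ u i
    have h1 := D.lu i
    have h2 := D.lm.monotone (Nat.zero_le i)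
    have h3 := D.ld
    omega

theorem DM.gap (D : DM d l u H f) (i : ℕ) {k : ℕ} (hk : Du d u i < k) (hk' : k < l i)
    (z : E m) (j : Fin N) : H k z j = 0 := by
  have hd := D.Du_ge i
  refine D.sp k (by omega) (fun i' hi' => ?_) z j
  rcases lt_or_ge i' i with h | h
  · cases i with
    | zero => exact absurd h (Nat.not_lt_zero _)
    | succ i =>
      have h1 : u i' ≤ u i := D.um.monotone (by omega)
      have h2 : u i < k := hk
      omega
  · have h1 := D.lm.monotone h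
    omega

theorem DM.succ (D : DM d l u H f) (i : ℕ) (z : E m) (j : Fin N) :
    Fu d u H (i + 1) z j = Fu d u H i z j + Qu l u H i z j := by
  unfold Fu Qu cut
  change ∑ k ∈ Finset.range (u i + 1), H k z j = _
  have h1 := D.Du_lt i
  have h2 := D.lu i
  have h3 : ∑ k ∈ Finset.range (Du d u i + 1), H k z j = ∑ k ∈ Finset.range (l i), H k z j := by
    refine Finset.sum_subset (Finset.range_mono (by omega)) fun k hk hk' => ?_
    rw [Finset.mem_range] at hk hk'
    exact D.gap i (by omega) hk z j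
  rw [h3, ← Finset.Ico_add_one_right_eq_Icc, Finset.sum_range_add_sum_Ico _ (by omega)]

theorem DM.Fg (D : DM d l u H f) (i : ℕ) (j : Fin N) :
    Gr 0 (Du d u i) (fun z => Fu d u H i z j) := cut_gr (fun k => D.Hd k j) _

theorem DM.Qg (D : DM d l u H f) (i : ℕ) (j : Fin N) :
    Gr (l i) (u i) (fun z => Qu l u H i z j) :=
  ⟨fun k z => H k z j, fun k => D.Hd k j, fun _ => rfl⟩

theorem DM.tend (D : DM d l u H f) {z : E m} (hz : ‖z‖ < 1) (j : Fin N) :
    Tendsto (fun i => Fu d u H i z j) atTop (𝓝 (f z j)) := by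
  have h1 := (D.Hs z hz j).tendsto_sum_nat
  have h2 : Tendsto (fun i => Du d u i + 1) atTop atTop := by
    refine tendsto_atTop_mono (fun i => ?_) tendsto_id
    cases i with
    | zero => exact Nat.zero_le _
    | succ i =>
      change i + 1 ≤ u i + 1
      have h4 := D.um.le_apply (x := i)
      omega
  exact h1.comp h2

/-- the gaps -/
theorem gap_term {D l : ℕ → ℕ} {c : ℝ} (hl : ∀ i, 1 ≤ l i)
    (h : ∀ i, et D l i ≤ c) (i : ℕ) : (D i : ℝ) ≤ c ^ 2 * l i := by
  have h3 := h i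
  have hl0 : (0:ℝ) < l i := by exact_mod_cast hl i
  unfold et at h3
  rw [div_le_iff₀ (Real.sqrt_pos.2 hl0)] at h3
  have h4 := pow_le_pow_left₀ (Real.sqrt_nonneg _) h3 2
  rwa [mul_pow, Real.sq_sqrt hl0.le, Real.sq_sqrt (Nat.cast_nonneg _)] at h4

/-- bounds of the partial sums -/
theorem DM.bounds (N : ℕ) {δ : ℝ} (hδ : 0 < δ) (hδ1 : δ ≤ 1) : ∃ c : ℝ, 0 < c ∧ c ≤ 1 / 5 ∧
    ∀ (m d : ℕ) (l u : ℕ → ℕ) (H : ℕ → E m → Fin N → ℂ) (f : E m → Fin N → ℂ), DM d l u H f →
    (∀ z, ‖z‖ < 1 → δ ≤ nn (f z)) → (∀ i, et (Du d u) l i ≤ c) →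
    ∀ i, 1 ≤ Du d u i → ∀ z, ‖z‖ ≤ 1 → δ / 2 ≤ nn (Fu d u H i z) ∧ nn (Fu d u H i z) ≤ 2 := by
  obtain ⟨c, hc, hc1, hfro⟩ := fro N hδ hδ1
  refine ⟨min c (1 / 5), lt_min hc (by norm_num), min_le_right _ _,
    fun m d l u H f D hfl hgap i hi => ?_⟩
  set c2 := min c (1 / 5) with hc2
  have hc20 : 0 < c2 := lt_min hc (by norm_num)
  have hc21 : c2 ≤ 1 / 5 := min_le_right _ _
  have hl1 : ∀ i, 1 ≤ l i := fun i => by have := D.Du_lt i; omega
  have h1 := gap_term hl1 hgap i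
  have hl0 : (0:ℝ) < l i := by exact_mod_cast hl1 i
  have h2 : (Du d u i : ℝ) ≤ c * l i := by
    refine h1.trans (mul_le_mul_of_nonneg_right ?_ hl0.le)
    have : c2 ≤ c := min_le_left _ _
    nlinarith
  have h3 : ∀ z, ‖z‖ < 1 → δ / 2 ≤ nn (Fu d u H i z) ∧ nn (Fu d u H i z) ≤ 2 := fun z hz =>
    hfro (Du d u i) (l i) hi (D.Du_lt i) h2 m H f D.Hd D.Hs D.fb hfl
      (fun k hk hk' z j => D.gap i hk hk' z j) z hz
  have hFd : ∀ j, Differentiable ℂ (fun z => Fu d u H i z j) := fun j => (D.Fg i j).diff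
  have hFc : Continuous (fun z => nn (Fu d u H i z)) :=
    nn_cont.comp (continuous_pi fun j => (hFd j).continuous)
  intro z hz
  refine ⟨closed_of_ball hFc (fun z hz => (h3 z hz).1) hz, ?_⟩
  have h1 := closed_of_ball (g := fun z => -nn (Fu d u H i z)) hFc.neg (a := -2)
    (fun z hz => by
      have := (h3 z hz).2
      linarith) hz
  linarith

/-- the constant of the step -/
noncomputable def Ad (δ : ℝ) : ℝ := 4 + 64 / δ ^ 2

theorem Ad_4 {δ : ℝ} : 4 ≤ Ad δ := by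
  unfold Ad
  have : 0 ≤ 64 / δ ^ 2 := by positivity
  linarith

theorem Ad_16 {δ : ℝ} (hδ : 0 < δ) : 16 ≤ Ad δ * (δ / 2) ^ 2 := by
  unfold Ad
  have h1 : (4 + 64 / δ ^ 2) * (δ / 2) ^ 2 = δ ^ 2 + 16 := by
    field_simp
    ring
  rw [h1]
  nlinarith [sq_nonneg δ]

/-- the hypotheses on the blocks, abstract form -/
structure HM (δ c S : ℝ) (K : ℕ) (W : Set ℕ) (s : ℕ → ℝ) (d : ℕ) (l u : ℕ → ℕ)
    (H : ℕ → E m → Fin N → ℂ) : Prop where
  sup : ∀ i, et (Du d u) l i ≤ c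
  gap : ∀ I, ∑ i ∈ Finset.range I, s i * et (Du d u) l i ≤ c
  s0 : ∀ i, 0 ≤ s i
  s1 : ∀ i, s i ≤ 1
  sW : ∀ i ∈ W, s i = 1
  sQ : ∀ i, i ∉ W → ∀ z, ‖z‖ < 1 → nn (Qu l u H i z) ≤ s i
  lg : ∀ i ∈ W, u i ≤ K * l i
  sm : ∀ i, i ∉ W → ∀ z, ‖z‖ < 1 → nsq (Qu l u H i z) * (100 * Ad δ ^ 2) ^ 2 ≤ 1
  sb : ∀ z, ‖z‖ < 1 → ∀ I, ∑ i ∈ Finset.range I, wt W (Qu l u H) i z ≤ S

/-- upper bounds pass to the closed ball -/
theorem le_closed {g : E m → ℝ} (hg : Continuous g) {a : ℝ} (h : ∀ z, ‖z‖ < 1 → g z ≤ a)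
    {z : E m} (hz : ‖z‖ ≤ 1) : g z ≤ a := by
  have h1 := closed_of_ball (g := fun z => -g z) hg.neg (a := -a)
    (fun z hz => neg_le_neg (h z hz)) hz
  linarith

/-- **Main theorem**, abstract form. -/
theorem mmain (m N K : ℕ) (hK : 1 ≤ K) {δ : ℝ} (hδ : 0 < δ) (hδ1 : δ ≤ 1) :
    ∃ C1 : ℝ, 1 ≤ C1 ∧ ∀ P0 Λ0 S : ℝ, 400 * Ad δ ≤ P0 → 0 ≤ Λ0 → 0 ≤ S →
    ∃ c : ℝ, 0 < c ∧ ∀ (d : ℕ) (l u : ℕ → ℕ) (W : Set ℕ) (s : ℕ → ℝ)
    (H : ℕ → E m → Fin N → ℂ) (f : E m → Fin N → ℂ), 1 ≤ d → DM d l u H f →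
    (∀ z, ‖z‖ < 1 → δ ≤ nn (f z)) → HM δ c S K W s d l u H →
    ∀ h0 : E m → Fin N → ℂ, (∀ j, ∃ b', Lc b' (Λ0 * Real.sqrt d) (fun z => h0 z j)) →
    (∀ z, ‖z‖ ≤ 1 → bd (Fu d u H 0 z) (h0 z) = 1) →
    (∀ z, ‖z‖ ≤ 1 → nsq (h0 z) * Real.exp (-(Ad δ * nsq (Fu d u H 0 z))) ≤ P0) →
    ∃ g : Fin N → (Fin m → ℂ) → ℂ, (∀ j, DifferentiableOn ℂ (g j) (Bal m)) ∧
      (∀ z ∈ Bal m, nsq (fun j => g j z) ≤ P0 * Real.exp (C1 * S + 1) * Real.exp (4 * Ad δ)) ∧
      ∀ z ∈ Bal m, ∑ j, f (WithLp.toLp 2 z) j * g j z = 1 := by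
  obtain ⟨c1, hc1, hc15, hbd⟩ := DM.bounds N hδ hδ1
  obtain ⟨C1, hC1, hr⟩ := rmain m N K hK (δ := δ / 2) (A := Ad δ) (by positivity) Ad_4
    (Ad_16 hδ)
  refine ⟨C1, hC1, fun P0 Λ0 S hP0 hΛ0 hS => ?_⟩
  obtain ⟨c, hc, hr⟩ := hr P0 Λ0 S hP0 hΛ0 hS
  refine ⟨min c c1, lt_min hc hc1, fun d l u W s H f hd D hfl B h0 hh0 hh1 hg0 => ?_⟩
  have hDu1 : ∀ i, 1 ≤ Du d u i := fun i => hd.trans (D.Du_ge i)
  have hFb : ∀ i z, ‖z‖ ≤ 1 → δ / 2 ≤ nn (Fu d u H i z) ∧ nn (Fu d u H i z) ≤ 2 := fun i =>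
    hbd m d l u H f D hfl (fun i => (B.sup i).trans (min_le_right _ _)) i (hDu1 i)
  have hQc : ∀ i, Continuous (fun z => Qu l u H i z) := fun i =>
    continuous_pi fun j => (D.Qg i j).diff.continuous
  have M : Md (Ad δ) (δ / 2) K W s (Du d u) l (Fu d u H) (Qu l u H) := by
    refine ⟨B.s0, B.s1, B.sW, fun i hi z hz => le_closed (nn_cont.comp (hQc i)) (B.sQ i hi) hz,
      hDu1, fun i => (D.Du_lt i).le, fun i => ?_, fun i => D.lu i, fun i => D.lm.le_apply,
      D.Fg, D.Qg, D.succ, hFb, B.lg, fun i hi z hz =>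
      le_closed ((nsq_cont.comp (hQc i)).mul continuous_const) (B.sm i hi) hz⟩
    have := D.Du_lt i
    have := hDu1 i
    omega
  refine hr W s (Du d u) l (Fu d u H) (Qu l u H) f M (fun i => (B.sup i).trans (min_le_left _ _))
    (fun I => (B.gap I).trans (min_le_left _ _))
    (fun z hz I => ?_) (fun z hz j => D.tend hz j) h0 hh0 hh1 hg0
  have hwc : ∀ i, Continuous (fun z => wt W (Qu l u H) i z) := by
    intro i
    unfold wt
    split_ifs
    · exact continuous_finsetSum _ fun a _ => ((continuous_apply a).comp (hQc i)).norm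
    · exact continuous_const
  exact le_closed (continuous_finsetSum _ fun i _ => hwc i) (fun z hz => B.sb z hz I) hz

open Classical in
/-- **Absolute convergence** of the sum of the homogeneous large blocks. -/
theorem DM.sidon (D : DM d l u H f) {W : Set ℕ} (hW : ∀ i ∈ W, u i = l i)
    {c : ℝ} (hc : c ≤ 1 / 5) (hc0 : 0 ≤ c) (hgap : ∀ i, et (Du d u) l i ≤ c)
    (hFb : ∀ i, 1 ≤ Du d u i → ∀ z, ‖z‖ ≤ 1 → nn (Fu d u H i z) ≤ 2)
    {z : E m} (hz : ‖z‖ < 1) (I : ℕ) :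
    ∑ i ∈ Finset.range I, wt W (Qu l u H) i z ≤ N * 8 := by
  have hl1 : ∀ i, 1 ≤ l i := fun i => by have := D.Du_lt i; omega
  have h25 : ∀ i, 25 * Du d u i ≤ l i := by
    intro i
    have h1 := gap_term hl1 hgap i
    have hl0 : (0:ℝ) < l i := by exact_mod_cast hl1 i
    have h2 : (25 * Du d u i : ℝ) ≤ l i := by
      have : c ^ 2 ≤ 1 / 25 := by nlinarith
      nlinarith
    exact_mod_cast h2
  have h20 : ∀ i, 20 * l i ≤ l (i + 1) := by
    intro i
    have h1 := h25 (i + 1)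
    change 25 * u i ≤ l (i + 1) at h1
    have := D.lu i
    omega
  cases I with
  | zero => simp
  | succ I =>
    have hDI : 1 ≤ Du d u (I + 1) := (hl1 I).trans (D.lu I)
    have hcomp : ∀ a : Fin N, ∑ i ∈ Finset.range (I + 1), (if i ∈ W then ‖H (l i) z a‖ else 0) ≤
        8 := by
      intro a
      have h1 := riesz l (hl1 0) h20 W (I + 1) (u I) (fun k => H k z a) (fun k hk hka => ?_)
        (B := 2) (fun ω hω => ?_) (fun i hi => ?_)
      · refine h1.trans ?_
        have h2 : ‖H 0 z a‖ ≤ 2 := by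
          have e1 : H 0 z a = Fu d u H (I + 1) 0 a := by
            unfold Fu cut
            rw [Finset.sum_range_succ', Finset.sum_eq_zero, zero_add]
            · have := (D.Hd 0 a).h 0 z
              rw [zero_smul, pow_zero, one_mul] at this
              exact this.symm
            · intro k _
              have := (D.Hd (k + 1) a).h 0 0
              rw [zero_smul, zero_pow (by omega), zero_mul] at this
              exact this
          rw [e1]
          exact (comp_le_nn _ a).trans (hFb (I + 1) hDI 0 (by simp))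
        linarith
      · -- the spectrum
        rcases le_or_gt k d with hkd | hkd
        · refine Or.inr fun i _ => Or.inl ?_
          have h2 := h25 0
          change 25 * d ≤ l 0 at h2
          have h3 := D.lm.monotone (Nat.zero_le i)
          have h4 := hl1 0
          omega
        · by_cases hb : ∃ i, l i ≤ k ∧ k ≤ u i
          · obtain ⟨i, hi1, hi2⟩ := hb
            by_cases hiW : i ∈ W
            · refine Or.inl ⟨i, hiW, ?_⟩
              have := hW i hiW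
              omega
            · refine Or.inr fun i' hi' => ?_
              rcases lt_trichotomy i' i with h | h | h
              · right
                have h2 := h20 i'
                have h3 := D.lm.monotone (show i' + 1 ≤ i from h)
                have h4 := hl1 i'
                omega
              · exact absurd (h ▸ hi') hiW
              · left
                have h2 := h25 (i + 1)
                change 25 * u i ≤ l (i + 1) at h2
                have h3 := D.lm.monotone (show i + 1 ≤ i' from h)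
                have h4 := hl1 (i + 1)
                omega
          · exfalso
            apply hka
            exact D.sp k hkd (fun i hi => hb ⟨i, hi⟩) z a
      · have hz' : ‖ω • z‖ ≤ 1 := by rw [norm_smul, hω, one_mul]; exact hz.le
        have h2 := (comp_le_nn _ a).trans (hFb (I + 1) hDI (ω • z) hz')
        refine le_trans (le_of_eq ?_) h2
        unfold Fu cut
        congr 1
        refine Finset.sum_congr rfl fun k _ => ?_
        beta_reduce
        rw [(D.Hd k a).h]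
        ring
      · exact (D.lu i).trans (D.um.monotone (by omega))
    have hwt : ∀ i, wt W (Qu l u H) i z = ∑ a, (if i ∈ W then ‖H (l i) z a‖ else 0) := by
      intro i
      unfold wt
      by_cases hi : i ∈ W
      · simp only [if_pos hi]
        refine Finset.sum_congr rfl fun a _ => ?_
        unfold Qu
        rw [hW i hi, Finset.Icc_self, Finset.sum_singleton]
      · simp only [if_neg hi, Finset.sum_const_zero]
    simp_rw [hwt]
    rw [Finset.sum_comm]
    refine (Finset.sum_le_card_nsmul _ _ 8 fun a _ => hcomp a).trans (le_of_eq ?_)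
    rw [nsmul_eq_mul, Finset.card_univ, Fintype.card_fin]

end Pool.Agent.K9h23.Mix
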