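import Mathlib
import Pool.Agent.K9h23.Mix.Dm

/-!
The corona theorem for expansions in blocks with gaps: polynomial form.
-/

set_option autoImplicit false

open Complex Set Metric Filter Topology MvPolynomial
open scoped Real

namespace Pool.Agent.K9h23.Mix

open Pool.Agent.K9h23.Hom Pool.Agent.K9h23.Bnd
open Pool.Agent.K9h23.Lac (nsq nsq_nonneg nsq_cont nsq_c nn nn_nonneg nn_sq nn_add_le le_nsq
  nsq_smul' bd bd_le_nn comp_le_nn nsq_conj nn_le_comp Bal isOpen_Bal MP Rg Sz ev bez_unif FD)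

variable {n N : ℕ}

theorem gr_poly {D : ℕ} {p : MP n} (hp : Rg 0 D p) : Gr 0 D (fun z : E n => eval z.ofLp p) := by
  have h1 : ∀ z : E n, eval z.ofLp p = ∑ k ∈ Finset.range (p.totalDegree + 1),
      eval z.ofLp (homogeneousComponent k p) := by
    intro z
    rw [← map_sum, sum_homogeneousComponent]
  refine (Gr.sum (Finset.range (p.totalDegree + 1))
    (R := fun k (z : E n) => eval z.ofLp (homogeneousComponent k p)) fun k _ => ?_).congr h1
  rcases Nat.lt_or_ge D k with h | h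
  · have h2 : homogeneousComponent k p = 0 := by
      ext s
      rw [coeff_homogeneousComponent, coeff_zero]
      split_ifs with hs
      · by_contra hcon
        have := (hp s hcon).2
        omega
      · rfl
    refine (Gr.zero 0 D).congr fun z => ?_
    rw [h2, map_zero]
  · refine Gr.single (k := k) ⟨?_, fun c z => ?_⟩ (Nat.zero_le _) h
    · exact (eval_diff _).comp
        ((PiLp.continuousLinearEquiv 2 ℂ (fun _ : Fin n => ℂ))).differentiable
    · exact eval_smul (homogeneousComponent_isHomogeneous k p) c z.ofLp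

/-- the initial data -/
theorem init0 (n N d : ℕ) {δ : ℝ} (hδ : 0 < δ) : ∃ B0 : ℝ, 0 ≤ B0 ∧ ∃ Λ0 : ℝ, 0 ≤ Λ0 ∧
    ∀ p : Fin N → MP n, (∀ j, Rg 0 d (p j)) →
    (∀ z ∈ Bal n, δ ^ 2 ≤ nsq (ev p z) ∧ nsq (ev p z) ≤ 4) →
    ∃ h0 : E n → Fin N → ℂ, (∀ j, Lc B0 Λ0 (fun z => h0 z j)) ∧
      ∀ z : E n, ‖z‖ ≤ 1 → bd (ev p z.ofLp) (h0 z) = 1 := by
  obtain ⟨Λ, hΛ⟩ := bez_unif n N d (c := δ ^ 2) (ε := 1 / 4) (by positivity) (by norm_num)
  set b : ℝ := (FD n Λ).card * Λ with hb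
  have hb0 : 0 ≤ b := by positivity
  refine ⟨b * (1 / (1 / 2)), by positivity, b * (12 * 2 * Real.sqrt ((d + (Λ + 1) : ℕ) : ℝ) /
    (1 / 2) ^ 2) + 1 / (1 / 2) * (12 * b * Real.sqrt ((Λ + 1 : ℕ) : ℝ)), by positivity,
    fun p hp hpb => ?_⟩
  obtain ⟨h, hs, hh⟩ := hΛ p hp hpb
  set R : Fin N → E n → ℂ := fun j z => eval z.ofLp (h j) with hR
  set G : E n → ℂ := fun z => ∑ j, eval z.ofLp (p j) * R j z with hG
  have hRg : ∀ j, Gr 0 (Λ + 1) (R j) := fun j => gr_poly ((hs j).1.mono le_rfl (by omega))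
  have hGg : Gr 0 (d + (Λ + 1)) G := Gr.sum _ fun j _ => (gr_poly (hp j)).mul (hRg j)
  have hRb : ∀ j z, ‖z‖ ≤ 1 → ‖R j z‖ ≤ b := by
    intro j z hz
    have h1 := closed_of_ball (g := fun z => -‖R j z‖) (hRg j).diff.continuous.norm.neg (a := -b)
      (fun z hz => by
        have := hs.bd (ball_ofLp hz) j
        rw [← hb] at this
        simp only [hR]
        linarith) hz
    linarith
  have hG1 : ∀ z, ‖z‖ ≤ 1 → ‖G z - 1‖ ≤ 1 / 4 := by
    intro z hz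
    have h1 := closed_of_ball (g := fun z => -‖G z - 1‖)
      (hGg.diff.continuous.sub continuous_const).norm.neg (a := -(1 / 4))
      (fun z hz => by
        have := hh _ (ball_ofLp hz)
        simp only [hG]
        unfold bd ev at this
        linarith) hz
    linarith
  have hG2 : ∀ z, ‖z‖ ≤ 1 → 1 / 2 ≤ ‖G z‖ := by
    intro z hz
    have h1 := norm_sub_norm_le (1:ℂ) (1 - G z)
    rw [sub_sub_cancel, norm_one, norm_sub_rev] at h1
    have := hG1 z hz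
    linarith
  have hG3 : ∀ z, ‖z‖ ≤ 1 → ‖G z‖ ≤ 2 := by
    intro z hz
    have h1 := norm_add_le (G z - 1) 1
    rw [sub_add_cancel, norm_one] at h1
    have := hG1 z hz
    linarith
  have lG := Lc.of_gr (by omega) hGg (by norm_num) hG3
  have lGi := lG.inv (c := 1 / 2) (by norm_num) hG2
  refine ⟨fun z j => R j z * (G z)⁻¹, fun j => ?_, fun z hz => ?_⟩
  · exact (Lc.of_gr (by omega) (hRg j) hb0 (hRb j)).mul lGi
  · have h0 : G z ≠ 0 := norm_pos_iff.1 (by linarith [hG2 z hz])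
    unfold bd ev
    have h1 : ∑ j, eval z.ofLp (p j) * (R j z * (G z)⁻¹) = G z * (G z)⁻¹ := by
      rw [hG, Finset.sum_mul]
      exact Finset.sum_congr rfl fun j _ => by ring
    rw [h1, mul_inv_cancel₀ h0]

/-- expansions in blocks, polynomial form -/
structure PD (δ : ℝ) (d : ℕ) (l u : ℕ → ℕ) (P : ℕ → Fin N → MP n)
    (f : Fin N → (Fin n → ℂ) → ℂ) : Prop where
  ld : d < l 0
  lu : ∀ i, l i ≤ u i
  ll : ∀ i, u i < l (i + 1)
  hP : ∀ k j, (P k j).IsHomogeneous k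
  sp : ∀ k, d < k → (∀ i, ¬ (l i ≤ k ∧ k ≤ u i)) → ∀ j, P k j = 0
  hs : ∀ z ∈ Bal n, ∀ j, HasSum (fun k => eval z (P k j)) (f j z)
  fb : ∀ z ∈ Bal n, δ ^ 2 ≤ nsq (fun j => f j z) ∧ nsq (fun j => f j z) ≤ 1

variable {δ : ℝ} {d : ℕ} {l u : ℕ → ℕ} {P : ℕ → Fin N → MP n} {f : Fin N → (Fin n → ℂ) → ℂ}

theorem PD.dm (D : PD δ d l u P f) : DM d l u (HH P) (fun z j => f j z.ofLp) := by
  refine ⟨fun k j => HH_Hm D.hP k j, fun z hz j => D.hs _ (ball_ofLp hz) j,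
    fun k hk hkl z j => ?_, fun z hz => ?_, D.ld, D.lu, D.ll⟩
  · unfold HH
    rw [D.sp k hk hkl j, map_zero]
  · have h1 := (D.fb _ (ball_ofLp hz)).2
    exact Pool.Agent.K9h23.Lac.nn_le_of zero_le_one (by rw [one_pow]; exact h1)

theorem PD.low (D : PD δ d l u P f) (z : E n) (hz : ‖z‖ < 1) : δ ≤ nn (fun j => f j z.ofLp) := by
  have h1 := (D.fb _ (ball_ofLp hz)).1
  unfold nn
  exact Real.le_sqrt_of_sq_le h1

/-- bounded solutions -/
def SB (C : ℝ) (f : Fin N → (Fin n → ℂ) → ℂ) : Prop :=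
  ∃ g : Fin N → (Fin n → ℂ) → ℂ, (∀ j, DifferentiableOn ℂ (g j) (Bal n)) ∧
      (∀ z ∈ Bal n, nsq (fun j => g j z) ≤ C) ∧ ∀ z ∈ Bal n, ∑ j, f j z * g j z = 1

theorem SB.mono {C C' : ℝ} (h : SB C f) (hC : C ≤ C') : SB C' f := by
  obtain ⟨g, h1, h2, h3⟩ := h
  exact ⟨g, h1, fun z hz => (h2 z hz).trans hC, h3⟩

/-- the theorem for `d ≥ 1` -/
theorem pmain1 (n N d K : ℕ) (hd : 1 ≤ d) (hK : 1 ≤ K) {δ : ℝ} (hδ : 0 < δ) (hδ1 : δ ≤ 1)
    {S : ℝ} (hS : 0 ≤ S) : ∃ c : ℝ, 0 < c ∧ ∃ C : ℝ, ∀ (l u : ℕ → ℕ) (W : Set ℕ) (s : ℕ → ℝ)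
    (P : ℕ → Fin N → MP n) (f : Fin N → (Fin n → ℂ) → ℂ), PD δ d l u P f →
    HM δ c S K W s d l u (HH P) → SB C f := by
  obtain ⟨c1, hc1, hc15, hbd⟩ := DM.bounds N hδ hδ1
  obtain ⟨B0, hB0, Λ0, hΛ0, hinit⟩ := init0 n N d (δ := δ / 2) (by positivity)
  obtain ⟨C1, hC1, hmain⟩ := mmain n N K hK hδ hδ1
  have hN0 : (0:ℝ) ≤ N := Nat.cast_nonneg N
  set P0 : ℝ := 400 * Ad δ + N * B0 ^ 2 with hP0
  obtain ⟨c, hc, hmain⟩ := hmain P0 Λ0 S (by rw [hP0]; nlinarith [sq_nonneg B0]) hΛ0 hS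
  refine ⟨min c c1, lt_min hc hc1, P0 * Real.exp (C1 * S + 1) * Real.exp (4 * Ad δ),
    fun l u W s P f D B => ?_⟩
  set F : E n → Fin N → ℂ := fun z j => f j z.ofLp with hF
  set p0 : Fin N → MP n := fun j => ∑ k ∈ Finset.range (d + 1), P k j with hp0
  have hp0e : ∀ z : E n, ev p0 z.ofLp = Fu d u (HH P) 0 z := by
    intro z
    funext j
    rw [hp0]
    unfold ev
    simp only [map_sum]
    rfl
  have hp0R : ∀ j, Rg 0 d (p0 j) := by
    intro j
    refine Rg.sum _ _ fun k hk => ?_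
    intro s hs'
    refine ⟨Nat.zero_le _, ?_⟩
    have h1 := D.hP k j hs'
    have h2 : s.degree = k := by
      rw [← h1, Finsupp.weight_apply, Finsupp.sum_fintype, Finsupp.degree_eq_sum]
      · simp
      · simp
    rw [h2]
    rw [Finset.mem_range] at hk
    omega
  have hp0b : ∀ z ∈ Bal n, (δ / 2) ^ 2 ≤ nsq (ev p0 z) ∧ nsq (ev p0 z) ≤ 4 := by
    intro z hz
    have h1 := hbd n d l u (HH P) F D.dm D.low (fun i => (B.sup i).trans (min_le_right _ _)) 0 hd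
      (WithLp.toLp 2 z) (toLp_lt hz).le
    rw [← hp0e] at h1
    have e : (WithLp.toLp 2 z : E n).ofLp = z := rfl
    rw [e] at h1
    have h8 := nn_nonneg (ev p0 z)
    rw [← nn_sq]
    constructor
    · nlinarith
    · nlinarith
  obtain ⟨h0, hh0, hh1⟩ := hinit p0 hp0R hp0b
  have hd1 : 1 ≤ Real.sqrt d := Real.one_le_sqrt.2 (by exact_mod_cast hd)
  have B' : HM δ c S K W s d l u (HH P) :=
    ⟨fun i => (B.sup i).trans (min_le_left _ _), fun I => (B.gap I).trans (min_le_left _ _),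
      B.s0, B.s1, B.sW, B.sQ, B.lg, B.sm, B.sb⟩
  obtain ⟨g, g1, g2, g3⟩ := hmain d l u W s (HH P) F hd D.dm D.low B' h0
    (fun j => ⟨B0, (hh0 j).mono le_rfl (by nlinarith)⟩) (fun z hz => by
      have := hh1 z hz
      rw [hp0e] at this
      exact this) (fun z hz => by
      have h1 : nsq (h0 z) ≤ N * B0 ^ 2 := by
        unfold nsq
        refine (Finset.sum_le_card_nsmul _ _ (B0 ^ 2) fun j _ =>
          pow_le_pow_left₀ (norm_nonneg _) ((hh0 j).bd z hz) 2).trans (le_of_eq ?_)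
        rw [nsmul_eq_mul, Finset.card_univ, Fintype.card_fin]
      have hA4 := Ad_4 (δ := δ)
      have h2 : Real.exp (-(Ad δ * nsq (Fu d u (HH P) 0 z))) ≤ 1 := by
        rw [Real.exp_le_one_iff]
        have := nsq_nonneg (Fu d u (HH P) 0 z)
        nlinarith
      calc nsq (h0 z) * Real.exp (-(Ad δ * nsq (Fu d u (HH P) 0 z))) ≤ nsq (h0 z) * 1 :=
            mul_le_mul_of_nonneg_left h2 (nsq_nonneg _)
        _ ≤ P0 := by rw [hP0]; linarith)
  exact ⟨g, g1, g2, fun z hz => g3 z hz⟩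

/-- shift of the blocks -/
theorem PD.shift (D : PD δ d l u P f) {d' : ℕ} (hd : u 0 ≤ d') (hd' : d' < l 1) :
    PD δ d' (fun i => l (i + 1)) (fun i => u (i + 1)) P f := by
  have h0 := D.lu 0
  have hld := D.ld
  refine ⟨hd', fun i => D.lu (i + 1), fun i => D.ll (i + 1), D.hP, fun k hk hkl j => ?_, D.hs,
    D.fb⟩
  refine D.sp k (by omega) (fun i hi => ?_) j
  cases i with
  | zero => omega
  | succ i => exact hkl i hi

theorem HM.shift {c S c' : ℝ} {K : ℕ} {W : Set ℕ} {s : ℕ → ℝ}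
    (B : HM δ c S K W s d l u (HH P)) {d' : ℕ}
    (hl1 : 1 ≤ l 0) (hu : l 0 ≤ u 0) (hd1 : 1 ≤ d') (hc : Real.sqrt d' * c ≤ c') :
    HM δ c' S K {i | i + 1 ∈ W} (fun i => s (i + 1)) d' (fun i => l (i + 1))
      (fun i => u (i + 1)) (HH P) := by
  have hd0 : 1 ≤ Real.sqrt d' := Real.one_le_sqrt.2 (by exact_mod_cast hd1)
  have het : ∀ i, et (Du d' fun i => u (i + 1)) (fun i => l (i + 1)) i ≤
      Real.sqrt d' * et (Du d u) l (i + 1) := by
    intro i
    unfold et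
    cases i with
    | zero =>
      change Real.sqrt d' / Real.sqrt (l 1) ≤ Real.sqrt d' * (Real.sqrt (u 0) / Real.sqrt (l 1))
      rw [mul_div_assoc']
      refine div_le_div_of_nonneg_right ?_ (Real.sqrt_nonneg _)
      have h3 : 1 ≤ Real.sqrt (u 0) := Real.one_le_sqrt.2 (by
        exact_mod_cast (by omega : 1 ≤ u 0))
      nlinarith
    | succ i =>
      change Real.sqrt (u (i + 1)) / Real.sqrt (l (i + 1 + 1)) ≤
        Real.sqrt d' * (Real.sqrt (u (i + 1)) / Real.sqrt (l (i + 1 + 1)))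
      have h3 : 0 ≤ Real.sqrt (u (i + 1)) / Real.sqrt (l (i + 1 + 1)) := by positivity
      nlinarith
  refine ⟨fun i => ?_, fun I => ?_, fun i => B.s0 (i + 1), fun i => B.s1 (i + 1),
    fun i hi => B.sW (i + 1) hi, fun i hi z hz => B.sQ (i + 1) hi z hz,
    fun i hi => B.lg (i + 1) hi, fun i hi z hz => B.sm (i + 1) hi z hz,
    fun z hz I => ?_⟩
  · exact ((het i).trans (mul_le_mul_of_nonneg_left (B.sup (i + 1)) (by linarith))).trans hc
  · refine le_trans ?_ hc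
    have h1 := B.gap (I + 1)
    rw [Finset.sum_range_succ'] at h1
    have h0 : 0 ≤ s 0 * et (Du d u) l 0 := mul_nonneg (B.s0 0) (et_nonneg _ _ _)
    have h2 : ∑ i ∈ Finset.range I, s (i + 1) *
        et (Du d' fun i => u (i + 1)) (fun i => l (i + 1)) i ≤
        Real.sqrt d' * ∑ i ∈ Finset.range I, s (i + 1) * et (Du d u) l (i + 1) := by
      rw [Finset.mul_sum]
      refine Finset.sum_le_sum fun i _ => ?_
      have h3 := mul_le_mul_of_nonneg_left (het i) (B.s0 (i + 1))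
      refine h3.trans (le_of_eq ?_)
      ring
    refine h2.trans (mul_le_mul_of_nonneg_left (by linarith) (by linarith))
  · have h1 := B.sb z hz (I + 1)
    rw [Finset.sum_range_succ'] at h1
    have h2 : 0 ≤ wt W (Qu l u (HH P)) 0 z := wt_nonneg _ _ _ _
    have h3 : ∑ i ∈ Finset.range I, wt {i | i + 1 ∈ W}
        (Qu (fun i => l (i + 1)) (fun i => u (i + 1)) (HH P)) i z =
        ∑ i ∈ Finset.range I, wt W (Qu l u (HH P)) (i + 1) z := rfl
    rw [h3]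
    linarith

theorem HM.mono {c c' S : ℝ} {K : ℕ} {W : Set ℕ} {s : ℕ → ℝ} {H : ℕ → E n → Fin N → ℂ}
    (B : HM δ c S K W s d l u H) (hc : c ≤ c') : HM δ c' S K W s d l u H :=
  ⟨fun i => (B.sup i).trans hc, fun I => (B.gap I).trans hc,
      B.s0, B.s1, B.sW, B.sQ, B.lg, B.sm, B.sb⟩

end Pool.Agent.K9h23.Mix
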