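import Mathlib
import Pool.Agent.K9h23.Mix.Fnl

/-!
The corona theorem for expansions in blocks with gaps: all `d`.
-/

set_option autoImplicit false

open Complex Set Metric Filter Topology MvPolynomial
open scoped Real

namespace Pool.Agent.K9h23.Mix

open Pool.Agent.K9h23.Hom Pool.Agent.K9h23.Bnd
open Pool.Agent.K9h23.Lac (nsq nsq_nonneg nsq_cont nsq_c nn nn_nonneg nn_sq nn_add_le le_nsq
  nsq_smul' bd bd_le_nn comp_le_nn nsq_conj nn_le_comp Bal isOpen_Bal MP Rg Sz ev bez_unif FD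
  GG GG_prop Adm)

variable {n N : ℕ} {δ : ℝ} {d : ℕ} {l u : ℕ → ℕ} {P : ℕ → Fin N → MP n}
  {f : Fin N → (Fin n → ℂ) → ℂ}

theorem zero_Bal : (0 : Fin n → ℂ) ∈ Bal n := by
  change nsq (0 : Fin n → ℂ) < 1
  unfold nsq
  simp

/-- the value at the origin -/
theorem PD.zero (D : PD δ d l u P f) (j : Fin N) : f j 0 = eval 0 (P 0 j) := by
  have h1 := D.hs 0 zero_Bal j
  have h2 : HasSum (fun k => eval (0 : Fin n → ℂ) (P k j)) (eval 0 (P 0 j)) := by
    refine hasSum_single 0 fun k hk => ?_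
    have h3 := eval_smul (D.hP k j) 0 (0 : Fin n → ℂ)
    rw [zero_pow hk, zero_mul, smul_zero] at h3
    exact h3
  exact h1.unique h2

theorem PD.F0 (D : PD δ 0 l u P f) (z : E n) : Fu 0 u (HH P) 0 z = fun j => f j 0 := by
  funext j
  rw [D.zero]
  unfold Fu cut
  change ∑ k ∈ Finset.range (0 + 1), HH P k z j = _
  rw [zero_add, Finset.sum_range_one]
  unfold HH
  have h3 := eval_smul (D.hP 0 j) 0 z.ofLp
  rw [pow_zero, one_mul, zero_smul] at h3
  exact h3.symm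

/-- the exact shift -/
theorem HM.shift0 {c S : ℝ} {K : ℕ} {W : Set ℕ} {s : ℕ → ℝ}
    (B : HM δ c S K W s d l u (HH P)) :
    HM δ c S K {i | i + 1 ∈ W} (fun i => s (i + 1)) (u 0) (fun i => l (i + 1))
      (fun i => u (i + 1)) (HH P) := by
  have e : ∀ i, et (Du (u 0) fun i => u (i + 1)) (fun i => l (i + 1)) i =
      et (Du d u) l (i + 1) := fun i => by
    unfold et
    cases i with
    | zero => rfl
    | succ i => rfl
  refine ⟨fun i => ?_, fun I => ?_, fun i => B.s0 (i + 1), fun i => B.s1 (i + 1),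
    fun i hi => B.sW (i + 1) hi, fun i hi z hz => B.sQ (i + 1) hi z hz,
    fun i hi => B.lg (i + 1) hi, fun i hi z hz => B.sm (i + 1) hi z hz,
    fun z hz I => ?_⟩
  · rw [e]; exact B.sup (i + 1)
  · simp_rw [e]
    have h1 := B.gap (I + 1)
    rw [Finset.sum_range_succ'] at h1
    have h0 : 0 ≤ s 0 * et (Du d u) l 0 := mul_nonneg (B.s0 0) (et_nonneg _ _ _)
    linarith
  · have h1 := B.sb z hz (I + 1)
    rw [Finset.sum_range_succ'] at h1
    have h2 : 0 ≤ wt W (Qu l u (HH P)) 0 z := wt_nonneg _ _ _ _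
    have h3 : ∑ i ∈ Finset.range I, wt {i | i + 1 ∈ W}
        (Qu (fun i => l (i + 1)) (fun i => u (i + 1)) (HH P)) i z =
        ∑ i ∈ Finset.range I, wt W (Qu l u (HH P)) (i + 1) z := rfl
    rw [h3]
    linarith

/-- the case of a small first block and `d = 0` -/
theorem pmain0 (n N K : ℕ) (hK : 1 ≤ K) {δ : ℝ} (hδ : 0 < δ) (hδ1 : δ ≤ 1) :
    ∃ C1 : ℝ, 1 ≤ C1 ∧ ∀ S : ℝ, 0 ≤ S → ∃ c : ℝ, 0 < c ∧
    ∀ (l u : ℕ → ℕ) (W : Set ℕ) (s : ℕ → ℝ)
    (P : ℕ → Fin N → MP n) (f : Fin N → (Fin n → ℂ) → ℂ), PD δ 0 l u P f →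
    HM δ c S K W s 0 l u (HH P) → 0 ∉ W →
    SB (400 * Ad δ * Real.exp (C1 * S + 1) * Real.exp (4 * Ad δ)) f := by
  have hδi : 1 ≤ 1 / δ := by rw [le_div_iff₀ hδ]; linarith
  have hA4 := Ad_4 (δ := δ)
  obtain ⟨b, hb, hst⟩ := sstage n N (A := Ad δ) (B := 1 / δ) Ad_4 hδi
  obtain ⟨Cs, hCs, hst⟩ := hst 0 le_rfl
  obtain ⟨C1, hC1, hmain⟩ := mmain n N K hK hδ hδ1
  refine ⟨C1, hC1, fun S hS => ?_⟩
  obtain ⟨c, hc, hmain⟩ := hmain (400 * Ad δ) b S le_rfl (by linarith) hS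
  refine ⟨c, hc, fun l u W s P f D B h0W => ?_⟩
  set F0 : Fin N → ℂ := fun j => f j 0 with hF0
  have hF0n := D.fb 0 zero_Bal
  rw [← hF0] at hF0n
  have hns : 0 < nsq F0 := lt_of_lt_of_le (by positivity) hF0n.1
  have hnn : δ ≤ nn F0 := by
    unfold nn
    exact Real.le_sqrt_of_sq_le hF0n.1
  have hnn0 : 0 < nn F0 := by linarith
  set H0 : Fin N → ℂ := fun j => (nsq F0 : ℂ)⁻¹ * starRingEnd ℂ (F0 j) with hH0
  have hH0n : nn H0 ≤ 1 / δ := by
    rw [hH0, nn_smul]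
    have h1 : nn (fun j => starRingEnd ℂ (F0 j)) = nn F0 := by
      unfold nn
      rw [nsq_conj]
    rw [h1, norm_inv, Complex.norm_real, Real.norm_of_nonneg hns.le, ← nn_sq]
    have h2 : (nn F0 ^ 2)⁻¹ * nn F0 = 1 / nn F0 := by field_simp
    rw [h2]
    exact one_div_le_one_div_of_le hδ hnn
  have hbd0 : bd F0 H0 = 1 := by
    unfold bd
    rw [hH0]
    have h1 : ∑ j, F0 j * ((nsq F0 : ℂ)⁻¹ * starRingEnd ℂ (F0 j)) = (nsq F0 : ℂ)⁻¹ *
        (nsq F0 : ℂ) := by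
      rw [nsq_c F0, Finset.mul_sum]
      exact Finset.sum_congr rfl fun j _ => by ring
    rw [h1, inv_mul_cancel₀]
    exact_mod_cast hns.ne'
  have hl0 : 1 ≤ l 0 := by have := D.ld; omega
  have hQc : Continuous (fun z => Qu l u (HH P) 0 z) :=
    continuous_pi fun j => (D.dm.Qg 0 j).diff.continuous
  have S0 : Sq (Ad δ) (1 / δ) 0 (s 0) 0 (l 0) (u 0) (Fu 0 u (HH P) 0) (fun _ => H0)
      (Qu l u (HH P) 0) := by
    refine ⟨Ad_4, Or.inr fun z => ⟨by rw [D.F0, D.F0], rfl⟩, Nat.zero_le _, hl0, D.lu 0,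
      fun j => D.dm.Fg 0 j, fun j => D.dm.Qg 0 j, fun z hz => ?_, fun z hz => ?_, fun z hz => ?_,
      fun j => ?_, fun z hz => hH0n⟩
    · rw [D.F0]
      refine ⟨?_, by linarith [hF0n.2]⟩
      have h1 := Ad_16 hδ
      have h2 : (δ / 2) ^ 2 ≤ nsq F0 := by
        have : (δ / 2) ^ 2 ≤ δ ^ 2 := by nlinarith
        linarith [hF0n.1]
      exact h1.trans (mul_le_mul_of_nonneg_left h2 (by linarith [Ad_4 (δ := δ)]))
    · exact le_closed ((nsq_cont.comp hQc).mul continuous_const) (B.sm 0 h0W) hz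
    · exact le_closed (nn_cont.comp hQc) (B.sQ 0 h0W) hz
    · refine (Lc.const (H0 j)).mono ((comp_le_nn H0 j).trans hH0n) (by simp)
  obtain ⟨H', h1, h2, h4⟩ := hst (s 0) 0 (l 0) (u 0) _ _ _ S0
    (fun z _ => by rw [D.F0]; exact hbd0) (by simp)
  have hu0 : 1 ≤ u 0 := hl0.trans (D.lu 0)
  have D' := D.shift (d' := u 0) le_rfl (D.ll 0)
  have e0 : ∀ z, (fun j => Fu 0 u (HH P) 0 z j + Qu l u (HH P) 0 z j) =
      Fu (u 0) (fun i => u (i + 1)) (HH P) 0 z := fun z => by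
    funext j
    rw [← D.dm.succ 0 z j]
    rfl
  obtain ⟨g, g1, g2, g3⟩ := hmain (u 0) (fun i => l (i + 1)) (fun i => u (i + 1))
    {i | i + 1 ∈ W} (fun i => s (i + 1)) (HH P) (fun z j => f j z.ofLp) hu0 D'.dm D'.low B.shift0 H'
    (fun j => ⟨b, (h1 j).mono le_rfl (by simp)⟩) (fun z hz => by
      have h3 := h2 z hz
      rw [e0] at h3
      exact h3) (fun z hz => by
      have e1 : H' z = GG (Ad δ) (Fu 0 u (HH P) 0 z) H0 (Qu l u (HH P) 0 z) := by
        funext j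
        have h5 := (h4 z hz j).1
        simp only [Nat.cast_zero, Real.sqrt_zero, zero_div, mul_zero] at h5
        exact sub_eq_zero.1 (norm_le_zero_iff.1 h5)
      have hAdm : Adm (Ad δ) (Fu 0 u (HH P) 0 z) (Qu l u (HH P) 0 z) :=
        ⟨Ad_4, (S0.Fb z hz).1, (S0.Fb z hz).2, S0.Qb z hz⟩
      have hG := (GG_prop hAdm (H := H0) (by rw [D.F0]; exact hbd0)).2
      rw [← e1, e0] at hG
      have hm : max (nsq H0 * Real.exp (-(Ad δ * nsq (Fu 0 u (HH P) 0 z)))) (400 * Ad δ) ≤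
          400 * Ad δ := by
        refine max_le ?_ le_rfl
        have h5 : Real.exp (-(Ad δ * nsq (Fu 0 u (HH P) 0 z))) ≤ 1 := by
          rw [Real.exp_le_one_iff]
          have := nsq_nonneg (Fu 0 u (HH P) 0 z)
          nlinarith
        have h6 : nsq H0 ≤ 1 / δ ^ 2 := by
          rw [← nn_sq]
          have := pow_le_pow_left₀ (nn_nonneg _) hH0n 2
          rwa [div_pow, one_pow] at this
        have h7 : 1 / δ ^ 2 ≤ Ad δ := by
          unfold Ad
          have : 1 / δ ^ 2 ≤ 64 / δ ^ 2 := by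
            refine div_le_div_of_nonneg_right (by norm_num) (by positivity)
          linarith
        have h8 := nsq_nonneg H0
        nlinarith [Real.exp_pos (-(Ad δ * nsq (Fu 0 u (HH P) 0 z)))]
      calc nsq (H' z) * Real.exp (-(Ad δ * nsq (Fu (u 0) (fun i => u (i + 1)) (HH P) 0 z))) ≤
            400 * Ad δ * Real.exp (Ad δ * nsq (Fu (u 0) (fun i => u (i + 1)) (HH P) 0 z)) *
            Real.exp (-(Ad δ * nsq (Fu (u 0) (fun i => u (i + 1)) (HH P) 0 z))) := by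
            refine mul_le_mul_of_nonneg_right (hG.trans ?_) (Real.exp_pos _).le
            exact mul_le_mul_of_nonneg_right hm (Real.exp_pos _).le
        _ = 400 * Ad δ := by
            rw [mul_assoc, ← Real.exp_add]
            simp)
  exact ⟨g, g1, g2, fun z hz => g3 z hz⟩

/-- the theorem for all `d` -/
theorem pmain (n N d K : ℕ) (hK : 1 ≤ K) {δ : ℝ} (hδ : 0 < δ) (hδ1 : δ ≤ 1)
    {S : ℝ} (hS : 0 ≤ S) : ∃ c : ℝ, 0 < c ∧ ∃ C : ℝ, ∀ (l u : ℕ → ℕ) (W : Set ℕ) (s : ℕ → ℝ)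
    (P : ℕ → Fin N → MP n) (f : Fin N → (Fin n → ℂ) → ℂ), PD δ d l u P f →
    HM δ c S K W s d l u (HH P) → SB C f := by
  rcases Nat.eq_zero_or_pos d with hd0 | hd
  swap
  · exact pmain1 n N d K hd hK hδ hδ1 hS
  subst hd0
  obtain ⟨c1, hc1, C1, h1⟩ := pmain1 n N 1 K le_rfl hK hδ hδ1 hS
  obtain ⟨L', hL'⟩ := exists_nat_ge (4 / c1 ^ 2)
  set L : ℕ := L' + 2 with hL
  have hLr : 4 / c1 ^ 2 ≤ (L : ℝ) := by rw [hL]; push_cast; linarith
  have hKL1 : 1 ≤ K * L := Nat.mul_pos hK (by omega)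
  obtain ⟨c2, hc2, C2, h2⟩ := pmain1 n N (K * L) K hKL1 hK hδ hδ1 hS
  obtain ⟨C3, hC3, h3⟩ := pmain0 n N K hK hδ hδ1
  obtain ⟨c3, hc3, h3⟩ := h3 S hS
  have hKL0 : (0:ℝ) < ((K * L : ℕ) : ℝ) := by exact_mod_cast hKL1
  set r : ℝ := Real.sqrt ((K * L : ℕ) : ℝ) with hr
  have hs0 : 0 < r := Real.sqrt_pos.2 hKL0
  have hs1 : 1 ≤ r := Real.one_le_sqrt.2 (by exact_mod_cast hKL1)
  have hs2 : r ^ 2 = ((K * L : ℕ) : ℝ) := Real.sq_sqrt hKL0.le
  set c : ℝ := min (c1 / 2) (min c3 (min (c2 / r) (1 / (2 * r)))) with hc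
  have hc0 : 0 < c := lt_min (by positivity) (lt_min hc3 (lt_min (by positivity) (by positivity)))
  have hca : c ≤ c1 / 2 := min_le_left _ _
  have hcb : c ≤ c3 := (min_le_right _ _).trans (min_le_left _ _)
  have hcc : c ≤ c2 / r := (min_le_right _ _).trans ((min_le_right _ _).trans (min_le_left _ _))
  have hcd : c ≤ 1 / (2 * r) :=
    (min_le_right _ _).trans ((min_le_right _ _).trans (min_le_right _ _))
  refine ⟨c, hc0, max C1 (max C2 (400 * Ad δ * Real.exp (C3 * S + 1) * Real.exp (4 * Ad δ))),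
    fun l u W s P f D B => ?_⟩
  have hl0 : 1 ≤ l 0 := by have := D.ld; omega
  by_cases h0W : 0 ∈ W
  swap
  · refine (h3 l u W s P f D (B.mono hcb) h0W).mono ?_
    exact (le_max_right _ _).trans (le_max_right _ _)
  rcases Nat.lt_or_ge (l 0) L with hlL | hlL
  · -- the first block is in low degree
    have hu0 : u 0 ≤ K * L := (B.lg 0 h0W).trans (Nat.mul_le_mul_left _ hlL.le)
    have hl1' : ∀ i, 1 ≤ l i := fun i => by have := D.dm.Du_lt i; omega
    have hg := gap_term hl1' B.sup 1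
    change (u 0 : ℝ) ≤ c ^ 2 * l 1 at hg
    have hu01 : (1:ℝ) ≤ u 0 := by exact_mod_cast hl0.trans (D.lu 0)
    have hKl : K * L < l 1 := by
      have h4 : (c * (2 * r)) ≤ 1 := by
        rw [le_div_iff₀ (by positivity)] at hcd
        exact hcd
      have h5 : c ^ 2 * (4 * r ^ 2) ≤ 1 := by
        have : c ^ 2 * (4 * r ^ 2) = (c * (2 * r)) ^ 2 := by ring
        rw [this]
        exact pow_le_one₀ (by positivity) h4
      rw [hs2] at h5
      by_contra hcon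
      push Not at hcon
      have h6 : (l 1 : ℝ) ≤ ((K * L : ℕ) : ℝ) := by exact_mod_cast hcon
      have h7 : c ^ 2 * l 1 ≤ c ^ 2 * ((K * L : ℕ) : ℝ) :=
        mul_le_mul_of_nonneg_left h6 (by positivity)
      nlinarith
    refine (h2 _ _ _ _ P f (D.shift hu0 hKl) (B.shift hl0 (D.lu 0) hKL1 ?_)).mono
      ((le_max_left _ _).trans (le_max_right _ _))
    rw [le_div_iff₀ hs0] at hcc
    rw [← hr]
    linarith
  · -- the first block is in high degree
    have D' : PD δ 1 l u P f := ⟨by omega, D.lu, D.ll, D.hP,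
      fun k hk hkl j => D.sp k (by omega) hkl j, D.hs, D.fb⟩
    have h4 : et (Du 1 u) l 0 ≤ c1 / 2 := by
      unfold et
      change Real.sqrt ((1 : ℕ) : ℝ) / Real.sqrt (l 0) ≤ c1 / 2
      rw [Nat.cast_one, Real.sqrt_one]
      have h5 : (L : ℝ) ≤ l 0 := by exact_mod_cast hlL
      have h6 : 2 / c1 ≤ Real.sqrt (l 0) := by
        apply Real.le_sqrt_of_sq_le
        rw [div_pow]
        norm_num
        linarith
      rw [div_le_iff₀ hc1] at h6
      rw [div_le_iff₀ (Real.sqrt_pos.2 (by exact_mod_cast hl0))]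
      nlinarith
    refine (h1 l u W s P f D' ⟨fun i => ?_, fun I => ?_, B.s0, B.s1, B.sW, B.sQ, B.lg, B.sm,
      B.sb⟩).mono (le_max_left _ _)
    · cases i with
      | zero => linarith
      | succ i =>
        have h5 : et (Du 1 u) l (i + 1) = et (Du 0 u) l (i + 1) := rfl
        rw [h5]
        have := B.sup (i + 1)
        linarith
    cases I with
    | zero => simp; exact hc1.le
    | succ I =>
      rw [Finset.sum_range_succ']
      have h5 : ∑ i ∈ Finset.range I, s (i + 1) * et (Du 1 u) l (i + 1) =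
          ∑ i ∈ Finset.range I, s (i + 1) * et (Du 0 u) l (i + 1) := rfl
      rw [h5]
      have h6 := B.gap (I + 1)
      rw [Finset.sum_range_succ'] at h6
      have h0 : 0 ≤ s 0 * et (Du 0 u) l 0 := mul_nonneg (B.s0 0) (et_nonneg _ _ _)
      have h7 : s 0 * et (Du 1 u) l 0 ≤ c1 / 2 :=
        (mul_le_of_le_one_left (et_nonneg _ _ _) (B.s1 0)).trans h4
      linarith

end Pool.Agent.K9h23.Mix
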