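import Mathlib
import Pool.Agent.K9h23.Mix.Rz

/-!
Riesz products: absolute convergence if each block has a bounded number of terms.
-/

set_option autoImplicit false

open Complex Set

namespace Pool.Agent.K9h23.Mix

open Classical in
/-- **Riesz products**, blocks with at most `K` terms. -/
theorem riesz_terms (K : ℕ) (hK : 1 ≤ K) (l u : ℕ → ℕ) (hl0 : 1 ≤ l 0) (hlu : ∀ i, l i ≤ u i)
    (hul : ∀ i, 20 * u i ≤ l (i + 1)) (E : Set ℕ) (M D : ℕ) (a : ℕ → ℂ)
    (hE : ∀ i ∈ E, ((Finset.Icc (l i) (u i)).filter (fun k => a k ≠ 0)).card ≤ K)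
    (ha : ∀ k, a k ≠ 0 → 20 * k ≤ l 0 ∨ ∃ i, l i ≤ k ∧ k ≤ u i)
    {B : ℝ} (hB : ∀ ω : ℂ, ‖ω‖ = 1 → ‖∑ k ∈ Finset.range (D + 1), a k * ω ^ k‖ ≤ B)
    (hD : ∀ i < M, u i ≤ D) :
    ∑ i ∈ Finset.range M, (if i ∈ E then ∑ k ∈ Finset.Icc (l i) (u i), ‖a k‖ else 0) ≤
      4 * K ^ 2 * (B + ‖a 0‖) := by
  -- the frequencies
  have hpos : ∀ i, 1 ≤ l i := by
    intro i
    induction i with
    | zero => exact hl0
    | succ i ih => have := hul i; have := hlu i; omega
  have hmono : StrictMono l := strictMono_nat_of_lt_succ fun i => by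
    have := hul i; have := hlu i; have := hpos i; omega
  set S : ℕ → ℕ := fun i => ∑ t ∈ Finset.range i, u t with hS
  have hS0 : S 0 = 0 := by simp [hS]
  have hSs : ∀ i, S (i + 1) = S i + u i := fun i => Finset.sum_range_succ _ _
  have hSl : ∀ i, 19 * S i ≤ l i := by
    intro i
    induction i with
    | zero => rw [hS0]; omega
    | succ i ih => rw [hSs]; have := hul i; have := hlu i; omega
  have hSm : ∀ i j, i ≤ j → S i ≤ S j := by
    intro i j hij
    induction j, hij using Nat.le_induction with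
    | base => exact le_rfl
    | succ j _ ih => rw [hSs]; omega
  set Λ : ℕ → Finset ℕ := fun i => (Finset.Icc (l i) (u i)).filter (fun k => a k ≠ 0) with hΛ
  have hΛm : ∀ i k, k ∈ Λ i ↔ (l i ≤ k ∧ k ≤ u i) ∧ a k ≠ 0 := by
    intro i k
    simp only [hΛ, Finset.mem_filter, Finset.mem_Icc]
  have hK0 : (0:ℝ) < K := by exact_mod_cast hK
  set η : ℝ := 1 / (K:ℝ) ^ 2 with hη
  have hη0 : 0 < η := by positivity
  have hηK : (K:ℝ) * η = 1 / K := by rw [hη]; field_simp
  have hηK1 : (K:ℝ) * η ≤ 1 := by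
    rw [hηK, div_le_one hK0]
    exact_mod_cast hK
  -- the roots of unity
  set N : ℕ := 4 * (D + S M + 1) with hN
  have hN0 : N ≠ 0 := by omega
  set ζ : ℂ := Complex.exp (2 * Real.pi * Complex.I / N) with hζd
  have hζ : IsPrimitiveRoot ζ N := Complex.isPrimitiveRoot_exp N hN0
  have hn : ∀ j : ℕ, ‖ζ ^ j‖ = 1 := by
    intro j
    rw [norm_pow, hζ.norm'_eq_one hN0, one_pow]
  -- the phases
  set c : ℕ → ℂ := fun k => a k / ‖a k‖ with hc
  have hc1 : ∀ k, ‖c k‖ ≤ 1 := by
    intro i
    simp only [hc, norm_div, Complex.norm_real, norm_norm]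
    exact div_self_le_one _
  have hca : ∀ k, a k * (starRingEnd ℂ) (c k) = ‖a k‖ := by
    intro i
    simp only [hc, map_div₀, Complex.conj_ofReal]
    rcases eq_or_ne (a i) 0 with h | h
    · simp [h]
    · have h1 : (‖a i‖ : ℂ) ≠ 0 := by
        rw [Complex.ofReal_ne_zero]; exact norm_ne_zero_iff.2 h
      rw [← mul_div_assoc, Complex.mul_conj, Complex.normSq_eq_norm_sq, div_eq_iff h1]
      push_cast
      ring
  -- the Riesz product
  set R : ℕ → ℂ → ℝ := fun i w => ∏ t ∈ Finset.range i,
    (if t ∈ E then 1 + η * ∑ k ∈ Λ t, (c k * w ^ k).re else 1) with hR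
  have hR0 : ∀ w, R 0 w = 1 := fun w => by simp [hR]
  have hRs : ∀ i w, R (i + 1) w = R i w *
      (if i ∈ E then 1 + η * ∑ k ∈ Λ i, (c k * w ^ k).re else 1) :=
    fun i w => Finset.prod_range_succ _ _
  have hRn : ∀ i w, ‖w‖ = 1 → 0 ≤ R i w := by
    intro i w hw
    refine Finset.prod_nonneg fun t _ => ?_
    split_ifs with ht
    · have h1 : |∑ k ∈ Λ t, (c k * w ^ k).re| ≤ K := by
        refine (Finset.abs_sum_le_sum_abs _ _).trans ?_
        have h2 : ∀ k ∈ Λ t, |(c k * w ^ k).re| ≤ 1 := by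
          intro k _
          refine (Complex.abs_re_le_norm _).trans ?_
          rw [norm_mul, norm_pow, hw, one_pow, mul_one]
          exact hc1 k
        refine (Finset.sum_le_card_nsmul _ _ 1 h2).trans ?_
        rw [nsmul_eq_mul, mul_one]
        exact_mod_cast hE t ht
      have h2 := (abs_le.1 h1).1
      have h3 : η * (-(K:ℝ)) ≤ η * ∑ k ∈ Λ t, (c k * w ^ k).re :=
        mul_le_mul_of_nonneg_left h2 hη0.le
      linarith
    · exact zero_le_one
  set m : ℕ → ℤ → ℂ := fun i k => Rz.mean N ζ (fun w => w ^ k * (R i w : ℂ)) with hm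
  have hm0 : ∀ k : ℤ, k ≠ 0 → k.natAbs < N → m 0 k = 0 := by
    intro k h1 h2
    simp only [hm, hR0, Complex.ofReal_one, mul_one]
    refine Rz.mean_zpow hN0 hζ k h1 ?_
    rw [Int.abs_eq_natAbs]
    exact_mod_cast h2
  have hm00 : m 0 0 = 1 := by
    simp only [hm, hR0, Complex.ofReal_one, mul_one, zpow_zero]
    exact Rz.mean_one hN0 ζ
  have hms : ∀ i, i ∈ E → ∀ k : ℤ, m (i + 1) k = m i k + ∑ k' ∈ Λ i,
      ((η / 2 : ℝ) : ℂ) * (c k' * m i (k + k') + (starRingEnd ℂ) (c k') * m i (k - k')) := by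
    intro i hi k
    simp only [hm, Rz.mean, hRs, if_pos hi]
    have e1 : ∀ k' : ℕ, ((η / 2 : ℝ) : ℂ) * (c k' * ((∑ j ∈ Finset.range N,
        (ζ ^ j) ^ (k + k') * (R i (ζ ^ j) : ℂ)) / N) + (starRingEnd ℂ) (c k') *
        ((∑ j ∈ Finset.range N, (ζ ^ j) ^ (k - k') * (R i (ζ ^ j) : ℂ)) / N)) =
        (∑ j ∈ Finset.range N, ((η / 2 : ℝ) : ℂ) * (c k' * (ζ ^ j) ^ (k + k') +
          (starRingEnd ℂ) (c k') * (ζ ^ j) ^ (k - k')) * (R i (ζ ^ j) : ℂ)) / N := by
      intro k'
      rw [← mul_div_assoc, ← mul_div_assoc, ← add_div, ← mul_div_assoc]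
      congr 1
      rw [Finset.mul_sum, Finset.mul_sum, ← Finset.sum_add_distrib, Finset.mul_sum]
      exact Finset.sum_congr rfl fun j _ => by ring
    simp_rw [e1]
    rw [← Finset.sum_div, ← add_div, Finset.sum_comm, ← Finset.sum_add_distrib]
    congr 1
    refine Finset.sum_congr rfl fun j _ => ?_
    have hw : ‖ζ ^ j‖ = 1 := hn j
    generalize ζ ^ j = w at hw
    have hw0 : w ≠ 0 := by
      intro h; rw [h, norm_zero] at hw; exact zero_ne_one hw
    have h1 : ∀ k' : ℕ, (((c k' * w ^ k').re : ℝ) : ℂ) =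
        (c k' * w ^ k' + (starRingEnd ℂ) (c k') * w ^ (-(k' : ℤ))) / 2 := by
      intro k'
      have h2 : (starRingEnd ℂ) w = w⁻¹ := (Complex.inv_eq_conj hw).symm
      rw [Complex.re_eq_add_conj, map_mul, map_pow, h2, zpow_neg, zpow_natCast, inv_pow]
    push_cast
    rw [mul_add, mul_add, mul_one]
    congr 1
    rw [Finset.mul_sum, Finset.mul_sum, Finset.mul_sum]
    refine Finset.sum_congr rfl fun k' _ => ?_
    rw [h1, zpow_add₀ hw0, zpow_sub₀ hw0, zpow_neg, zpow_natCast]
    field_simp
  have hmn : ∀ i, i ∉ E → ∀ k : ℤ, m (i + 1) k = m i k := by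
    intro i hi k
    simp only [hm, hRs, if_neg hi, mul_one]
  -- the support
  have hsupp : ∀ i, ∀ k : ℤ, S i < k.natAbs → k.natAbs + S i < N → m i k = 0 := by
    intro i
    induction i with
    | zero =>
      intro k h1 h2
      rw [hS0] at h1 h2
      exact hm0 k (by omega) (by omega)
    | succ i ih =>
      intro k h1 h2
      rw [hSs] at h1 h2
      by_cases hi : i ∈ E
      · rw [hms i hi, ih k (by omega) (by omega), Finset.sum_eq_zero, add_zero]
        intro k' hk'
        have := ((hΛm i k').1 hk').1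
        rw [ih (k + k') (by omega) (by omega), ih (k - k') (by omega) (by omega)]
        simp
      · rw [hmn i hi]
        exact ih k (by omega) (by omega)
  have hSM : ∀ i, i < M → S i + u i ≤ S M := by
    intro i hi
    rw [← hSs]
    exact hSm _ _ hi
  have hm1 : ∀ i, i ≤ M → m i 0 = 1 := by
    intro i
    induction i with
    | zero => intro _; exact hm00
    | succ i ih =>
      intro hi
      by_cases hE : i ∈ E
      · have h1 := hSM i (by omega)
        have h2 := hSl i
        have h3 := hpos i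
        rw [hms i hE, ih (by omega), Finset.sum_eq_zero, add_zero]
        intro k' hk'
        have := ((hΛm i k').1 hk').1
        rw [hsupp i (0 + k') (by omega) (by omega),
          hsupp i (0 - k') (by omega) (by omega)]
        simp
      · rw [hmn i hE]; exact ih (by omega)
  -- the trivial bound
  have hmb : ∀ i, i ≤ M → ∀ k : ℤ, ‖m i k‖ ≤ 1 := by
    intro i hi k
    have h2 := hm1 i hi
    simp only [hm, Rz.mean, zpow_zero, one_mul] at h2 ⊢
    have h1 : (∑ j ∈ Finset.range N, R i (ζ ^ j)) / N = 1 := by exact_mod_cast h2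
    have hNpos : (0 : ℝ) < N := Nat.cast_pos.2 (Nat.pos_of_ne_zero hN0)
    rw [norm_div, Complex.norm_natCast, div_le_iff₀ hNpos]
    rw [div_eq_iff hNpos.ne', one_mul] at h1
    rw [one_mul]
    refine (norm_sum_le _ _).trans (le_trans (Finset.sum_le_sum fun j _ => ?_) h1.le)
    rw [norm_mul, norm_zpow, hn, one_zpow, one_mul, Complex.norm_real,
      Real.norm_of_nonneg (hRn i _ (hn j))]
  -- the small coefficients
  have hmr : ∀ t, t ≤ M → ∀ r : ℤ, r ≠ 0 → r.natAbs + S t < N → ‖m t r‖ ≤ 1 / (2 * K) := by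
    intro t
    induction t with
    | zero =>
      intro _ r hr hrN
      rw [hm0 r hr (by omega), norm_zero]
      positivity
    | succ t ih =>
      intro htM r hr hrN
      rw [hSs] at hrN
      by_cases hE' : t ∈ E
      swap
      · rw [hmn t hE']
        exact ih (by omega) r hr (by omega)
      have h1 := hSM t (by omega)
      have h2 := hSl t
      have h3 := hpos t
      rcases Nat.lt_or_ge (S t) r.natAbs with h4 | h4
      · rw [hms t hE', hsupp t r h4 (by omega), zero_add]
        refine (norm_sum_le _ _).trans ?_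
        have h5 : ∀ k' ∈ Λ t, ‖((η / 2 : ℝ) : ℂ) * (c k' * m t (r + k') +
            (starRingEnd ℂ) (c k') * m t (r - k'))‖ ≤ η / 2 := by
          intro k' hk'
          have h6 := ((hΛm t k').1 hk').1
          rw [norm_mul, Complex.norm_real, Real.norm_of_nonneg (by positivity)]
          refine mul_le_of_le_one_right (by positivity) ?_
          rcases lt_or_gt_of_ne hr with h7 | h7
          · rw [hsupp t (r - k') (by omega) (by omega), mul_zero, add_zero, norm_mul]
            exact mul_le_one₀ (hc1 _) (norm_nonneg _) (hmb t (by omega) _)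
          · rw [hsupp t (r + k') (by omega) (by omega), mul_zero, zero_add, norm_mul,
              RCLike.norm_conj]
            exact mul_le_one₀ (hc1 _) (norm_nonneg _) (hmb t (by omega) _)
        refine (Finset.sum_le_card_nsmul _ _ _ h5).trans ?_
        rw [nsmul_eq_mul]
        have h6 : ((Λ t).card : ℝ) ≤ K := by exact_mod_cast hE t hE'
        calc ((Λ t).card : ℝ) * (η / 2) ≤ K * (η / 2) :=
              mul_le_mul_of_nonneg_right h6 (by positivity)
          _ = (K * η) / 2 := by ring
          _ = 1 / (2 * K) := by rw [hηK]; field_simp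
      · rw [hms t hE', Finset.sum_eq_zero, add_zero]
        · exact ih (by omega) r hr (by omega)
        · intro k' hk'
          have h6 := ((hΛm t k').1 hk').1
          rw [hsupp t (r + k') (by omega) (by omega), hsupp t (r - k') (by omega) (by omega)]
          simp
  have hm2 : ∀ i, i ∈ E → ∀ k ∈ Λ i, ∀ t, i + 1 ≤ t → t ≤ M →
      ‖m t k - ((η / 2 : ℝ) : ℂ) * (starRingEnd ℂ) (c k)‖ ≤ η / 4 := by
    intro i hi k hk t ht
    have hk' := ((hΛm i k).1 hk).1
    induction t, ht using Nat.le_induction with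
    | base =>
      intro hiM
      have h1 := hSM i (by omega)
      have h2 := hSl i
      have h3 := hpos i
      rw [hms i hi, hsupp i k (by omega) (by omega), zero_add, ← Finset.add_sum_erase _ _ hk,
        hsupp i (k + k) (by omega) (by omega), sub_self, hm1 i (by omega), mul_zero, zero_add,
        mul_one, add_sub_cancel_left]
      refine (norm_sum_le _ _).trans ?_
      have h5 : ∀ k' ∈ (Λ i).erase k, ‖((η / 2 : ℝ) : ℂ) * (c k' * m i ((k:ℤ) + k') +
          (starRingEnd ℂ) (c k') * m i ((k:ℤ) - k'))‖ ≤ η / 2 * (1 / (2 * K)) := by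
        intro k' hk''
        rw [Finset.mem_erase] at hk''
        have h6 := ((hΛm i k').1 hk''.2).1
        rw [norm_mul, Complex.norm_real, Real.norm_of_nonneg (by positivity)]
        refine mul_le_mul_of_nonneg_left ?_ (by positivity)
        rw [hsupp i (k + k') (by omega) (by omega), mul_zero, zero_add, norm_mul,
          RCLike.norm_conj]
        have h7 := hmr i (by omega) ((k:ℤ) - k') (by omega) (by omega)
        calc ‖c k'‖ * ‖m i ((k:ℤ) - k')‖ ≤ 1 * (1 / (2 * K)) :=
              mul_le_mul (hc1 _) h7 (norm_nonneg _) zero_le_one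
          _ = _ := one_mul _
      refine (Finset.sum_le_card_nsmul _ _ _ h5).trans ?_
      rw [nsmul_eq_mul]
      have h6 : (((Λ i).erase k).card : ℝ) ≤ K := by
        have h7 : ((Λ i).erase k).card ≤ (Λ i).card := Finset.card_erase_le
        exact_mod_cast h7.trans (hE i hi)
      calc (((Λ i).erase k).card : ℝ) * (η / 2 * (1 / (2 * K))) ≤ K * (η / 2 * (1 / (2 * K))) :=
            mul_le_mul_of_nonneg_right h6 (by positivity)
        _ = η / 4 := by field_simp; ring
    | succ t ht ih =>
      intro htM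
      by_cases hE' : t ∈ E
      · have h1 := hSM t (by omega)
        have h2 := hSl t
        have h3 := hpos t
        have h4 : 20 * u i ≤ l t := by
          calc 20 * u i ≤ l (i + 1) := hul i
            _ ≤ l t := hmono.monotone ht
        rw [hms t hE', Finset.sum_eq_zero, add_zero]
        · exact ih (by omega)
        · intro k' hk''
          have h6 := ((hΛm t k').1 hk'').1
          rw [hsupp t (k + k') (by omega) (by omega), hsupp t (k - k') (by omega) (by omega)]
          simp
      · rw [hmn t hE']; exact ih (by omega)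
  have hm3 : ∀ k : ℕ, 1 ≤ k → k ≤ D → (∀ i ∈ E, 20 * k ≤ l i ∨ 20 * u i ≤ k) →
      ∀ t ≤ M, m t k = 0 := by
    intro k hk1 hkD hk t
    induction t with
    | zero => intro _; exact hm0 k (by omega) (by omega)
    | succ t ih =>
      intro htM
      by_cases hE' : t ∈ E
      · have h1 := hSM t (by omega)
        have h2 := hSl t
        have h3 := hpos t
        have h4 := hD t (by omega)
        rw [hms t hE', ih (by omega), Finset.sum_eq_zero, add_zero]
        intro k' hk''
        have h6 := ((hΛm t k').1 hk'').1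
        rcases hk t hE' with h5 | h5
        · rw [hsupp t (k + k') (by omega) (by omega),
            hsupp t (k - k') (by omega) (by omega)]
          simp
        · rw [hsupp t (k + k') (by omega) (by omega),
            hsupp t (k - k') (by omega) (by omega)]
          simp
      · rw [hmn t hE']; exact ih (by omega)
  -- the sum
  have hsum : Rz.mean N ζ (fun w => (∑ k ∈ Finset.range (D + 1), a k * w ^ k) * (R M w : ℂ)) =
      ∑ k ∈ Finset.range (D + 1), a k * m M k := by
    simp only [hm, Rz.mean, Finset.sum_mul]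
    rw [Finset.sum_comm, Finset.sum_div]
    refine Finset.sum_congr rfl fun k _ => ?_
    rw [← mul_div_assoc, Finset.mul_sum]
    congr 1
    refine Finset.sum_congr rfl fun j _ => ?_
    rw [zpow_natCast]; ring
  set Θ : Finset ℕ := ((Finset.range M).filter (· ∈ E)).biUnion Λ with hΘ
  have hΘm : ∀ k, k ∈ Θ ↔ ∃ i, (i < M ∧ i ∈ E) ∧ k ∈ Λ i := by
    intro k
    simp only [hΘ, Finset.mem_biUnion, Finset.mem_filter, Finset.mem_range]
  have hval : ∑ k ∈ Finset.range (D + 1), a k * m M k = a 0 + ∑ k ∈ Θ, a k * m M k := by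
    rw [Finset.sum_range_succ', Nat.cast_zero, hm1 M le_rfl, mul_one, add_comm]
    congr 1
    have e1 : ∑ k ∈ Finset.range D, a (k + 1) * m M ((k + 1 : ℕ) : ℤ) =
        ∑ k ∈ Finset.Icc 1 D, a k * m M (k : ℤ) := by
      rw [Finset.range_eq_Ico, Finset.sum_Ico_add' (fun k => a k * m M ((k : ℕ) : ℤ)) 0 D 1]
      rfl
    rw [e1]
    symm
    refine Finset.sum_subset ?_ ?_
    · intro k hk
      obtain ⟨i, ⟨hiM, hiE⟩, hk⟩ := (hΘm k).1 hk
      have h1 := ((hΛm i k).1 hk).1
      have h2 := hpos i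
      have h3 := hD i hiM
      rw [Finset.mem_Icc]
      omega
    · intro k hk hk'
      rw [Finset.mem_Icc] at hk
      by_cases h0 : a k = 0
      · rw [h0, zero_mul]
      · rcases ha k h0 with h1 | ⟨i, hi⟩
        · have h5 := hm3 k hk.1 hk.2 (fun i _ => Or.inl (h1.trans (hmono.monotone
            (Nat.zero_le i)))) M le_rfl
          rw [h5, mul_zero]
        · by_cases hiE : i ∈ E
          · have hiM : M ≤ i := by
              by_contra hcon
              exact hk' ((hΘm k).2 ⟨i, ⟨by omega, hiE⟩, (hΛm i k).2 ⟨hi, h0⟩⟩)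
            have h1 := hSl M
            have h2 := hpos M
            have h3 : l M ≤ l i := hmono.monotone hiM
            rw [hsupp M k (by omega) (by omega), mul_zero]
          · have h5 := hm3 k hk.1 hk.2 (fun i' hi' => ?_) M le_rfl
            · rw [h5, mul_zero]
            · rcases lt_trichotomy i' i with h | h | h
              · right
                have h2 := hul i'
                have h3 := hmono.monotone (show i' + 1 ≤ i from h)
                omega
              · exact absurd (h ▸ hi') hiE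
              · left
                have h2 := hul i
                have h3 := hmono.monotone (show i + 1 ≤ i' from h)
                omega
  -- the bound
  have hbound : ‖Rz.mean N ζ (fun w => (∑ k ∈ Finset.range (D + 1), a k * w ^ k) * (R M w : ℂ))‖ ≤
      B := by
    have h1 : (∑ j ∈ Finset.range N, R M (ζ ^ j)) / N = 1 := by
      have h2 := hm1 M le_rfl
      simp only [hm, Rz.mean, zpow_zero, one_mul] at h2
      exact_mod_cast h2
    have hNpos : (0 : ℝ) < N := Nat.cast_pos.2 (Nat.pos_of_ne_zero hN0)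
    rw [Rz.mean, norm_div, Complex.norm_natCast, div_le_iff₀ hNpos]
    rw [div_eq_iff hNpos.ne', one_mul] at h1
    calc ‖∑ j ∈ Finset.range N, (∑ k ∈ Finset.range (D + 1), a k * (ζ ^ j) ^ k) *
          (R M (ζ ^ j) : ℂ)‖ ≤ ∑ j ∈ Finset.range N,
          ‖(∑ k ∈ Finset.range (D + 1), a k * (ζ ^ j) ^ k) * (R M (ζ ^ j) : ℂ)‖ :=
          norm_sum_le _ _
      _ ≤ ∑ j ∈ Finset.range N, B * R M (ζ ^ j) := by
          refine Finset.sum_le_sum fun j _ => ?_
          rw [norm_mul, Complex.norm_real, Real.norm_of_nonneg (hRn M _ (hn j))]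
          exact mul_le_mul_of_nonneg_right (hB _ (hn j)) (hRn M _ (hn j))
      _ = B * N := by rw [← Finset.mul_sum, h1]
  rw [hsum, hval] at hbound
  set T : ℝ := ∑ k ∈ Θ, ‖a k‖ with hT
  have hT0 : 0 ≤ T := Finset.sum_nonneg fun i _ => by positivity
  have hdiff : ‖∑ k ∈ Θ, a k * m M k - ((η / 2 * T : ℝ) : ℂ)‖ ≤ η / 4 * T := by
    have e1 : ∑ k ∈ Θ, a k * m M k - ((η / 2 * T : ℝ) : ℂ) =
        ∑ k ∈ Θ, a k * (m M k - ((η / 2 : ℝ) : ℂ) * (starRingEnd ℂ) (c k)) := by
      rw [hT]
      push_cast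
      rw [Finset.mul_sum, ← Finset.sum_sub_distrib]
      refine Finset.sum_congr rfl fun k _ => ?_
      rw [← hca k]
      ring
    rw [e1, hT, Finset.mul_sum]
    refine (norm_sum_le _ _).trans (Finset.sum_le_sum fun k hk => ?_)
    obtain ⟨i, ⟨hiM, hiE⟩, hk⟩ := (hΘm k).1 hk
    rw [norm_mul, mul_comm]
    exact mul_le_mul_of_nonneg_right (hm2 i hiE k hk M hiM le_rfl) (norm_nonneg _)
  have h1 : η / 4 * T ≤ B + ‖a 0‖ := by
    have h2 : ‖((η / 2 * T : ℝ) : ℂ)‖ ≤ ‖a 0 + ∑ k ∈ Θ, a k * m M k‖ + ‖a 0‖ +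
        ‖∑ k ∈ Θ, a k * m M k - ((η / 2 * T : ℝ) : ℂ)‖ := by
      have h3 := norm_sub_le (a 0 + ∑ k ∈ Θ, a k * m M k - a 0)
        (∑ k ∈ Θ, a k * m M k - ((η / 2 * T : ℝ) : ℂ))
      have h4 := norm_sub_le (a 0 + ∑ k ∈ Θ, a k * m M k) (a 0)
      have e : a 0 + ∑ k ∈ Θ, a k * m M k - a 0 -
          (∑ k ∈ Θ, a k * m M k - ((η / 2 * T : ℝ) : ℂ)) = ((η / 2 * T : ℝ) : ℂ) := by ring
      rw [e] at h3
      linarith
    rw [Complex.norm_real, Real.norm_of_nonneg (by positivity)] at h2
    linarith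
  have hdis : ∀ i ∈ (Finset.range M).filter (· ∈ E), ∀ j ∈ (Finset.range M).filter (· ∈ E),
      i ≠ j → Disjoint (Λ i) (Λ j) := by
    intro i _ j _ hij
    rw [Finset.disjoint_left]
    intro k hki hkj
    have h2 := ((hΛm i k).1 hki).1
    have h3 := ((hΛm j k).1 hkj).1
    have h6 := hpos i
    have h7 := hpos j
    rcases lt_or_gt_of_ne hij with h | h
    · have h4 := hul i
      have h5 := hmono.monotone (show i + 1 ≤ j from h)
      omega
    · have h4 := hul j
      have h5 := hmono.monotone (show j + 1 ≤ i from h)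
      omega
  have h2 : ∑ i ∈ Finset.range M, (if i ∈ E then ∑ k ∈ Finset.Icc (l i) (u i), ‖a k‖ else 0) =
      T := by
    rw [hT, hΘ, Finset.sum_biUnion hdis, Finset.sum_filter]
    refine Finset.sum_congr rfl fun i _ => ?_
    split_ifs
    · symm
      refine Finset.sum_subset (Finset.filter_subset _ _) fun k hk hk' => ?_
      rw [Finset.mem_Icc] at hk
      by_contra hcon
      exact hk' ((hΛm i k).2 ⟨hk, norm_ne_zero_iff.1 hcon⟩)
    · rfl
  rw [h2]
  have h3 : T = 4 * K ^ 2 * (η / 4 * T) := by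
    rw [hη]; field_simp
  rw [h3]
  exact mul_le_mul_of_nonneg_left h1 (by positivity)

end Pool.Agent.K9h23.Mix
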