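import Mathlib
import Pool.Agent.K9h23.Mix.Fn2
import Pool.Agent.K9h23.Mix.Rk

/-!
The corona theorem for expansions in blocks with gaps: the three kinds of large blocks.
-/

set_option autoImplicit false

open Complex Set Metric Filter Topology MvPolynomial
open scoped Real

namespace Pool.Agent.K9h23.Mix

open Pool.Agent.K9h23.Hom Pool.Agent.K9h23.Bnd
open Pool.Agent.K9h23.Lac (nsq nsq_nonneg nsq_cont nsq_c nn nn_nonneg nn_sq nn_add_le le_nsq
  nsq_smul' bd bd_le_nn comp_le_nn nsq_conj nn_le_comp Bal isOpen_Bal MP Rg Sz ev bez_unif FD)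

variable {n N : ℕ} {δ : ℝ} {d : ℕ} {l u : ℕ → ℕ} {P : ℕ → Fin N → MP n}
  {f : Fin N → (Fin n → ℂ) → ℂ}

/-- **Absolute convergence** of the sum of the large blocks with a bounded number of terms. -/
theorem terms_sum (w : ℕ) (hw : 1 ≤ w) {m N d : ℕ} {l u : ℕ → ℕ}
    {H : ℕ → Hom.E m → Fin N → ℂ} {f : Hom.E m → Fin N → ℂ} (D : DM d l u H f) {A : Set ℕ}
    (hA : ∀ i ∈ A, {k | l i ≤ k ∧ k ≤ u i ∧ H k ≠ 0}.encard ≤ w)
    (hgap : ∀ i, et (Du d u) l i ≤ 1 / 5)
    (hFb : ∀ i z, ‖z‖ ≤ 1 → nn (Fu d u H i z) ≤ 2) {z : Hom.E m} (hz : ‖z‖ < 1) (I : ℕ) :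
    ∑ i ∈ Finset.range I, wt A (Qu l u H) i z ≤ N * (16 * w ^ 2) := by
  classical
  have hl1 : ∀ i, 1 ≤ l i := fun i => by have := D.Du_lt i; omega
  have h25 : ∀ i, 25 * Du d u i ≤ l i := by
    intro i
    have h1 := gap_term hl1 hgap i
    have hl0 : (0:ℝ) < l i := by exact_mod_cast hl1 i
    have h2 : (25 * Du d u i : ℝ) ≤ l i := by nlinarith
    exact_mod_cast h2
  cases I with
  | zero => simp; positivity
  | succ I =>
  have hcomp : ∀ a : Fin N, ∑ i ∈ Finset.range (I + 1),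
      (if i ∈ A then ∑ k ∈ Finset.Icc (l i) (u i), ‖H k z a‖ else 0) ≤ 16 * w ^ 2 := by
    intro a
    have h1 := riesz_terms w hw l u (hl1 0) D.lu (fun i => ?_) A (I + 1) (u I)
      (fun k => H k z a) (fun i hi => ?_) (fun k hk => ?_) (B := 2) (fun ω hω => ?_)
      (fun i hi => D.um.monotone (by omega))
    · refine h1.trans ?_
      have h2 : ‖H 0 z a‖ ≤ 2 := by
        have e1 : H 0 z a = Fu d u H (I + 1) 0 a := by
          unfold Fu cut
          rw [Finset.sum_range_succ', Finset.sum_eq_zero, zero_add]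
          · have := (D.Hd 0 a).h 0 z
            rw [zero_smul, pow_zero, one_mul] at this
            exact this.symm
          · intro k _
            have := (D.Hd (k + 1) a).h 0 0
            rw [zero_smul, zero_pow (by omega), zero_mul] at this
            exact this
        rw [e1]
        exact (comp_le_nn _ a).trans (hFb (I + 1) 0 (by simp))
      calc 4 * (w:ℝ) ^ 2 * (2 + ‖H 0 z a‖) ≤ 4 * (w:ℝ) ^ 2 * (2 + 2) :=
            mul_le_mul_of_nonneg_left (by linarith) (by positivity)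
        _ = _ := by ring
    · have h2 := h25 (i + 1)
      change 25 * u i ≤ l (i + 1) at h2
      omega
    · have h2 : ((((Finset.Icc (l i) (u i)).filter (fun k => H k z a ≠ 0) : Finset ℕ) :
          Set ℕ)).encard ≤ w := by
        refine (Set.encard_le_encard fun k hk => ?_).trans (hA i hi)
        rw [Finset.mem_coe, Finset.mem_filter, Finset.mem_Icc] at hk
        refine ⟨hk.1.1, hk.1.2, fun h0 => hk.2 ?_⟩
        rw [h0]
        rfl
      rw [Set.encard_coe_eq_coe_finsetCard] at h2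
      exact_mod_cast h2
    · rcases le_or_gt k d with hkd | hkd
      · left
        have h2 := h25 0
        change 25 * d ≤ l 0 at h2
        omega
      · right
        by_contra hcon
        exact hk (D.sp k hkd (fun i hi => hcon ⟨i, hi⟩) z a)
    · have hz' : ‖ω • z‖ ≤ 1 := by rw [norm_smul, hω, one_mul]; exact hz.le
      have h2 := (comp_le_nn _ a).trans (hFb (I + 1) (ω • z) hz')
      refine le_trans (le_of_eq ?_) h2
      unfold Fu cut
      congr 1
      refine Finset.sum_congr rfl fun k _ => ?_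
      beta_reduce
      rw [(D.Hd k a).h]
      ring
  have hwt : ∀ i, wt A (Qu l u H) i z ≤
      ∑ a, (if i ∈ A then ∑ k ∈ Finset.Icc (l i) (u i), ‖H k z a‖ else 0) := by
    intro i
    unfold wt
    by_cases hi : i ∈ A
    · simp only [if_pos hi]
      exact Finset.sum_le_sum fun a _ => norm_sum_le _ _
    · simp only [if_neg hi, Finset.sum_const_zero, le_refl]
  refine (Finset.sum_le_sum fun i _ => hwt i).trans ?_
  rw [Finset.sum_comm]
  refine (Finset.sum_le_card_nsmul _ _ (16 * (w:ℝ) ^ 2) fun a _ => hcomp a).trans (le_of_eq ?_)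
  rw [nsmul_eq_mul, Finset.card_univ, Fintype.card_fin]

/-- the hypotheses on the blocks, without the gaps -/
structure HB (δ : ℝ) (K : ℕ) (W B X : Set ℕ) (s : ℕ → ℝ) (l u : ℕ → ℕ)
    (H : ℕ → Hom.E n → Fin N → ℂ) : Prop where
  s0 : ∀ i, 0 ≤ s i
  s1 : ∀ i, s i ≤ 1
  sW : ∀ i ∈ W, s i = 1
  sQ : ∀ i, i ∉ W → ∀ z, ‖z‖ < 1 → nn (Qu l u H i z) ≤ s i
  sm : ∀ i, i ∉ W → ∀ z, ‖z‖ < 1 → nsq (Qu l u H i z) * (100 * Ad δ ^ 2) ^ 2 ≤ 1
  lg : ∀ i ∈ W, u i ≤ K * l i
  bw : ∀ i ∈ W, {k | l i ≤ k ∧ k ≤ u i ∧ H k ≠ 0}.encard ≤ K ∨ i ∈ B ∨ i ∈ X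
  bB : ∀ z, ‖z‖ < 1 → ∀ T : Finset ℕ, (T : Set ℕ) ⊆ B → ∑ i ∈ T, nn (Qu l u H i z) ≤ K
  bX : X.encard ≤ K

theorem PD.bd2 (D : PD δ d l u P f) (hbd : ∀ i, 1 ≤ Du d u i → ∀ z : Hom.E n, ‖z‖ ≤ 1 →
    δ / 2 ≤ nn (Fu d u (HH P) i z) ∧ nn (Fu d u (HH P) i z) ≤ 2) (i : ℕ) (z : Hom.E n)
    (hz : ‖z‖ ≤ 1) : nn (Fu d u (HH P) i z) ≤ 2 := by
  rcases Nat.eq_zero_or_pos (Du d u i) with h0 | h0
  · have hi : i = 0 := by
      cases i with
      | zero => rfl
      | succ i =>
        exfalso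
        change u i = 0 at h0
        have h1 := D.lu i
        have h2 := D.dm.lm.monotone (Nat.zero_le i)
        have h3 := D.ld
        omega
    subst hi
    change d = 0 at h0
    subst h0
    rw [D.F0]
    have h1 := (D.fb 0 zero_Bal).2
    have h2 := Pool.Agent.K9h23.Lac.nn_le_of zero_le_one (u := fun j => f j 0)
      (by rw [one_pow]; exact h1)
    linarith
  · exact (hbd i h0 z hz).2

theorem wt_le (W B X A : Set ℕ) (Q : ℕ → Hom.E n → Fin N → ℂ)
    (h : ∀ i ∈ W, i ∈ A ∨ i ∈ B ∨ i ∈ X) (i : ℕ) (z : Hom.E n) :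
    wt W Q i z ≤ wt A Q i z + wt B Q i z + wt X Q i z := by
  have hA := wt_nonneg A Q i z
  have hB := wt_nonneg B Q i z
  have hX := wt_nonneg X Q i z
  by_cases hi : i ∈ W
  · have e : ∀ Y : Set ℕ, i ∈ Y → wt Y Q i z = wt W Q i z := fun Y hY => by
      unfold wt; rw [if_pos hi, if_pos hY]
    rcases h i hi with h1 | h1 | h1
    · rw [← e A h1]; linarith
    · rw [← e B h1]; linarith
    · rw [← e X h1]; linarith
  · have e : wt W Q i z = 0 := by unfold wt; rw [if_neg hi]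
    rw [e]
    positivity

open Classical in
/-- **Theorem**, with the gap condition for all blocks. -/
theorem pfull (n N d K : ℕ) {δ : ℝ} (hδ : 0 < δ) (hδ1 : δ ≤ 1) : ∃ c : ℝ, 0 < c ∧ ∃ C : ℝ,
    ∀ (l u : ℕ → ℕ) (W B X : Set ℕ) (s : ℕ → ℝ) (P : ℕ → Fin N → MP n)
    (f : Fin N → (Fin n → ℂ) → ℂ), PD δ d l u P f → HB δ K W B X s l u (HH P) →
    (∀ i, et (Du d u) l i ≤ c) → (∀ I, ∑ i ∈ Finset.range I, s i * et (Du d u) l i ≤ c) →
    SB C f := by
  obtain ⟨c1, hc1, hc15, hbd⟩ := DM.bounds N hδ hδ1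
  set S : ℝ := N * (16 * ((K + 1 : ℕ) : ℝ) ^ 2) + N * K + N * (4 * K) with hS
  have hS0 : 0 ≤ S := by positivity
  obtain ⟨c, hc, C, hmain⟩ := pmain n N d (K + 1) (by omega) hδ hδ1 hS0
  refine ⟨min c c1, lt_min hc hc1, C, fun l u W B X s P f D H hsup hgap => ?_⟩
  have hb2 := D.bd2 (hbd n d l u (HH P) _ D.dm D.low
    (fun i => (hsup i).trans (min_le_right _ _)))
  refine hmain l u W s P f D ⟨fun i => (hsup i).trans (min_le_left _ _),
    fun I => (hgap I).trans (min_le_left _ _), H.s0, H.s1, H.sW, H.sQ,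
    fun i hi => (H.lg i hi).trans (Nat.mul_le_mul_right _ (Nat.le_succ K)), H.sm,
    fun z hz I => ?_⟩
  have hN0 : (0:ℝ) ≤ N := Nat.cast_nonneg N
  have hK0 : (0:ℝ) ≤ K := Nat.cast_nonneg K
  have hfil : ∀ Y : Set ℕ, ∑ i ∈ Finset.range I, wt Y (Qu l u (HH P)) i z =
      ∑ i ∈ (Finset.range I).filter (fun i => i ∈ Y), ∑ a, ‖Qu l u (HH P) i z a‖ := by
    intro Y
    rw [Finset.sum_filter]
    rfl
  have hsub : ∀ Y : Set ℕ,
      (((Finset.range I).filter (fun i => i ∈ Y) : Finset ℕ) : Set ℕ) ⊆ Y := by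
    intro Y i hi
    rw [Finset.mem_coe, Finset.mem_filter] at hi
    exact hi.2
  refine (Finset.sum_le_sum fun i _ => wt_le W B X
    {i | {k | l i ≤ k ∧ k ≤ u i ∧ HH P k ≠ 0}.encard ≤ K} _ H.bw i z).trans ?_
  rw [Finset.sum_add_distrib, Finset.sum_add_distrib, hS]
  refine add_le_add (add_le_add ?_ ?_) ?_
  · refine terms_sum (K + 1) (by omega) D.dm (fun i hi => ?_)
      (fun i => (hsup i).trans ((min_le_right _ _).trans hc15)) hb2 hz I
    refine le_trans hi ?_
    exact_mod_cast Nat.le_succ K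
  · rw [hfil]
    have h1 : ∑ i ∈ (Finset.range I).filter (fun i => i ∈ B), ∑ a, ‖Qu l u (HH P) i z a‖ ≤
        N * ∑ i ∈ (Finset.range I).filter (fun i => i ∈ B), nn (Qu l u (HH P) i z) := by
      rw [Finset.mul_sum]
      refine Finset.sum_le_sum fun i _ => ?_
      refine (Finset.sum_le_card_nsmul _ _ (nn (Qu l u (HH P) i z)) fun a _ =>
        comp_le_nn _ a).trans (le_of_eq ?_)
      rw [nsmul_eq_mul, Finset.card_univ, Fintype.card_fin]
    exact h1.trans (mul_le_mul_of_nonneg_left (H.bB z hz _ (hsub B)) hN0)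
  · rw [hfil]
    have hcard : (((Finset.range I).filter (fun i => i ∈ X)).card : ℝ) ≤ K := by
      have h1 : ((((Finset.range I).filter (fun i => i ∈ X) : Finset ℕ) : Set ℕ)).encard ≤ K :=
        (Set.encard_le_encard (hsub X)).trans H.bX
      rw [Set.encard_coe_eq_coe_finsetCard] at h1
      have h2 : ((Finset.range I).filter (fun i => i ∈ X)).card ≤ K := by exact_mod_cast h1
      exact_mod_cast h2
    have h1 : ∀ i ∈ (Finset.range I).filter (fun i => i ∈ X),
        ∑ a, ‖Qu l u (HH P) i z a‖ ≤ N * 4 := by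
      intro i _
      refine (Finset.sum_le_card_nsmul _ _ 4 fun a _ => ?_).trans (le_of_eq ?_)
      · have e : Qu l u (HH P) i z a = Fu d u (HH P) (i + 1) z a - Fu d u (HH P) i z a := by
          rw [D.dm.succ]; ring
        rw [e]
        refine (norm_sub_le _ _).trans ?_
        have h1 := (comp_le_nn _ a).trans (hb2 (i + 1) z hz.le)
        have h2 := (comp_le_nn _ a).trans (hb2 i z hz.le)
        linarith
      · rw [nsmul_eq_mul, Finset.card_univ, Fintype.card_fin]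
    refine (Finset.sum_le_card_nsmul _ _ _ h1).trans ?_
    rw [nsmul_eq_mul]
    have h2 : (((Finset.range I).filter (fun i => i ∈ X)).card : ℝ) * (N * 4) ≤ K * (N * 4) :=
      mul_le_mul_of_nonneg_right hcard (by positivity)
    linarith

end Pool.Agent.K9h23.Mix
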