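import Mathlib
import Pool.Agent.K9h23.Mix.Fn3

/-!
The corona theorem for expansions in blocks with gaps: finitely many gaps are missing.
-/

set_option autoImplicit false

open Complex Set Metric Filter Topology MvPolynomial
open scoped Real

namespace Pool.Agent.K9h23.Mix

open Pool.Agent.K9h23.Hom Pool.Agent.K9h23.Bnd
open Pool.Agent.K9h23.Lac (nsq nsq_nonneg nsq_cont nsq_c nn nn_nonneg nn_sq nn_add_le le_nsq
  nsq_smul' bd bd_le_nn comp_le_nn nsq_conj nn_le_comp Bal isOpen_Bal MP Rg Sz ev bez_unif FD)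

variable {n N : ℕ} {δ : ℝ} {d K : ℕ} {l u : ℕ → ℕ} {P : ℕ → Fin N → MP n}
  {f : Fin N → (Fin n → ℂ) → ℂ} {W B X G : Set ℕ} {s : ℕ → ℝ}

/-- the indices after the blocks `i - 1` and `i` are merged -/
def mg (i j : ℕ) : ℕ := if j < i then j else j + 1

theorem mg_zero {i : ℕ} (hi : 1 ≤ i) : mg i 0 = 0 := by unfold mg; rw [if_pos (by omega)]

theorem mg_ne (i j : ℕ) : mg i j ≠ i := by unfold mg; split_ifs <;> omega

theorem mg_lt (i j : ℕ) : mg i j < mg i (j + 1) := by unfold mg; split_ifs <;> omega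

theorem mg_inj (i : ℕ) : Function.Injective (mg i) :=
  (strictMono_nat_of_lt_succ (mg_lt i)).injective

theorem mg_succ {i j : ℕ} (h : j + 1 ≠ i) : mg i (j + 1) - 1 = mg i j := by
  unfold mg; split_ifs <;> omega

theorem mg_last {i j : ℕ} (h : j + 1 = i) : mg i (j + 1) - 1 = i ∧ mg i j + 1 = i := by
  unfold mg; split_ifs <;> omega

theorem mg_pos (i j : ℕ) : mg i (j + 1) - 1 + 1 = mg i (j + 1) := by
  have := mg_lt i j
  omega

theorem mg_du {i : ℕ} (hi : 1 ≤ i) (d : ℕ) (u : ℕ → ℕ) (j : ℕ) :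
    Du d (fun j => u (mg i (j + 1) - 1)) j = Du d u (mg i j) := by
  cases j with
  | zero => rw [mg_zero hi]; rfl
  | succ j =>
    change u (mg i (j + 1) - 1) = _
    rw [← mg_pos i j]
    rfl

theorem mg_et {i : ℕ} (hi : 1 ≤ i) (d : ℕ) (l u : ℕ → ℕ) (j : ℕ) :
    et (Du d (fun j => u (mg i (j + 1) - 1))) (fun j => l (mg i j)) j = et (Du d u) l (mg i j) := by
  unfold et
  rw [mg_du hi]

theorem PD.merge (D : PD δ d l u P f) {i : ℕ} (hi : 1 ≤ i) :
    PD δ d (fun j => l (mg i j)) (fun j => u (mg i (j + 1) - 1)) P f := by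
  refine ⟨?_, fun j => ?_, fun j => ?_, D.hP, fun k hk hkl j => ?_, D.hs, D.fb⟩
  · rw [mg_zero hi]
    exact D.ld
  · have h1 := mg_lt i j
    exact (D.lu _).trans (D.dm.um.monotone (by omega))
  · have h1 := D.ll (mg i (j + 1) - 1)
    rwa [mg_pos] at h1
  · refine D.sp k hk (fun t ht => ?_) j
    rcases lt_trichotomy t i with h | h | h
    · refine hkl t ⟨?_, ?_⟩
      · have : mg i t = t := by unfold mg; rw [if_pos h]
        rw [this]
        exact ht.1
      · refine ht.2.trans (D.dm.um.monotone ?_)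
        have h1 : mg i t = t := by unfold mg; rw [if_pos h]
        have := mg_lt i t
        omega
    · refine hkl (i - 1) ⟨?_, ?_⟩
      · have : mg i (i - 1) = i - 1 := by unfold mg; rw [if_pos (by omega)]
        rw [this]
        refine le_trans (D.dm.lm.monotone ?_) ht.1
        omega
      · have : mg i (i - 1 + 1) - 1 = i := (mg_last (by omega)).1
        rw [this, ← h]
        exact ht.2
    · have h2 : mg i (t - 1) = t := by unfold mg; rw [if_neg (by omega)]; omega
      refine hkl (t - 1) ⟨?_, ?_⟩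
      · rw [h2]
        exact ht.1
      · rw [mg_succ (by omega), h2]
        exact ht.2

theorem mg_Qu {i j : ℕ} (h : j + 1 ≠ i) (l u : ℕ → ℕ) (H : ℕ → Hom.E n → Fin N → ℂ) :
    Qu (fun j => l (mg i j)) (fun j => u (mg i (j + 1) - 1)) H j = Qu l u H (mg i j) := by
  funext z a
  unfold Qu
  beta_reduce
  rw [mg_succ h]

theorem encard_pre {σ : ℕ → ℕ} (hσ : Function.Injective σ) {G : Set ℕ} {i M : ℕ} (hi : i ∈ G)
    (hiσ : ∀ j, σ j ≠ i) (hG : G.encard ≤ (M + 1 : ℕ)) : {j | σ j ∈ G}.encard ≤ (M : ℕ) := by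
  have h1 : (σ '' {j | σ j ∈ G}).encard = {j | σ j ∈ G}.encard := hσ.encard_image _
  have h2 : insert i (σ '' {j | σ j ∈ G}) ⊆ G := by
    rintro x (rfl | ⟨j, hj, rfl⟩)
    · exact hi
    · exact hj
  have h3 : i ∉ σ '' {j | σ j ∈ G} := by
    rintro ⟨j, _, hj⟩
    exact hiσ j hj
  have h4 := (Set.encard_le_encard h2).trans hG
  rw [Set.encard_insert_of_notMem h3, h1] at h4
  push_cast at h4
  exact (ENat.add_le_add_iff_right (by simp)).1 h4

theorem encard_pre' {σ : ℕ → ℕ} (hσ : Function.Injective σ) {G : Set ℕ} {M : ℕ}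
    (hG : G.encard ≤ M) : {j | σ j ∈ G}.encard ≤ M := by
  have h1 : (σ '' {j | σ j ∈ G}).encard = {j | σ j ∈ G}.encard := hσ.encard_image _
  rw [← h1]
  refine (Set.encard_le_encard ?_).trans hG
  rintro x ⟨j, hj, rfl⟩
  exact hj

theorem HB.merge (h : HB δ K W B X s l u (HH P)) {i : ℕ} (hi : 1 ≤ i) (hW : i - 1 ∈ W)
    {K' : ℕ} (hK : K + 1 ≤ K') (hu : u i ≤ K' * l (i - 1)) :
    HB δ K' {j | mg i j ∈ W} {j | mg i j ∈ B ∧ j + 1 ≠ i} {j | mg i j ∈ X ∨ j + 1 = i}
      (fun j => s (mg i j)) (fun j => l (mg i j)) (fun j => u (mg i (j + 1) - 1)) (HH P) := by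
  have hm : mg i (i - 1) = i - 1 := by unfold mg; rw [if_pos (by omega)]
  have hne : ∀ j, j ∉ {j | mg i j ∈ W} → j + 1 ≠ i := by
    intro j hj he
    apply hj
    have : j = i - 1 := by omega
    change mg i j ∈ W
    rw [this, hm]
    exact hW
  refine ⟨fun j => h.s0 _, fun j => h.s1 _, fun j hj => h.sW _ hj, fun j hj z hz => ?_,
    fun j hj z hz => ?_, fun j hj => ?_, fun j hj => ?_, fun z hz T hT => ?_, ?_⟩
  · rw [mg_Qu (hne j hj)]
    exact h.sQ _ hj z hz
  · rw [mg_Qu (hne j hj)]
    exact h.sm _ hj z hz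
  · by_cases he : j + 1 = i
    · have e1 : mg i (j + 1) - 1 = i := (mg_last he).1
      have e2 : mg i j = i - 1 := by have := (mg_last he).2; omega
      rw [e1, e2]
      exact hu
    · rw [mg_succ he]
      exact (h.lg _ hj).trans (Nat.mul_le_mul_right _ (by omega))
  · by_cases he : j + 1 = i
    · exact Or.inr (Or.inr (Or.inr he))
    · rw [mg_succ he]
      rcases h.bw _ hj with h1 | h1 | h1
      · exact Or.inl (h1.trans (by exact_mod_cast (by omega : K ≤ K')))
      · exact Or.inr (Or.inl ⟨h1, he⟩)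
      · exact Or.inr (Or.inr (Or.inl h1))
  · have e1 : ∑ j ∈ T, nn (Qu (fun j => l (mg i j)) (fun j => u (mg i (j + 1) - 1)) (HH P) j z) =
        ∑ t ∈ T.image (mg i), nn (Qu l u (HH P) t z) := by
      rw [Finset.sum_image fun a _ b _ hab => mg_inj i hab]
      refine Finset.sum_congr rfl fun j hj => ?_
      rw [mg_Qu (hT hj).2]
    rw [e1]
    refine (h.bB z hz _ ?_).trans (by exact_mod_cast (by omega : K ≤ K'))
    intro t ht
    rw [Finset.coe_image] at ht
    obtain ⟨j, hj, rfl⟩ := ht
    exact (hT hj).1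
  · have e1 : {j | mg i j ∈ X ∨ j + 1 = i} ⊆ insert (i - 1) {j | mg i j ∈ X} := by
      rintro j (hj | hj)
      · exact Or.inr hj
      · left; omega
    refine (Set.encard_le_encard e1).trans ((Set.encard_insert_le _ _).trans ?_)
    have e2 := encard_pre' (mg_inj i) h.bX
    have e3 : ((K + 1 : ℕ) : ℕ∞) ≤ (K' : ℕ∞) := by exact_mod_cast hK
    refine le_trans ?_ e3
    push_cast
    exact add_le_add e2 le_rfl

theorem HB.shift (h : HB δ K W B X s l u (HH P)) :
    HB δ K {j | j + 1 ∈ W} {j | j + 1 ∈ B} {j | j + 1 ∈ X}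
      (fun j => s (j + 1)) (fun j => l (j + 1)) (fun j => u (j + 1)) (HH P) := by
  refine ⟨fun j => h.s0 _, fun j => h.s1 _, fun j hj => h.sW _ hj, fun j hj z hz =>
    h.sQ (j + 1) hj z hz, fun j hj z hz => h.sm (j + 1) hj z hz, fun j hj => h.lg (j + 1) hj,
    fun j hj => h.bw (j + 1) hj, fun z hz T hT => ?_, ?_⟩
  · have e1 : ∑ j ∈ T, nn (Qu (fun j => l (j + 1)) (fun j => u (j + 1)) (HH P) j z) =
        ∑ t ∈ T.image (· + 1), nn (Qu l u (HH P) t z) := by
      rw [Finset.sum_image fun a _ b _ hab => Nat.succ_injective hab]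
      exact Finset.sum_congr rfl fun j _ => rfl
    rw [e1]
    refine h.bB z hz _ ?_
    intro t ht
    rw [Finset.coe_image] at ht
    obtain ⟨j, hj, rfl⟩ := ht
    exact hT hj
  · exact encard_pre' (σ := (· + 1)) Nat.succ_injective h.bX

/-- the conclusion of the theorem, for `d`, `K`, at most `M` missing gaps -/
def Cn (n N : ℕ) (δ : ℝ) (M d K : ℕ) (c C : ℝ) : Prop :=
  ∀ (l u : ℕ → ℕ) (W B X G : Set ℕ) (s : ℕ → ℝ) (P : ℕ → Fin N → MP n)
    (f : Fin N → (Fin n → ℂ) → ℂ), PD δ d l u P f → HB δ K W B X s l u (HH P) →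
    G.encard ≤ M → (∀ i ∈ G, i ∈ W ∧ i - 1 ∈ W) → (∀ i, i ∉ G → et (Du d u) l i ≤ c) →
    (∀ T : Finset ℕ, (∀ i ∈ T, i ∉ G) → ∑ i ∈ T, s i * et (Du d u) l i ≤ c) → SB C f

theorem Cn.mono {M : ℕ} {c C c' C' : ℝ} (h : Cn n N δ M d K c C) (hc : c' ≤ c) (hC : C ≤ C') :
    Cn n N δ M d K c' C' := fun l u W B X G s P f D H h1 h2 h3 h4 =>
  (h l u W B X G s P f D H h1 h2 (fun i hi => (h3 i hi).trans hc)
    fun T hT => (h4 T hT).trans hc).mono hC

theorem Cn.unif {M : ℕ} (h : ∀ d, ∃ c : ℝ, 0 < c ∧ ∃ C : ℝ, Cn n N δ M d K c C) (Dm : ℕ) :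
    ∃ c : ℝ, 0 < c ∧ ∃ C : ℝ, ∀ d ≤ Dm, Cn n N δ M d K c C := by
  induction Dm with
  | zero =>
    obtain ⟨c, hc, C, h0⟩ := h 0
    exact ⟨c, hc, C, fun d hd => by rw [Nat.le_zero.1 hd]; exact h0⟩
  | succ Dm ih =>
    obtain ⟨c, hc, C, h0⟩ := h (Dm + 1)
    obtain ⟨c', hc', C', h1⟩ := ih
    refine ⟨min c c', lt_min hc hc', max C C', fun d hd => ?_⟩
    rcases Nat.lt_or_ge d (Dm + 1) with h2 | h2
    · exact (h1 d (by omega)).mono (min_le_right _ _) (le_max_right _ _)
    · rw [le_antisymm hd h2]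
      exact h0.mono (min_le_left _ _) (le_max_left _ _)

open Classical in
theorem pgap (n N : ℕ) {δ : ℝ} (hδ : 0 < δ) (hδ1 : δ ≤ 1) (M : ℕ) : ∀ d K : ℕ,
    ∃ c : ℝ, 0 < c ∧ ∃ C : ℝ, Cn n N δ M d K c C := by
  induction M with
  | zero =>
    intro d K
    obtain ⟨c, hc, C, h⟩ := pfull n N d K hδ hδ1
    refine ⟨c, hc, C, fun l u W B X G s P f D H hG _ hsup hgap => ?_⟩
    have hG0 : G = ∅ := by
      rw [← Set.encard_eq_zero]
      exact le_antisymm hG (by simp)
    subst hG0
    exact h l u W B X s P f D H (fun i => hsup i (by simp)) (fun I => hgap _ (by simp))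
  | succ M ih =>
    intro d K
    obtain ⟨c1, hc1, C1, h1⟩ := pfull n N d K hδ hδ1
    have hM0 : (0:ℝ) ≤ M := Nat.cast_nonneg M
    set τ : ℝ := c1 / (2 * (M + 1)) with hτ
    have hτ0 : 0 < τ := by positivity
    have hτ1 : (M + 1) * τ = c1 / 2 := by rw [hτ]; field_simp
    have hτ2 : τ ≤ c1 := by nlinarith
    obtain ⟨K2, hK2⟩ := exists_nat_ge ((K:ℝ) ^ 2 / τ ^ 2)
    obtain ⟨c2, hc2, C2, h2⟩ := ih d (K2 + (K + 1))
    obtain ⟨Dm, hDm⟩ := exists_nat_ge ((K:ℝ) * d / τ ^ 2)
    obtain ⟨c3, hc3, C3, h3⟩ := Cn.unif (fun d' => ih d' K) Dm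
    set c : ℝ := min (c1 / 2) (min c2 c3) with hc
    have hca : c ≤ c1 / 2 := min_le_left _ _
    have hcb : c ≤ c2 := (min_le_right _ _).trans (min_le_left _ _)
    have hcc : c ≤ c3 := (min_le_right _ _).trans (min_le_right _ _)
    refine ⟨c, lt_min (by positivity) (lt_min hc2 hc3), max C1 (max C2 C3),
      fun l u W B X G s P f D H hG hGW hsup hgap => ?_⟩
    by_cases hcase : ∀ i ∈ G, et (Du d u) l i ≤ τ
    · -- all the gaps are large
      refine (h1 l u W B X s P f D H (fun i => ?_) fun I => ?_).mono (le_max_left _ _)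
      · by_cases hi : i ∈ G
        · exact (hcase i hi).trans hτ2
        · exact (hsup i hi).trans (hca.trans (by linarith))
      · rw [← Finset.sum_filter_add_sum_filter_not (Finset.range I) (fun i => i ∈ G)]
        have a1 : ∑ i ∈ (Finset.range I).filter (fun i => i ∉ G), s i * et (Du d u) l i ≤ c :=
          hgap _ fun i hi => (Finset.mem_filter.1 hi).2
        have a2 : ∑ i ∈ (Finset.range I).filter (fun i => i ∈ G), s i * et (Du d u) l i ≤
            ((Finset.range I).filter (fun i => i ∈ G)).card • τ :=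
          Finset.sum_le_card_nsmul _ _ _ fun i hi =>
            (mul_le_of_le_one_left (et_nonneg _ _ _) (H.s1 i)).trans
              (hcase i (Finset.mem_filter.1 hi).2)
        have a3 : ((Finset.range I).filter (fun i => i ∈ G)).card ≤ M + 1 := by
          have b1 : ((((Finset.range I).filter (fun i => i ∈ G) : Finset ℕ) : Set ℕ)).encard ≤
              ((M + 1 : ℕ) : ℕ∞) := by
            refine (Set.encard_le_encard fun i hi => ?_).trans hG
            rw [Finset.mem_coe, Finset.mem_filter] at hi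
            exact hi.2
          rw [Set.encard_coe_eq_coe_finsetCard] at b1
          exact_mod_cast b1
        rw [nsmul_eq_mul] at a2
        have a4 : (((Finset.range I).filter (fun i => i ∈ G)).card : ℝ) ≤ M + 1 := by
          exact_mod_cast a3
        have a5 : (((Finset.range I).filter (fun i => i ∈ G)).card : ℝ) * τ ≤ (M + 1) * τ :=
          mul_le_mul_of_nonneg_right a4 hτ0.le
        linarith
    · push Not at hcase
      obtain ⟨i, hiG, hie⟩ := hcase
      have hl1 : ∀ i, 1 ≤ l i := fun i => by have := D.dm.Du_lt i; omega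
      have hl0 : (0:ℝ) < l i := by exact_mod_cast hl1 i
      -- the gap is small
      have hlD : (l i : ℝ) * τ ^ 2 ≤ Du d u i := by
        unfold et at hie
        rw [lt_div_iff₀ (Real.sqrt_pos.2 hl0)] at hie
        have h5 := pow_le_pow_left₀ (by positivity) hie.le 2
        rw [mul_pow, Real.sq_sqrt hl0.le, Real.sq_sqrt (Nat.cast_nonneg _)] at h5
        linarith
      have hui : (u i : ℝ) ≤ K * l i := by exact_mod_cast H.lg i (hGW i hiG).1
      have hK0 : (0:ℝ) ≤ K := Nat.cast_nonneg K
      have hτ20 : 0 < τ ^ 2 := by positivity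
      rcases Nat.eq_zero_or_pos i with hi0 | hi0
      · subst hi0
        have hu0 : u 0 ≤ Dm := by
          have : (u 0 : ℝ) ≤ Dm := by
            refine le_trans ?_ hDm
            rw [le_div_iff₀ hτ20]
            change (l 0 : ℝ) * τ ^ 2 ≤ d at hlD
            nlinarith
          exact_mod_cast this
        refine (h3 (u 0) hu0 (fun j => l (j + 1)) (fun j => u (j + 1)) _ _ _ {j | j + 1 ∈ G} _ P f
          (D.shift le_rfl (D.ll 0)) H.shift
          (encard_pre (σ := (· + 1)) Nat.succ_injective hiG (fun j => Nat.succ_ne_zero j) hG)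
          (fun j hj => ?_) (fun j hj => ?_) (fun T hT => ?_)).mono
          ((le_max_right _ _).trans (le_max_right _ _))
        · obtain ⟨b1, b2⟩ := hGW (j + 1) hj
          refine ⟨b1, ?_⟩
          change j - 1 + 1 ∈ W
          cases j with
          | zero => exact b1
          | succ j => exact b2
        · have e : et (Du (u 0) fun i => u (i + 1)) (fun i => l (i + 1)) j =
              et (Du d u) l (j + 1) := by
            unfold et
            cases j with
            | zero => rfl
            | succ i => rfl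
          rw [e]
          exact (hsup (j + 1) hj).trans hcc
        · have e : ∀ j, et (Du (u 0) fun i => u (i + 1)) (fun i => l (i + 1)) j =
              et (Du d u) l (j + 1) := fun j => by
            unfold et
            cases j with
            | zero => rfl
            | succ i => rfl
          simp_rw [e]
          have e2 : ∑ j ∈ T, s (j + 1) * et (Du d u) l (j + 1) =
              ∑ t ∈ T.image (· + 1), s t * et (Du d u) l t := by
            rw [Finset.sum_image fun a _ b _ hab => Nat.succ_injective hab]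
          rw [e2]
          refine (hgap _ fun t ht => ?_).trans hcc
          obtain ⟨j, hj, rfl⟩ := Finset.mem_image.1 ht
          exact hT j hj
      · have hui' : u i ≤ (K2 + (K + 1)) * l (i - 1) := by
          have b1 : Du d u i = u (i - 1) := by
            obtain ⟨j, rfl⟩ := Nat.exists_eq_succ_of_ne_zero (by omega : i ≠ 0)
            rfl
          have b2 : (u (i - 1) : ℝ) ≤ K * l (i - 1) := by
            exact_mod_cast H.lg _ (hGW i hiG).2
          rw [b1] at hlD
          have b3 : (u i : ℝ) * τ ^ 2 ≤ K ^ 2 * l (i - 1) := by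
            calc (u i : ℝ) * τ ^ 2 ≤ K * l i * τ ^ 2 := mul_le_mul_of_nonneg_right hui hτ20.le
              _ = K * (l i * τ ^ 2) := by ring
              _ ≤ K * u (i - 1) := mul_le_mul_of_nonneg_left hlD hK0
              _ ≤ K * (K * l (i - 1)) := mul_le_mul_of_nonneg_left b2 hK0
              _ = _ := by ring
          rw [div_le_iff₀ hτ20] at hK2
          have b4 : (0:ℝ) ≤ l (i - 1) := Nat.cast_nonneg _
          have b5 : (u i : ℝ) * τ ^ 2 ≤ (K2 * l (i - 1)) * τ ^ 2 := by
            refine b3.trans ?_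
            have := mul_le_mul_of_nonneg_right hK2 b4
            linarith
          have b6 : (u i : ℝ) ≤ K2 * l (i - 1) := le_of_mul_le_mul_right b5 hτ20
          have b7 : u i ≤ K2 * l (i - 1) := by exact_mod_cast b6
          exact b7.trans (Nat.mul_le_mul_right _ (by omega))
        refine (h2 (fun j => l (mg i j)) (fun j => u (mg i (j + 1) - 1)) _ _ _
          {j | mg i j ∈ G} _ P f (D.merge hi0) (H.merge hi0 (hGW i hiG).2 (by omega) hui')
          (encard_pre (mg_inj i) hiG (mg_ne i) hG)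
          (fun j hj => ?_) (fun j hj => ?_) (fun T hT => ?_)).mono
          ((le_max_left _ _).trans (le_max_right _ _))
        · obtain ⟨b1, b2⟩ := hGW _ hj
          refine ⟨b1, ?_⟩
          change mg i (j - 1) ∈ W
          rcases lt_trichotomy j i with h | h | h
          · have e1 : mg i j = j := by unfold mg; rw [if_pos h]
            have e2 : mg i (j - 1) = j - 1 := by unfold mg; rw [if_pos (by omega)]
            rw [e1] at b2
            rw [e2]
            exact b2
          · have e2 : mg i (j - 1) = i - 1 := by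
              subst h
              unfold mg; rw [if_pos (by omega)]
            rw [e2]
            exact (hGW i hiG).2
          · have e1 : mg i j = j + 1 := by unfold mg; rw [if_neg (by omega)]
            have e2 : mg i (j - 1) = j := by unfold mg; rw [if_neg (by omega)]; omega
            rw [e1] at b2
            rw [e2]
            exact b2
        · rw [mg_et hi0]
          exact (hsup _ hj).trans hcb
        · simp_rw [mg_et hi0]
          have e2 : ∑ j ∈ T, s (mg i j) * et (Du d u) l (mg i j) =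
              ∑ t ∈ T.image (mg i), s t * et (Du d u) l t := by
            rw [Finset.sum_image fun a _ b _ hab => mg_inj i hab]
          rw [e2]
          refine (hgap _ fun t ht => ?_).trans hcb
          obtain ⟨j, hj, rfl⟩ := Finset.mem_image.1 ht
          exact hT j hj

end Pool.Agent.K9h23.Mix
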