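import Mathlib
import Pool.Agent.K9h23.Mix.Fn4

/-!
The corona theorem for expansions in blocks with gaps: final form, with the explicit constant for
small blocks.
-/

set_option autoImplicit false

open Complex Set Metric Filter Topology MvPolynomial
open scoped Real

namespace Pool.Agent.K9h23.Mix

open Pool.Agent.K9h23.Hom Pool.Agent.K9h23.Bnd
open Pool.Agent.K9h23.Lac (nsq nsq_nonneg nsq_cont nsq_c nn nn_nonneg nn_sq nn_add_le le_nsq
  nsq_smul' bd bd_le_nn comp_le_nn nsq_conj nn_le_comp Bal isOpen_Bal MP Rg Sz ev bez_unif FD)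

theorem pfinal (n N d K : ℕ) {δ : ℝ} (hδ : 0 < δ) (hδ1 : δ ≤ 1) :
    ∃ c : ℝ, 0 < c ∧ ∃ C : ℝ, ∀ (l u : ℕ → ℕ) (W B X G : Set ℕ) (s : ℕ → ℝ)
    (P : ℕ → Fin N → MP n) (f : Fin N → (Fin n → ℂ) → ℂ), PD δ d l u P f →
    HB δ K W B X s l u (HH P) → G.encard ≤ K → (∀ i ∈ G, i ∈ W ∧ i - 1 ∈ W) →
    (∀ i, i ∉ G → et (Du d u) l i ≤ c) →
    (∀ T : Finset ℕ, (∀ i ∈ T, i ∉ G) → ∑ i ∈ T, s i * et (Du d u) l i ≤ c) →
    SB C f ∧ (d = 0 → W = ∅ → SB (400 * Ad δ * Real.exp 1 * Real.exp (4 * Ad δ)) f) := by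
  obtain ⟨c1, hc1, C, h1⟩ := pgap n N hδ hδ1 K d K
  obtain ⟨C1, hC1, h2⟩ := pmain0 n N 1 le_rfl hδ hδ1
  obtain ⟨c2, hc2, h2⟩ := h2 0 le_rfl
  refine ⟨min c1 c2, lt_min hc1 hc2, C, fun l u W B X G s P f D H hG hGW hsup hgap =>
    ⟨h1 l u W B X G s P f D H hG hGW (fun i hi => (hsup i hi).trans (min_le_left _ _))
      fun T hT => (hgap T hT).trans (min_le_left _ _), fun hd hW => ?_⟩⟩
  subst hd
  subst hW
  have hG0 : ∀ i, i ∉ G := fun i hi => (hGW i hi).1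
  have h3 := h2 l u ∅ s P f D ⟨fun i => (hsup i (hG0 i)).trans (min_le_right _ _),
    fun I => (hgap _ fun i _ => hG0 i).trans (min_le_right _ _), H.s0, H.s1, H.sW, H.sQ,
    fun i hi => absurd hi (Set.notMem_empty i), H.sm, fun z _ I => ?_⟩ (Set.notMem_empty 0)
  · rw [mul_zero, zero_add] at h3
    exact h3
  · refine le_of_eq (Finset.sum_eq_zero fun i _ => ?_)
    unfold wt
    rw [if_neg (Set.notMem_empty i)]

/-- the explicit constants -/
theorem expl_bound {δ : ℝ} (hδ : 0 < δ) (hδ1 : δ ≤ 1) :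
    400 * Ad (Real.sqrt δ) * Real.exp 1 * Real.exp (4 * Ad (Real.sqrt δ)) ≤
      Real.exp (300 / δ) := by
  have h1 : Real.sqrt δ ^ 2 = δ := Real.sq_sqrt hδ.le
  have h2 : Ad (Real.sqrt δ) = 4 + 64 / δ := by unfold Ad; rw [h1]
  set x : ℝ := 1 / δ with hx
  have hx1 : 1 ≤ x := by rw [hx, le_div_iff₀ hδ]; linarith
  have h3 : Ad (Real.sqrt δ) ≤ 68 * x := by
    rw [h2, hx]
    have : 64 / δ = 64 * (1 / δ) := by ring
    rw [this, ← hx]
    linarith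
  have hA0 : 0 < Ad (Real.sqrt δ) := by rw [h2]; positivity
  have h4 : 400 * Ad (Real.sqrt δ) ≤ Real.exp (9 + Ad (Real.sqrt δ) / 16) := by
    have h5 := Real.add_one_le_exp (Ad (Real.sqrt δ) / 16)
    have h6 : (6400:ℝ) ≤ Real.exp 9 := by
      have h7 : (2.7:ℝ) ≤ Real.exp 1 := by
        have := Real.exp_one_gt_d9
        linarith
      have h8 : (2.7:ℝ) ^ 9 ≤ Real.exp 1 ^ 9 := pow_le_pow_left₀ (by norm_num) h7 9
      rw [← Real.exp_nat_mul] at h8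
      have h9 : (6400:ℝ) ≤ 2.7 ^ 9 := by norm_num
      have e : ((9:ℕ):ℝ) * 1 = 9 := by norm_num
      rw [e] at h8
      linarith
    rw [Real.exp_add]
    have h10 : 0 ≤ Ad (Real.sqrt δ) / 16 := by positivity
    calc 400 * Ad (Real.sqrt δ) = 6400 * (Ad (Real.sqrt δ) / 16) := by ring
      _ ≤ Real.exp 9 * Real.exp (Ad (Real.sqrt δ) / 16) :=
          mul_le_mul h6 (by linarith) h10 (Real.exp_pos _).le
  calc 400 * Ad (Real.sqrt δ) * Real.exp 1 * Real.exp (4 * Ad (Real.sqrt δ)) ≤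
        Real.exp (9 + Ad (Real.sqrt δ) / 16) * Real.exp 1 *
          Real.exp (4 * Ad (Real.sqrt δ)) := by
        refine mul_le_mul_of_nonneg_right ?_ (Real.exp_pos _).le
        exact mul_le_mul_of_nonneg_right h4 (Real.exp_pos _).le
    _ = Real.exp (9 + Ad (Real.sqrt δ) / 16 + 1 + 4 * Ad (Real.sqrt δ)) := by
        rw [← Real.exp_add, ← Real.exp_add]
    _ ≤ Real.exp (300 / δ) := by
        refine Real.exp_le_exp.2 ?_
        have e : 300 / δ = 300 * x := by rw [hx]; ring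
        rw [e]
        linarith

/-- the smallness -/
theorem expl_small {δ t : ℝ} (hδ : 0 < δ) (hδ1 : δ ≤ 1) (ht0 : 0 ≤ t)
    (ht : t ≤ δ ^ 2 / 10 ^ 6) : t ^ 2 * (100 * Ad (Real.sqrt δ) ^ 2) ^ 2 ≤ 1 := by
  have h1 : Real.sqrt δ ^ 2 = δ := Real.sq_sqrt hδ.le
  have h2 : Ad (Real.sqrt δ) = 4 + 64 / δ := by unfold Ad; rw [h1]
  have h3 : δ * Ad (Real.sqrt δ) ≤ 68 := by
    rw [h2]
    have : δ * (4 + 64 / δ) = 4 * δ + 64 := by field_simp
    rw [this]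
    linarith
  have hA0 : 0 < Ad (Real.sqrt δ) := by rw [h2]; positivity
  have h4 : t * (100 * Ad (Real.sqrt δ) ^ 2) ≤ 1 := by
    calc t * (100 * Ad (Real.sqrt δ) ^ 2) ≤ δ ^ 2 / 10 ^ 6 * (100 * Ad (Real.sqrt δ) ^ 2) :=
          mul_le_mul_of_nonneg_right ht (by positivity)
      _ = (δ * Ad (Real.sqrt δ)) ^ 2 * (100 / 10 ^ 6) := by ring
      _ ≤ 68 ^ 2 * (100 / 10 ^ 6) := by
          refine mul_le_mul_of_nonneg_right ?_ (by norm_num)
          exact pow_le_pow_left₀ (by positivity) h3 2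
      _ ≤ 1 := by norm_num
  rw [← mul_pow]
  exact pow_le_one₀ (by positivity) h4

end Pool.Agent.K9h23.Mix
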